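import Mathlib

open MeasureTheory Set Filter Topology

noncomputable section

namespace Pool.Agent.H93.CMC

/-- residues of the two boundary slices of the slab `(a, b a)` -/
def Res (b : ℝ → ℝ) (a : ℝ) : Set ℝ := {t | ∃ k : ℤ, t = a + k ∨ t = b a + k}

/-- One-dimensional core: `W` is the volume density of the slices, `h` their mean curvature, `A`
their area. -/
theorem core (W h A : ℝ → ℝ) (hW : Continuous W) (hpos : ∀ t, 0 < W t)
    (hper : ∀ t, W (t + 1) = W t) (hh : Continuous h) (hAper : ∀ t, A (t + 1) = A t)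
    (hA : ∀ s t, s ≤ t → A t - A s = ∫ τ in s..t, h τ * W τ)
    (v : ℝ) (hv0 : 0 < v) (hv1 : v < ∫ τ in (0:ℝ)..1, W τ) :
    ∃ b : ℝ → ℝ, (∀ a, a < b a ∧ b a < a + 1 ∧ (∫ τ in a..b a, W τ) = v) ∧
      ∃ a₁ a₂ : ℝ, h (b a₁) = - h a₁ ∧ h (b a₂) = - h a₂ ∧ Res b a₁ ≠ Res b a₂ := by
  set V : ℝ → ℝ := fun t => ∫ τ in (0:ℝ)..t, W τ with hV
  have hint : ∀ s t, IntervalIntegrable W volume s t := fun s t => hW.intervalIntegrable s t
  have hVd : ∀ t, HasDerivAt V (W t) t := fun t =>
    intervalIntegral.integral_hasDerivAt_right (hint 0 t)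
      (hW.stronglyMeasurableAtFilter _ _) hW.continuousAt
  have hVc : Continuous V := continuous_iff_continuousAt.2 fun t => (hVd t).continuousAt
  have hVm : StrictMono V := strictMono_of_deriv_pos fun t => by rw [(hVd t).deriv]; exact hpos t
  have hVsub : ∀ s t, V t - V s = ∫ τ in s..t, W τ := fun s t =>
    intervalIntegral.integral_interval_sub_left (hint 0 t) (hint 0 s)
  have hper' : Function.Periodic W 1 := hper
  have hV1 : ∀ t, V (t + 1) = V t + V 1 := by
    intro t
    have h1 := hVsub t (t + 1)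
    have h2 : (∫ τ in t..t + 1, W τ) = ∫ τ in (0:ℝ)..0 + 1, W τ :=
      hper'.intervalIntegral_add_eq t 0
    rw [zero_add] at h2
    have : V 1 = ∫ τ in (0:ℝ)..1, W τ := rfl
    linarith
  have hV1pos : 0 < V 1 := by
    have := hVm (zero_lt_one (α := ℝ))
    have h0 : V 0 = 0 := by simp [hV]
    linarith
  have hVn : ∀ (k : ℕ) t, V (t + k) = V t + k * V 1 := by
    intro k
    induction k with
    | zero => intro t; simp
    | succ k ih =>
      intro t
      have : t + ((k + 1 : ℕ) : ℝ) = (t + k) + 1 := by push_cast; ring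
      rw [this, hV1, ih]; push_cast; ring
  have hVn' : ∀ (k : ℕ) t, V (t - k) = V t - k * V 1 := by
    intro k t
    have := hVn k (t - k)
    rw [sub_add_cancel] at this
    linarith
  have hsurj : Function.Surjective V := by
    intro y
    obtain ⟨k, hk⟩ := exists_nat_gt (|y| / V 1)
    rw [div_lt_iff₀ hV1pos] at hk
    have h0 : V 0 = 0 := by simp [hV]
    have hk1 : V (0 - k) ≤ y := by rw [hVn', h0]; linarith [neg_abs_le y]
    have hk2 : y ≤ V (0 + k) := by rw [hVn, h0]; linarith [le_abs_self y]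
    have hle : (0 - (k:ℝ)) ≤ 0 + k := by have : (0:ℝ) ≤ k := Nat.cast_nonneg k; linarith
    obtain ⟨t, -, ht⟩ := intermediate_value_Icc hle hVc.continuousOn ⟨hk1, hk2⟩
    exact ⟨t, ht⟩
  let e : ℝ ≃o ℝ := hVm.orderIsoOfSurjective V hsurj
  have he : ∀ t, e t = V t := fun t => rfl
  have hec : Continuous e.symm := e.symm.continuous
  set b : ℝ → ℝ := fun a => e.symm (V a + v) with hb
  have hVb : ∀ a, V (b a) = V a + v := fun a => by
    rw [← he (b a)]; exact e.apply_symm_apply _
  have hbd : ∀ a, HasDerivAt b (W a / W (b a)) a := by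
    intro a
    have h1 : HasDerivAt (e.symm : ℝ → ℝ) (W (e.symm (V a + v)))⁻¹ (V a + v) := by
      refine HasDerivAt.of_local_left_inverse hec.continuousAt (hVd _) (hpos _).ne' ?_
      exact Eventually.of_forall fun y => e.apply_symm_apply y
    have h2 : HasDerivAt (fun a => V a + v) (W a) a := (hVd a).add_const v
    have h3 := h1.comp a h2
    have h4 : (W (e.symm (V a + v)))⁻¹ * W a = W a / W (b a) := by
      rw [div_eq_inv_mul]
    rw [← h4]; exact h3
  have hbper : ∀ a, b (a + 1) = b a + 1 := by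
    intro a
    apply hVm.injective
    rw [hVb, hV1, hV1, hVb]; ring
  have hb1 : ∀ a, a < b a := by
    intro a
    apply hVm.lt_iff_lt.1
    rw [hVb]; linarith
  have hb2 : ∀ a, b a < a + 1 := by
    intro a
    apply hVm.lt_iff_lt.1
    rw [hVb, hV1]; linarith
  have hbv : ∀ a, (∫ τ in a..b a, W τ) = v := by
    intro a; rw [← hVsub, hVb]; ring
  -- derivative of the area
  have hhW : Continuous fun τ => h τ * W τ := hh.mul hW
  have hAd : ∀ t, HasDerivAt A (h t * W t) t := by
    intro t
    have h1 : ∀ s, A s = A 0 + ∫ τ in (0:ℝ)..s, h τ * W τ := by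
      intro s
      rcases le_total 0 s with hs | hs
      · have := hA 0 s hs; linarith
      · have := hA s 0 hs
        rw [intervalIntegral.integral_symm]; linarith
    have h2 : HasDerivAt (fun s => A 0 + ∫ τ in (0:ℝ)..s, h τ * W τ) (h t * W t) t :=
      (intervalIntegral.integral_hasDerivAt_right (hhW.intervalIntegrable 0 t)
        (hhW.stronglyMeasurableAtFilter _ _) hhW.continuousAt).const_add _
    have h3 : A = fun s => A 0 + ∫ τ in (0:ℝ)..s, h τ * W τ := funext h1
    rw [h3]; exact h2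
  set Φ : ℝ → ℝ := fun a => A a + A (b a) with hΦ
  have hΦd : ∀ a, HasDerivAt Φ (W a * (h a + h (b a))) a := by
    intro a
    have h1 := (hAd a).add ((hAd (b a)).comp a (hbd a))
    have h2 : h a * W a + h (b a) * W (b a) * (W a / W (b a)) = W a * (h a + h (b a)) := by
      have := (hpos (b a)).ne'
      field_simp
    rw [← h2]; exact h1
  have hΦc : Continuous Φ := continuous_iff_continuousAt.2 fun t => (hΦd t).continuousAt
  have hΦper : Function.Periodic Φ 1 := by
    intro a
    simp only [hΦ, hbper, hAper]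
  have hcrit : ∀ a, (∀ x, Φ x ≤ Φ a) ∨ (∀ x, Φ a ≤ Φ x) → h (b a) = - h a := by
    intro a ha
    have h0 : W a * (h a + h (b a)) = 0 := by
      rcases ha with ha | ha
      · have hl : IsLocalMax Φ a := Eventually.of_forall ha
        exact hl.hasDerivAt_eq_zero (hΦd a)
      · have hl : IsLocalMin Φ a := Eventually.of_forall ha
        exact hl.hasDerivAt_eq_zero (hΦd a)
    rcases mul_eq_zero.1 h0 with h0 | h0
    · exact absurd h0 (hpos a).ne'
    · linarith
  refine ⟨b, fun a => ⟨hb1 a, hb2 a, hbv a⟩, ?_⟩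
  obtain ⟨M, -, hM⟩ := isCompact_Icc.exists_isMaxOn (nonempty_Icc.2 (zero_le_one (α := ℝ)))
    hΦc.continuousOn
  obtain ⟨m, -, hm⟩ := isCompact_Icc.exists_isMinOn (nonempty_Icc.2 (zero_le_one (α := ℝ)))
    hΦc.continuousOn
  have hred : ∀ x, ∃ y ∈ Icc (0:ℝ) 1, Φ y = Φ x := by
    intro x
    refine ⟨Int.fract x, ⟨Int.fract_nonneg x, (Int.fract_lt_one x).le⟩, ?_⟩
    have := hΦper.sub_zsmul_eq (x := x) ⌊x⌋
    rw [← this, zsmul_eq_mul, mul_one]
    rfl
  have hM' : ∀ x, Φ x ≤ Φ M := by
    intro x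
    obtain ⟨y, hy, hyx⟩ := hred x
    rw [← hyx]; exact hM hy
  have hm' : ∀ x, Φ m ≤ Φ x := by
    intro x
    obtain ⟨y, hy, hyx⟩ := hred x
    rw [← hyx]; exact hm hy
  have hAint : ∀ (k : ℤ) t, A (t + k) = A t := by
    intro k t
    have : Function.Periodic A 1 := hAper
    have := this.int_mul k t
    simpa using this
  by_cases hconst : Φ m = Φ M
  · have hall : ∀ x, Φ x = Φ M := fun x => le_antisymm (hM' x) (hconst ▸ hm' x)
    have h0 : 0 < b 0 := hb1 0
    have h1 : b 0 < 1 := by have := hb2 0; linarith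
    refine ⟨0, b 0 / 2, hcrit 0 (Or.inl fun x => by rw [hall x, hall 0]),
      hcrit _ (Or.inl fun x => by rw [hall x, hall (b 0 / 2)]), fun hS => ?_⟩
    have hmem : b 0 / 2 ∈ Res b (b 0 / 2) := ⟨0, Or.inl (by simp)⟩
    rw [← hS] at hmem
    obtain ⟨k, hk | hk⟩ := hmem
    · have h2 : (0:ℝ) < k := by linarith
      have h3 : (k:ℝ) < 1 := by linarith
      have h4 : 0 < k := by exact_mod_cast h2
      have h5 : k < 1 := by exact_mod_cast h3
      omega
    · have h2 : (k:ℝ) < 0 := by linarith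
      have h3 : (-1:ℝ) < k := by linarith
      have h4 : k < 0 := by exact_mod_cast h2
      have h5 : -1 < k := by exact_mod_cast h3
      omega
  · refine ⟨m, M, hcrit m (Or.inr hm'), hcrit M (Or.inl hM'), fun hS => hconst ?_⟩
    have hmem1 : M ∈ Res b m := by rw [hS]; exact ⟨0, Or.inl (by simp)⟩
    have hmem2 : b M ∈ Res b m := by rw [hS]; exact ⟨0, Or.inr (by simp)⟩
    have hgap : ∀ (k : ℤ), (k:ℝ) = b M - M → False := by
      intro k hk
      have h2 : (0:ℝ) < k := by have := hb1 M; linarith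
      have h3 : (k:ℝ) < 1 := by have := hb2 M; linarith
      have h4 : 0 < k := by exact_mod_cast h2
      have h5 : k < 1 := by exact_mod_cast h3
      omega
    obtain ⟨k, hk | hk⟩ := hmem1
    · obtain ⟨l, hl | hl⟩ := hmem2
      · exact (hgap (l - k) (by push_cast; linarith)).elim
      · simp only [hΦ]
        rw [hk] at hl ⊢
        rw [hl, hAint, hAint]
    · obtain ⟨l, hl | hl⟩ := hmem2
      · simp only [hΦ]
        rw [hk] at hl ⊢
        rw [hl, hAint, hAint]; ring
      · exact (hgap (l - k) (by push_cast; linarith)).elim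

end Pool.Agent.H93.CMC
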