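import Pool.Agent.H93.CMC.Defs
import Pool.Agent.H93.CMC.Core

open MeasureTheory Set Filter Topology

noncomputable section

namespace Pool.Agent.H93.CMC

variable {n : ℕ} (G : Metric n)

lemma g_contDiff : ContDiff ℝ (⊤ : ℕ∞) (fun x => (G.g x).det) := by
  simp only [Matrix.det_apply]
  refine ContDiff.sum fun σ _ => ?_
  refine ContDiff.const_smul _ ?_
  exact contDiff_prod fun i _ => G.smooth _ _

lemma det_pos (x : E n) : 0 < (G.g x).det := (G.posDef x).det_pos

lemma dens_pos (x : E n) : 0 < dens G x := Real.sqrt_pos.2 (det_pos G x)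

lemma dens_contDiff : ContDiff ℝ (⊤ : ℕ∞) (dens G) := by
  unfold dens
  exact (g_contDiff G).sqrt fun x => (det_pos G x).ne'

lemma inv_contDiff (i j : Fin (n + 1)) : ContDiff ℝ (⊤ : ℕ∞) (fun x => (G.g x)⁻¹ i j) := by
  have h1 : (fun x => (G.g x)⁻¹ i j) = fun x => (G.g x).det⁻¹ * (G.g x).adjugate i j := by
    funext x
    rw [Matrix.inv_def, Matrix.smul_apply, Ring.inverse_eq_inv', smul_eq_mul]
  rw [h1]
  refine ContDiff.mul ((g_contDiff G).inv fun x => (det_pos G x).ne') ?_
  simp only [Matrix.adjugate_apply, Matrix.det_apply]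
  refine ContDiff.sum fun σ _ => ?_
  refine ContDiff.const_smul _ ?_
  refine contDiff_prod fun k _ => ?_
  by_cases hk : σ k = j
  · simp only [hk, Matrix.updateRow_self]
    exact contDiff_const
  · simp only [Matrix.updateRow_ne hk]
    exact G.smooth _ _

lemma inv00_pos (x : E n) : 0 < (G.g x)⁻¹ 0 0 := (G.posDef x).inv.diag_pos

/-- the flux components of the unit normal field of the slices -/
def F (i : Fin (n + 1)) (y : E n) : ℝ := dens G y * (G.g y)⁻¹ i 0 / √((G.g y)⁻¹ 0 0)

lemma F_contDiff (i : Fin (n + 1)) : ContDiff ℝ (⊤ : ℕ∞) (F G i) := by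
  unfold F
  refine ContDiff.div ((dens_contDiff G).mul (inv_contDiff G i 0))
    ((inv_contDiff G 0 0).sqrt fun x => (inv00_pos G x).ne') fun x => ?_
  exact (Real.sqrt_pos.2 (inv00_pos G x)).ne'

lemma F_shift (G : TorusMetric n) (i : Fin (n + 1)) (k : Fin (n + 1) → ℤ) (x : E n) : F G i (shift k x) = F G i x := by
  unfold F dens
  rw [G.periodic]

lemma dens_shift (G : TorusMetric n) (k : Fin (n + 1) → ℤ) (x : E n) : dens G (shift k x) = dens G x := by
  unfold dens
  rw [G.periodic]

lemma pd_sub (c : ℝ) (j : Fin (n + 1)) (y : E n) :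
    pd j (fun z : E n => z 0 - c) y = if j = 0 then 1 else 0 := by
  unfold pd
  have h : HasFDerivAt (fun z : E n => z 0 - c)
      (ContinuousLinearMap.proj (R := ℝ) (φ := fun _ : Fin (n + 1) => ℝ) 0) y :=
    (ContinuousLinearMap.proj (R := ℝ) (φ := fun _ : Fin (n + 1) => ℝ) 0).hasFDerivAt.sub_const c
  rw [h.fderiv]
  simp only [ContinuousLinearMap.proj_apply]
  by_cases hj : j = 0
  · subst hj; simp
  · rw [Pi.single_eq_of_ne (Ne.symm hj)]; simp [hj]

lemma fderiv_sub_ne (c : ℝ) (y : E n) : fderiv ℝ (fun z : E n => z 0 - c) y ≠ 0 := by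
  intro h
  have := pd_sub c 0 y
  unfold pd at this
  rw [h] at this
  simp at this

lemma pd_neg (c : ℝ) (j : Fin (n + 1)) (y : E n) :
    pd j (fun z : E n => c - z 0) y = - (if j = 0 then 1 else 0) := by
  unfold pd
  have h : HasFDerivAt (fun z : E n => c - z 0)
      (-ContinuousLinearMap.proj (R := ℝ) (φ := fun _ : Fin (n + 1) => ℝ) 0) y :=
    (ContinuousLinearMap.proj (R := ℝ) (φ := fun _ : Fin (n + 1) => ℝ) 0).hasFDerivAt.const_sub c
  rw [h.fderiv]
  simp only [_root_.neg_apply, ContinuousLinearMap.proj_apply]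
  by_cases hj : j = 0
  · subst hj; simp
  · rw [Pi.single_eq_of_ne (Ne.symm hj)]; simp [hj]

lemma fderiv_neg_ne (c : ℝ) (y : E n) : fderiv ℝ (fun z : E n => c - z 0) y ≠ 0 := by
  intro h
  have := pd_neg c 0 y
  unfold pd at this
  rw [h] at this
  simp at this

/-- mean curvature of the slice through `x` -/
def slice (x : E n) : ℝ := (dens G x)⁻¹ * ∑ i, pd i (F G i) x

lemma meanCurv_sub (c : ℝ) (x : E n) : meanCurv G (fun z => z 0 - c) x = slice G x := by
  unfold meanCurv slice
  have h1 : ∀ i y, grad G (fun z => z 0 - c) i y = (G.g y)⁻¹ i 0 := by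
    intro i y
    unfold grad
    simp only [pd_sub]
    simp
  have h2 : ∀ y, gradNorm G (fun z => z 0 - c) y = √((G.g y)⁻¹ 0 0) := by
    intro y
    unfold gradNorm
    simp only [pd_sub, h1]
    simp
  simp only [h1, h2]
  rfl

lemma meanCurv_zero (x : E n) : meanCurv G (fun z => z 0) x = slice G x := by
  have := meanCurv_sub G 0 x
  simpa using this

lemma meanCurv_neg (c : ℝ) (x : E n) : meanCurv G (fun z => c - z 0) x = - slice G x := by
  unfold meanCurv slice
  have h1 : ∀ i y, grad G (fun z => c - z 0) i y = - (G.g y)⁻¹ i 0 := by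
    intro i y
    unfold grad
    simp only [pd_neg]
    simp
  have h2 : ∀ y, gradNorm G (fun z => c - z 0) y = √((G.g y)⁻¹ 0 0) := by
    intro y
    unfold gradNorm
    simp only [pd_neg, h1]
    simp
  simp only [h1, h2]
  have h3 : ∀ i, (fun y => dens G y * -(G.g y)⁻¹ i 0 / √((G.g y)⁻¹ 0 0)) = fun y => - F G i y := by
    intro i; funext y; unfold F; ring
  simp only [h3]
  have h4 : ∀ i, pd i (fun y => - F G i y) x = - pd i (F G i) x := by
    intro i
    unfold pd
    rw [show (fun y => - F G i y) = - F G i from rfl, fderiv_neg]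
    simp
  simp only [h4, Finset.sum_neg_distrib]
  ring

lemma pd_continuous (i : Fin (n + 1)) {f : E n → ℝ} (hf : ContDiff ℝ (⊤ : ℕ∞) f) :
    Continuous (pd i f) := by
  unfold pd
  exact (hf.continuous_fderiv (by simp)).clm_apply continuous_const

lemma slice_continuous : Continuous (slice G) := by
  unfold slice
  refine ((dens_contDiff G).continuous.inv₀ fun x => (dens_pos G x).ne').mul ?_
  exact continuous_finsetSum _ fun i _ => pd_continuous i (F_contDiff G i)

lemma pd_shift (i : Fin (n + 1)) {f : E n → ℝ} (k : Fin (n + 1) → ℤ)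
    (hf : ∀ x, f (shift k x) = f x) (x : E n) : pd i f (shift k x) = pd i f x := by
  unfold pd
  have h1 : shift k x = x + fun i => (k i : ℝ) := by
    funext j; simp [shift]
  rw [h1, ← fderiv_comp_add_right]
  congr 2
  funext y
  have : y + (fun i => (k i : ℝ)) = shift k y := by funext j; simp [shift]
  rw [this, hf]

lemma slice_shift (G : TorusMetric n) (k : Fin (n + 1) → ℤ) (x : E n) : slice G (shift k x) = slice G x := by
  unfold slice
  rw [dens_shift]
  simp only [pd_shift _ k (F_shift G _ k)]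

/-- cons -/
def cns (t : ℝ) (x : Fin n → ℝ) : E n := Fin.cons t x

lemma cns_zero (t : ℝ) (x : Fin n → ℝ) : cns t x 0 = t := rfl

lemma cns_continuous : Continuous (fun p : ℝ × (Fin n → ℝ) => cns p.1 p.2) := by
  unfold cns
  refine continuous_pi fun i => ?_
  refine Fin.cases ?_ (fun j => ?_) i
  · simpa using continuous_fst
  · simp only [Fin.cons_succ]
    exact (continuous_apply j).comp continuous_snd

/-- the slab-type Fubini formula -/
lemma fubini (f : E n → ℝ) (hf : Continuous f) (B : Set ℝ) (hB : MeasurableSet B) (s t : ℝ)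
    (hBs : B ⊆ Icc s t) :
    ∫ x in {x : E n | x 0 ∈ B ∧ (fun i : Fin n => x i.succ) ∈ Icc (0 : Fin n → ℝ) 1}, f x =
      ∫ τ in B, ∫ x' in Icc (0 : Fin n → ℝ) 1, f (cns τ x') := by
  have hmp := volume_preserving_piFinSuccAbove (fun _ : Fin (n + 1) => ℝ) 0
  have h1 := hmp.setIntegral_preimage_emb (MeasurableEquiv.measurableEmbedding _)
    (fun p : ℝ × (Fin n → ℝ) => f (cns p.1 p.2)) (B ×ˢ Icc (0 : Fin n → ℝ) 1)
  have h2 : (MeasurableEquiv.piFinSuccAbove (fun _ : Fin (n + 1) => ℝ) 0) ⁻¹'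
      (B ×ˢ Icc (0 : Fin n → ℝ) 1) =
      {x : E n | x 0 ∈ B ∧ (fun i : Fin n => x i.succ) ∈ Icc (0 : Fin n → ℝ) 1} := by
    ext x
    simp only [mem_preimage, mem_prod]
    rfl
  have h3 : ∀ x : E n, f (cns ((MeasurableEquiv.piFinSuccAbove (fun _ : Fin (n + 1) => ℝ) 0) x).1
      ((MeasurableEquiv.piFinSuccAbove (fun _ : Fin (n + 1) => ℝ) 0) x).2) = f x := by
    intro x
    congr 1
    funext i
    refine Fin.cases ?_ (fun j => ?_) i
    · rfl
    · rfl
  rw [h2] at h1
  simp only [h3] at h1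
  rw [h1, Measure.volume_eq_prod, setIntegral_prod]
  have hc : Continuous (fun p : ℝ × (Fin n → ℝ) => f (cns p.1 p.2)) := hf.comp cns_continuous
  have hcomp : IsCompact (Icc s t ×ˢ Icc (0 : Fin n → ℝ) 1) := isCompact_Icc.prod isCompact_Icc
  exact (hc.continuousOn.integrableOn_compact hcomp).mono_set (prod_mono hBs subset_rfl)

end Pool.Agent.H93.CMC
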