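import Pool.Agent.H93.CMC.Gen2

open MeasureTheory Set Filter Topology

noncomputable section

namespace Pool.Agent.H93.CMC

variable {n : ℕ}

section

variable {Γ : Type} [Group Γ] [MulAction Γ (E n)] {χ : Γ → ℤ} {D : Set (E n)} {G : Metric n}

/-- the finitely many deck transformations which do not move a ball off itself -/
def dk (hΓ : FibredDeck Γ χ D) (R : ℝ) : Finset Γ :=
  (hΓ.proper (_root_.Metric.closedBall (0 : E n) R) (isCompact_closedBall _ _)).toFinset

lemma mem_dk (hΓ : FibredDeck Γ χ D) {R : ℝ} {γ : Γ} {x : E n}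
    (hx : x ∈ _root_.Metric.closedBall (0 : E n) R)
    (hy : γ • x ∈ _root_.Metric.closedBall (0 : E n) R) : γ ∈ dk hΓ R := by
  unfold dk
  rw [Set.Finite.mem_toFinset]
  exact ⟨x, hx, hy⟩

lemma fundamental (hΓ : FibredDeck Γ χ D) (G : Metric n) : IsFundamentalDomain Γ D (mu G) :=
  IsFundamentalDomain.mk' hΓ.measurable.nullMeasurableSet hΓ.domain

/-- unfolding -/
lemma unfold_int (hΓ : FibredDeck Γ χ D) (hinv : DeckInvariant Γ G) {R : ℝ}
    (hDR : D ⊆ _root_.Metric.closedBall (0 : E n) R) {f : E n → ℝ} (hf : Integrable f (mu G))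
    (hsupp : ∀ x, f x ≠ 0 → x ∈ _root_.Metric.closedBall (0 : E n) R) :
    ∫ x, f x ∂(mu G) = ∑ γ ∈ dk hΓ R, ∫ x in D, f (γ • x) ∂(mu G) := by
  haveI : ContinuousConstSMul Γ (E n) := ⟨smul_cont hΓ⟩
  haveI := mu_invariant hΓ hinv
  haveI := deck_countable hΓ
  rw [(fundamental hΓ G).integral_eq_tsum'' f hf]
  refine tsum_eq_sum fun γ hγ => ?_
  rw [setIntegral_congr_fun (g := fun _ => (0:ℝ)) hΓ.measurable]
  · simp
  · intro x hx
    by_contra hne
    exact hγ (mem_dk hΓ (hDR hx) (hsupp _ hne))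

lemma exists_partition (hΓ : FibredDeck Γ χ D) {R : ℝ}
    (hDR : D ⊆ _root_.Metric.closedBall (0 : E n) R) (hR : 0 < R) :
    ∃ f : E n → ℝ, ContDiff ℝ (⊤ : ℕ∞) f ∧ HasCompactSupport f ∧
      (∀ x, f x ≠ 0 → x ∈ _root_.Metric.closedBall (0 : E n) (R + 1)) ∧
      ∀ x ∈ _root_.Metric.closedBall (0 : E n) (R + 1), ∑ γ ∈ dk hΓ (R + 1), f (γ • x) = 1 := by
  let f0 : ContDiffBump (0 : E n) := ⟨R, R + 1, hR, by linarith⟩
  have hf0s : ∀ x, f0 x ≠ 0 → x ∈ _root_.Metric.closedBall (0 : E n) (R + 1) := by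
    intro x hx
    have : x ∈ Function.support f0 := hx
    rw [f0.support_eq] at this
    exact _root_.Metric.ball_subset_closedBall this
  have hf01 : ∀ x ∈ D, f0 x = 1 := fun x hx => f0.one_of_mem_closedBall (hDR hx)
  have hf0c : ContDiff ℝ (⊤ : ℕ∞) f0 := f0.contDiff
  set S : E n → ℝ := fun x => ∑ᶠ γ : Γ, f0 (γ • x) with hS
  have hSfin : ∀ R2, R + 1 ≤ R2 → ∀ x ∈ _root_.Metric.closedBall (0 : E n) R2,
      S x = ∑ γ ∈ dk hΓ R2, f0 (γ • x) := by
    intro R2 hR2 x hx
    rw [hS]
    refine finsum_eq_sum_of_support_subset _ fun γ hγ => ?_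
    exact mem_dk hΓ hx (_root_.Metric.closedBall_subset_closedBall hR2 (hf0s _ hγ))
  have hSinv : ∀ (γ : Γ) (x : E n), S (γ • x) = S x := by
    intro γ x
    rw [hS]
    simp only [← mul_smul]
    exact finsum_comp_equiv (Equiv.mulRight γ) (f := fun δ : Γ => f0 (δ • x))
  have hSpos : ∀ x, 0 < S x := by
    intro x
    set R2 := max (R + 1) ‖x‖ with hR2
    have hx : x ∈ _root_.Metric.closedBall (0 : E n) R2 := by
      rw [mem_closedBall_zero_iff]
      exact le_max_right _ _
    rw [hSfin R2 (le_max_left _ _) x hx]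
    obtain ⟨γ, hγ, -⟩ := hΓ.domain x
    refine Finset.sum_pos' (fun δ _ => f0.nonneg) ⟨γ, ?_, ?_⟩
    · refine mem_dk hΓ hx (_root_.Metric.closedBall_subset_closedBall (le_max_left _ _) (hf0s _ ?_))
      rw [hf01 _ hγ]; exact one_ne_zero
    · rw [hf01 _ hγ]; exact one_pos
  have hSsm : ContDiff ℝ (⊤ : ℕ∞) S := by
    rw [contDiff_iff_contDiffAt]
    intro x
    set R2 := max (R + 1) (‖x‖ + 1) with hR2
    have h1 : (fun y => ∑ γ ∈ dk hΓ R2, f0 (γ • y)) =ᶠ[𝓝 x] S := by
      have hb : _root_.Metric.ball (0 : E n) R2 ∈ 𝓝 x := by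
        refine _root_.Metric.isOpen_ball.mem_nhds ?_
        rw [mem_ball_zero_iff]
        exact lt_of_lt_of_le (by linarith) (le_max_right _ _)
      filter_upwards [hb] with y hy
      exact (hSfin R2 (le_max_left _ _) y (_root_.Metric.ball_subset_closedBall hy)).symm
    refine ContDiffAt.congr_of_eventuallyEq ?_ h1.symm
    exact ContDiffAt.sum fun γ _ => (hf0c.comp (hΓ.smooth γ)).contDiffAt
  refine ⟨fun x => f0 x / S x, hf0c.div hSsm fun x => (hSpos x).ne', ?_, ?_, ?_⟩
  · have := f0.hasCompactSupport.mul_right (f' := fun x => (S x)⁻¹)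
    simp only [div_eq_mul_inv]
    exact this
  · intro x hx
    refine hf0s x fun h0 => hx ?_
    show f0 x / S x = 0
    rw [h0, zero_div]
  · intro x hx
    have h1 : ∀ γ : Γ, f0 (γ • x) / S (γ • x) = f0 (γ • x) / S x := fun γ => by rw [hSinv]
    simp only [h1]
    rw [← Finset.sum_div, ← hSfin (R + 1) le_rfl x hx, div_self (hSpos x).ne']

lemma Nd_sum (G : Metric n) {ι : Type} (s : Finset ι) (f : ι → E n → ℝ)
    (hf : ∀ i ∈ s, Differentiable ℝ (f i)) (x : E n) :
    Nd G (fun z => ∑ i ∈ s, f i z) x = ∑ i ∈ s, Nd G (f i) x := by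
  unfold Nd
  rw [Finset.sum_comm]
  refine Finset.sum_congr rfl fun j _ => ?_
  rw [← Finset.sum_mul]
  congr 1
  unfold pd
  rw [fderiv_fun_sum fun i hi => (hf i hi) x]
  simp

lemma Nd_const (G : Metric n) {f : E n → ℝ} {c : ℝ} {x : E n} (hf : f =ᶠ[𝓝 x] fun _ => c) :
    Nd G f x = 0 := by
  unfold Nd
  refine Finset.sum_eq_zero fun j _ => ?_
  have : pd j f x = 0 := by
    unfold pd
    rw [hf.fderiv_eq]
    simp
  rw [this, zero_mul]

lemma Nd_cont (G : Metric n) {f : E n → ℝ} (hf : ContDiff ℝ (⊤ : ℕ∞) f) : Continuous (Nd G f) := by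
  unfold Nd
  exact continuous_finset_sum _ fun i _ => (pd_continuous i hf).mul (nrm_contDiff G i).continuous

lemma mu_lf (G : Metric n) : IsLocallyFiniteMeasure (mu G) := by
  unfold mu
  exact IsLocallyFiniteMeasure.withDensity_ofReal (dens_contDiff G).continuous

lemma pd_supp {f : E n → ℝ} (j : Fin (n + 1)) {x : E n} (hx : pd j f x ≠ 0) : x ∈ tsupport f := by
  by_contra h
  apply hx
  unfold pd
  have : f =ᶠ[𝓝 x] fun _ => (0:ℝ) := by
    have := notMem_tsupport_iff_eventuallyEq.1 h
    exact this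
  rw [this.fderiv_eq]
  simp

/-- the mean curvature of the fibres has mean zero -/
lemma mean_zero (hΓ : FibredDeck Γ χ D) (hinv : DeckInvariant Γ G) (hC : CMCFibres G) :
    ∫ x in D, hB G (x 0) ∂(mu G) = 0 := by
  haveI := mu_lf G
  obtain ⟨R0, hR0⟩ := hΓ.bounded.subset_closedBall (0 : E n)
  set R := max R0 1 with hR
  have hRpos : 0 < R := lt_of_lt_of_le one_pos (le_max_right _ _)
  have hDR : D ⊆ _root_.Metric.closedBall (0 : E n) R :=
    hR0.trans (_root_.Metric.closedBall_subset_closedBall (le_max_left _ _))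
  have hDR1 : D ⊆ _root_.Metric.closedBall (0 : E n) (R + 1) :=
    hDR.trans (_root_.Metric.closedBall_subset_closedBall (by linarith))
  obtain ⟨f, hf, hfc, hfs, hsum⟩ := exists_partition hΓ hDR hRpos
  have hcb : IsClosed (_root_.Metric.closedBall (0 : E n) (R + 1)) := _root_.Metric.isClosed_closedBall
  have hts : tsupport f ⊆ _root_.Metric.closedBall (0 : E n) (R + 1) :=
    closure_minimal (fun x hx => hfs x hx) hcb
  have hper : ∀ (γ : Γ) (x : E n), hB G ((γ • x) 0) = hB G (x 0) := by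
    intro γ x
    rw [hΓ.height]
    have := hB_deck hΓ hinv hC γ (x 0 + χ γ)
    rw [add_sub_cancel_right] at this
    exact this.symm
  have hcB : Continuous fun x : E n => hB G (x 0) := (hB_cont G).comp (continuous_apply 0)
  have hint : ∀ g : E n → ℝ, Continuous g → IntegrableOn g D (mu G) := fun g hg =>
    (hg.continuousOn.integrableOn_compact (isCompact_closedBall (0 : E n) R)).mono_set hDR
  -- left-hand side
  have hL : ∫ x in D, hB G (x 0) ∂(mu G) = ∫ x, f x * hB G (x 0) ∂(mu G) := by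
    rw [unfold_int hΓ hinv hDR1 (f := fun x => f x * hB G (x 0))
      ((hf.continuous.mul hcB).integrable_of_hasCompactSupport hfc.mul_right)
      (fun x hx => hfs x (left_ne_zero_of_mul hx)), ← integral_finset_sum]
    · refine setIntegral_congr_fun hΓ.measurable fun x hx => ?_
      simp only [hper]
      rw [← Finset.sum_mul, hsum x (hDR1 hx), one_mul]
    · intro γ _
      exact hint _ ((hf.continuous.comp (smul_cont hΓ γ)).mul (hcB.comp (smul_cont hΓ γ)))
  -- right-hand side
  have hR' : ∫ x, Nd G f x ∂(mu G) = 0 := by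
    have hNc : HasCompactSupport (Nd G f) := by
      refine HasCompactSupport.of_support_subset_isCompact hfc fun x hx => ?_
      by_contra h
      apply hx
      unfold Nd
      refine Finset.sum_eq_zero fun j _ => ?_
      by_contra h2
      exact h (pd_supp j (left_ne_zero_of_mul h2))
    rw [unfold_int hΓ hinv hDR1 (f := Nd G f) ((Nd_cont G hf).integrable_of_hasCompactSupport hNc)
      (fun x hx => hts (by
        by_contra h
        apply hx
        unfold Nd
        refine Finset.sum_eq_zero fun j _ => ?_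
        by_contra h2
        exact h (pd_supp j (left_ne_zero_of_mul h2)))), ← integral_finset_sum]
    · rw [setIntegral_congr_fun (g := fun _ => (0:ℝ)) hΓ.measurable]
      · simp
      · intro x hx
        have h1 : ∀ γ : Γ, Nd G f (γ • x) = Nd G (fun z => f (γ • z)) x := fun γ =>
          (Nd_deck hΓ hinv γ (hf.differentiable (by simp)) x).symm
        simp only [h1]
        rw [← Nd_sum G _ (fun γ z => f (γ • z))
          (fun γ _ => (hf.comp (hΓ.smooth γ)).differentiable (by simp)) x]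
        refine Nd_const G (c := 1) ?_
        have hb : _root_.Metric.ball (0 : E n) (R + 1) ∈ 𝓝 x := by
          refine _root_.Metric.isOpen_ball.mem_nhds ?_
          have := hDR hx
          rw [mem_closedBall_zero_iff] at this
          rw [mem_ball_zero_iff]
          linarith
        filter_upwards [hb] with y hy
        exact hsum y (_root_.Metric.ball_subset_closedBall hy)
    · intro γ _
      exact hint _ ((Nd_cont G hf).comp (smul_cont hΓ γ))
  rw [hL, weak G hC hf hfc, hR', neg_zero]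

end

end Pool.Agent.H93.CMC
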