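import Pool.Agent.H93.CMC.MGen1
import Pool.Agent.H93.CMC.Gen3

open MeasureTheory Set Filter Topology Matrix

noncomputable section

namespace Pool.Agent.H93.CMC

variable {n : ℕ} {M : Type*} [TopologicalSpace M]

/-- lifts of the fibration and mean curvature of the fibres -/
structure FibData (X : RiemMfd n M) (θ : M → AddCircle (1 : ℝ)) (h : AddCircle (1 : ℝ) → ℝ)
    (u : X.ι → E n → ℝ) : Prop where
  smooth : ∀ i, ContDiff ℝ (⊤ : ℕ∞) (u i)
  ne : ∀ i x, fderiv ℝ (u i) x ≠ 0
  lift : ∀ i x, θ (X.param i x) = (u i x : AddCircle (1 : ℝ))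
  mc : ∀ i x, meanCurv (X.metric i) (u i) x = h (θ (X.param i x))

lemma fibData_of {X : RiemMfd n M} {θ : M → AddCircle (1 : ℝ)} (hθ : CMCFibration X θ) :
    ∃ h u, FibData X θ h u := by
  obtain ⟨h, hh⟩ := hθ
  choose u h1 h2 h3 h4 using hh
  exact ⟨h, u, ⟨h1, h2, h3, h4⟩⟩

variable {X : RiemMfd n M} {θ : M → AddCircle (1 : ℝ)} {h : AddCircle (1 : ℝ) → ℝ}
  {u : X.ι → E n → ℝ}

lemma cont_of_charts (X : RiemMfd n M) {Y : Type*} [TopologicalSpace Y] {f : M → Y}
    (hf : ∀ i, Continuous fun x => f (X.param i x)) : Continuous f := by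
  rw [continuous_iff_continuousAt]
  intro q
  obtain ⟨i, x, rfl⟩ := X.cover q
  exact ((X.isOpenEmbedding i).continuousAt_iff (g := f)).1 (hf i).continuousAt

lemma theta_cont (H : FibData X θ h u) : Continuous θ := by
  refine cont_of_charts X fun i => ?_
  simp only [H.lift]
  exact (AddCircle.continuous_mk' (1:ℝ)).comp (H.smooth i).continuous

lemma hθ_cont (H : FibData X θ h u) : Continuous fun q => h (θ q) := by
  refine cont_of_charts X fun i => ?_
  simp only [← H.mc]
  exact meanCurv_cont _ (H.smooth i) (H.ne i)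

lemma coe_eq_int {s t : ℝ} (hst : (s : AddCircle (1 : ℝ)) = t) : ∃ k : ℤ, s - t = k := by
  have h1 : ((s - t : ℝ) : AddCircle (1 : ℝ)) = 0 := by
    rw [AddCircle.coe_sub, hst, sub_self]
  obtain ⟨k, hk⟩ := (AddCircle.coe_eq_zero_iff (1:ℝ)).1 h1
  exact ⟨k, by simpa using hk.symm⟩

lemma lift_const (H : FibData X θ h u) {i j : X.ι} {x : E n} {φ : E n → E n}
    (hφ : ContinuousAt φ x) (htr : ∀ᶠ z in 𝓝 x, X.param j (φ z) = X.param i z) :
    ∃ c : ℝ, u i =ᶠ[𝓝 x] fun z => u j (φ z) + c := by
  set w : E n → ℝ := fun z => u i z - u j (φ z) with hw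
  have hint : ∀ᶠ z in 𝓝 x, ∃ k : ℤ, w z = k := by
    filter_upwards [htr] with z hz
    apply coe_eq_int
    rw [← H.lift, ← H.lift, hz]
  have hcont : ContinuousAt w x :=
    (H.smooth i).continuous.continuousAt.sub
      (ContinuousAt.comp (g := u j) (H.smooth j).continuous.continuousAt hφ)
  have hnear : ∀ᶠ z in 𝓝 x, |w z - w x| < 1 := by
    have := _root_.Metric.continuousAt_iff'.1 hcont 1 one_pos
    simpa [Real.dist_eq] using this
  refine ⟨w x, ?_⟩
  obtain ⟨k0, hk0⟩ := hint.self_of_nhds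
  filter_upwards [hint, hnear] with z hz hz2
  obtain ⟨k, hk⟩ := hz
  rw [hk, hk0] at hz2
  have h1 : |((k - k0 : ℤ) : ℝ)| < 1 := by push_cast; exact hz2
  have h2 : |k - k0| < 1 := by exact_mod_cast h1
  have h3 : k - k0 = 0 := Int.abs_lt_one_iff.1 h2
  have h4 : k = k0 := by omega
  have : w z = w x := by rw [hk, hk0, h4]
  simp only [hw] at this ⊢
  linarith

/-- the derivative of a function on `M` in the direction of the unit normal field -/
def NM (X : RiemMfd n M) (u : X.ι → E n → ℝ) (f : M → ℝ) (q : M) : ℝ :=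
  NdU (X.metric (X.cover q).choose) (u (X.cover q).choose)
    (fun z => f (X.param (X.cover q).choose z)) (X.cover q).choose_spec.choose

lemma NM_aux (H : FibData X θ h u) {f : M → ℝ} (hf : SmoothM X f) (i j : X.ι) (x y : E n)
    (hyx : X.param j y = X.param i x) :
    NdU (X.metric j) (u j) (fun z => f (X.param j z)) y =
      NdU (X.metric i) (u i) (fun z => f (X.param i z)) x := by
  obtain ⟨φ, h1, h2, h3, h4⟩ := X.transition j i y x hyx
  have hφd : DifferentiableAt ℝ φ y := h1.differentiableAt (by simp)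
  obtain ⟨c, hc⟩ := lift_const H (i := j) (j := i) h1.continuousAt h3
  subst h2
  refine NdU_transf (X.metric j) (X.metric i) hφd ((H.smooth i).differentiable (by simp) _) h4 hc
    ((hf i).differentiable (by simp) _) ?_
  filter_upwards [h3] with z hz
  rw [hz]

lemma NM_eq (H : FibData X θ h u) {f : M → ℝ} (hf : SmoothM X f) (i : X.ι) (x : E n) :
    NM X u f (X.param i x) = NdU (X.metric i) (u i) (fun z => f (X.param i z)) x :=
  NM_aux H hf i _ x _ (X.cover (X.param i x)).choose_spec.choose_spec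

lemma NM_cont (H : FibData X θ h u) {f : M → ℝ} (hf : SmoothM X f) : Continuous (NM X u f) := by
  refine cont_of_charts X fun i => ?_
  simp only [NM_eq H hf]
  exact NdU_cont _ (H.smooth i) (H.ne i) (hf i)

section measure

variable [MeasurableSpace M] [BorelSpace M] {μ : Measure M}

lemma restrict_chart (hμ : IsVolume X μ) (i : X.ι) :
    μ.restrict (range (X.param i)) = (mu (X.metric i)).map (X.param i) := by
  have hme := (X.isOpenEmbedding i).measurableEmbedding
  ext s hs
  rw [Measure.restrict_apply hs, hme.map_apply, hμ i _ (hs.inter hme.measurableSet_range)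
    inter_subset_right]
  have : X.param i ⁻¹' (s ∩ range (X.param i)) = X.param i ⁻¹' s := by
    ext x; simp
  rw [this]
  unfold mu
  rw [withDensity_apply _ (hme.measurable hs)]

lemma int_chart (hμ : IsVolume X μ) (i : X.ι) {f : M → ℝ}
    (hf : ∀ q, q ∉ range (X.param i) → f q = 0) :
    ∫ q, f q ∂μ = ∫ x, f (X.param i x) ∂(mu (X.metric i)) := by
  rw [← setIntegral_eq_integral_of_forall_compl_eq_zero hf, restrict_chart hμ,
    (X.isOpenEmbedding i).measurableEmbedding.integral_map]

/-- `∫_M h(θ) = 0` -/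
lemma mean_zeroM [CompactSpace M] [T2Space M] [IsFiniteMeasure μ] (H : FibData X θ h u)
    (hμ : IsVolume X μ)
    (hpart : ∃ (m : ℕ) (c : Fin m → X.ι) (ξ : Fin m → M → ℝ), (∀ k, SmoothM X (ξ k)) ∧
      (∀ q, ∑ k, ξ k q = 1) ∧ (∀ k, HasCompactSupport fun x => ξ k (X.param (c k) x)) ∧
      ∀ k q, q ∉ range (X.param (c k)) → ξ k q = 0) :
    ∫ q, h (θ q) ∂μ = 0 := by
  obtain ⟨m, c, ξ, hsm, hsum, hcs, hz⟩ := hpart
  have hint : ∀ g : M → ℝ, Continuous g → Integrable g μ := fun g hg =>
    hg.integrable_of_hasCompactSupport (HasCompactSupport.of_compactSpace _)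
  have hξc : ∀ k, Continuous (ξ k) := fun k => cont_of_charts X fun i => (hsm k i).continuous
  have h1 : ∀ q, h (θ q) = ∑ k, ξ k q * h (θ q) := fun q => by
    rw [← Finset.sum_mul, hsum, one_mul]
  have h2 : ∀ k, ∫ q, ξ k q * h (θ q) ∂μ = - ∫ q, NM X u (ξ k) q ∂μ := by
    intro k
    rw [int_chart hμ (c k) (f := fun q => ξ k q * h (θ q)) (fun q hq => by
      show ξ k q * h (θ q) = 0
      rw [hz k q hq, zero_mul])]
    rw [int_chart hμ (c k) (f := NM X u (ξ k)) (fun q hq => ?_)]
    · simp only [← H.mc, NM_eq H (hsm k)]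
      exact weakU _ (H.smooth _) (H.ne _) (hsm k (c k)) (hcs k)
    · -- `ξ k` vanishes near `q`
      obtain ⟨i, x, rfl⟩ := X.cover q
      rw [NM_eq H (hsm k)]
      have hK : IsCompact (X.param (c k) '' tsupport fun x => ξ k (X.param (c k) x)) :=
        (hcs k).isCompact.image (X.isOpenEmbedding (c k)).continuous
      have hKo : IsOpen (X.param (c k) '' tsupport fun x => ξ k (X.param (c k) x))ᶜ :=
        hK.isClosed.isOpen_compl
      have hev : (fun z => ξ k (X.param i z)) =ᶠ[𝓝 x] fun _ => (0:ℝ) := by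
        have hmem : X.param i x ∈ (X.param (c k) '' tsupport fun x => ξ k (X.param (c k) x))ᶜ := by
          rintro ⟨y, -, hy⟩
          exact hq ⟨y, hy⟩
        filter_upwards [(hKo.preimage (X.isOpenEmbedding i).continuous).mem_nhds hmem] with z hz'
        by_contra hne
        by_cases hr : X.param i z ∈ range (X.param (c k))
        · obtain ⟨y, hy⟩ := hr
          apply hz'
          refine ⟨y, subset_tsupport _ ?_, hy⟩
          show ξ k (X.param (c k) y) ≠ 0
          rw [hy]; exact hne
        · exact hne (hz k _ hr)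
      unfold NdU
      refine Finset.sum_eq_zero fun j _ => ?_
      have : pd j (fun z => ξ k (X.param i z)) x = 0 := by
        unfold pd
        rw [hev.fderiv_eq]
        simp
      rw [this, zero_mul]
  have h3 : ∀ q, ∑ k, NM X u (ξ k) q = 0 := by
    intro q
    obtain ⟨i, x, rfl⟩ := X.cover q
    simp only [fun k => NM_eq H (hsm k) i x]
    have h4 : ∀ j, ∑ k, pd j (fun z => ξ k (X.param i z)) x = 0 := by
      intro j
      have h5 : pd j (fun z => ∑ k, ξ k (X.param i z)) x =
          ∑ k, pd j (fun z => ξ k (X.param i z)) x := by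
        unfold pd
        rw [fderiv_fun_sum fun k _ => ((hsm k i).differentiable (by simp)) x]
        simp
      rw [← h5]
      simp only [hsum]
      unfold pd
      simp
    unfold NdU
    rw [Finset.sum_comm]
    refine Finset.sum_eq_zero fun j _ => ?_
    rw [← Finset.sum_mul, h4, zero_mul]
  have h6 : ∫ q, h (θ q) ∂μ = ∑ k, ∫ q, ξ k q * h (θ q) ∂μ := by
    have hI : ∀ k ∈ (Finset.univ : Finset (Fin m)), Integrable (fun q => ξ k q * h (θ q)) μ :=
      fun k _ => hint _ ((hξc k).mul (hθ_cont H))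
    rw [← integral_finsetSum _ hI]
    exact integral_congr_ae (Eventually.of_forall h1)
  rw [h6]
  simp only [h2]
  rw [Finset.sum_neg_distrib, ← integral_finsetSum _ fun k _ => hint _ (NM_cont H (hsm k))]
  simp only [h3]
  simp

end measure

end Pool.Agent.H93.CMC
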