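import Pool.Agent.H93.CMC.Defs

/-!
# Torus bundles over the circle

`M_A = ℝ^(n+1) / ⟨(t, x') ↦ (t, x' + k) (k ∈ ℤ^n), (t, x') ↦ (t + 1, A x')⟩`, `A ∈ GL(n, ℤ)`, is the
closed manifold which fibres over the circle with fibre `T^n` and monodromy `A`. Functions, metrics
and subsets of `M_A` are written as invariant functions, metrics and subsets of its universal cover
`ℝ^(n+1)`. For `A = 1` it is the torus `T^(n+1)`.
-/

open MeasureTheory Set

noncomputable section

namespace Pool.Agent.H93.CMC

variable {n : ℕ}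

/-- The deck transformation `(t, x') ↦ (t, x' + k)` for `k ∈ ℤ^n`. -/
def trans (k : Fin n → ℤ) (x : E n) : E n :=
  Fin.cons (x 0) (fun i : Fin n => x i.succ + (k i : ℝ))

/-- The deck transformation `(t, x') ↦ (t + 1, A x')`. -/
def glue (A : Matrix (Fin n) (Fin n) ℤ) (x : E n) : E n :=
  Fin.cons (x 0 + 1) ((A.map (Int.cast : ℤ → ℝ)).mulVec fun i : Fin n => x i.succ)

/-- The Jacobian matrix of `glue A`: the block matrix with blocks `1` and `A`. -/
def glueJac (A : Matrix (Fin n) (Fin n) ℤ) : Matrix (Fin (n + 1)) (Fin (n + 1)) ℝ :=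
  Matrix.of (Fin.cons (Fin.cons 1 fun _ => 0) fun i => Fin.cons 0 fun j => (A i j : ℝ))

/-- A smooth Riemannian metric on the torus bundle `M_A`: a Riemannian metric on `ℝ^(n+1)` for which
the deck transformations are isometries. -/
structure BundleMetric (n : ℕ) (A : Matrix (Fin n) (Fin n) ℤ) extends Metric n where
  invariant_trans : ∀ (k : Fin n → ℤ) (x : E n), g (trans k x) = g x
  invariant_glue : ∀ x : E n, (glueJac A).transpose * g (glue A x) * glueJac A = g x

/-- A subset of `M_A`, as an invariant subset of `ℝ^(n+1)`. -/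
def InvariantSet (A : Matrix (Fin n) (Fin n) ℤ) (Ω : Set (E n)) : Prop :=
  (∀ (k : Fin n → ℤ) (x : E n), trans k x ∈ Ω ↔ x ∈ Ω) ∧ ∀ x : E n, glue A x ∈ Ω ↔ x ∈ Ω

/-- The Riemannian volume of (the subset of `M_A` given by) the invariant set `Ω`: the integral of
the volume density over the part of `Ω` in the fundamental domain `[0,1]^(n+1)`. -/
def volB (G : Metric n) (Ω : Set (E n)) : ℝ := ∫ x in Ω ∩ Icc 0 1, dens G x

/-- `S` is a closed CMC hypersurface of `(M_A, g)` enclosing volume `v`: `S = ∂Ω` for an open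
subset `Ω` of `M_A` of volume `v` with smooth embedded boundary of constant mean curvature. -/
def ClosedCMCB {A : Matrix (Fin n) (Fin n) ℤ} (G : BundleMetric n A) (v : ℝ) (S : Set (E n)) :
    Prop :=
  ∃ Ω : Set (E n), IsOpen Ω ∧ InvariantSet A Ω ∧ volB G.toMetric Ω = v ∧ S = frontier Ω ∧
    CMCBoundary G.toMetric Ω

/-- All fibres `{t} × T^n` have constant mean curvature (which may depend on `t`): the mean
curvature of the level sets of the first coordinate depends only on the first coordinate. -/
def CMCFibres (G : Metric n) : Prop :=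
  ∀ x y : E n, x 0 = y 0 → meanCurv G (fun z => z 0) x = meanCurv G (fun z => z 0) y

/-- The metric is invariant under all translations of the fibre `T^n`: its coefficients depend only
on `t`. -/
def FibreInvariant (G : Metric n) : Prop := ∀ x y : E n, x 0 = y 0 → G.g x = G.g y

/-- `g = dt^2 + f(t)^2 k` is a warped product over the circle, `k` an arbitrary metric on `T^n`. -/
def WarpedOverCircle (G : Metric n) : Prop :=
  ∃ (f : ℝ → ℝ) (k : (Fin n → ℝ) → Matrix (Fin n) (Fin n) ℝ), (∀ t, 0 < f t) ∧ ∀ x : E n,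
    G.g x 0 0 = 1 ∧ (∀ i : Fin n, G.g x i.succ 0 = 0 ∧ G.g x 0 i.succ = 0) ∧
    ∀ i j : Fin n, G.g x i.succ j.succ = f (x 0) ^ 2 * k (fun i => x i.succ) i j

end Pool.Agent.H93.CMC
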