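import Pool.Agent.H93.CMC.Div

open MeasureTheory Set Filter Topology

noncomputable section

namespace Pool.Agent.H93.CMC

/-- one-dimensional periodic slab -/
def Om (a b : ℝ) : Set ℝ := {t | ∃ k : ℤ, a + k < t ∧ t < b + k}

lemma Om_open (a b : ℝ) : IsOpen (Om a b) := by
  have : Om a b = ⋃ k : ℤ, Ioo (a + k) (b + k) := by
    ext t; simp [Om]
  rw [this]
  exact isOpen_iUnion fun k => isOpen_Ioo

lemma Om_window {a b : ℝ} (h2 : b < a + 1) (k : ℤ) {t : ℝ}
    (ht1 : a + k < t) (ht2 : t < a + k + 1) : t ∈ Om a b ↔ t < b + k := by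
  constructor
  · rintro ⟨l, hl1, hl2⟩
    have h3 : (l : ℝ) < k + 1 := by linarith
    have h4 : (k : ℝ) - 1 < l := by linarith
    have h5 : l < k + 1 := by exact_mod_cast h3
    have h6 : k - 1 < l := by exact_mod_cast h4
    have h7 : l = k := by omega
    rw [← h7]; exact hl2
  · intro h
    exact ⟨k, ht1, h⟩

lemma Om_window' {a b : ℝ} (h2 : b < a + 1) (k : ℤ) {t : ℝ}
    (ht1 : b + k - 1 < t) (ht2 : t < b + k) : t ∈ Om a b ↔ a + k < t := by
  constructor
  · rintro ⟨l, hl1, hl2⟩
    have h3 : (l : ℝ) < k + 1 := by linarith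
    have h4 : (k : ℝ) - 1 < l := by linarith
    have h5 : l < k + 1 := by exact_mod_cast h3
    have h6 : k - 1 < l := by exact_mod_cast h4
    have h7 : l = k := by omega
    rw [← h7]; exact hl1
  · intro h
    exact ⟨k, h, ht2⟩

lemma Om_frontier {a b : ℝ} (h1 : a < b) (h2 : b < a + 1) :
    frontier (Om a b) = {t | ∃ k : ℤ, t = a + k ∨ t = b + k} := by
  rw [(Om_open a b).frontier_eq]
  ext t
  simp only [Set.mem_sdiff]
  constructor
  · rintro ⟨hc, hn⟩
    by_contra hcon
    simp only [mem_ofPred_eq, not_exists, not_or] at hcon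
    set k := ⌊t - a⌋ with hk
    have hk1 : a + k ≤ t := by have := Int.floor_le (t - a); linarith
    have hk2 : t < a + k + 1 := by have := Int.lt_floor_add_one (t - a); linarith
    have hk1' : a + k < t := lt_of_le_of_ne hk1 (Ne.symm (hcon k).1)
    have hb : b + k < t := by
      refine lt_of_le_of_ne ?_ (Ne.symm (hcon k).2)
      by_contra hlt
      exact hn ⟨k, hk1', not_le.1 hlt⟩
    have hU : IsOpen (Ioo (b + k) (a + k + 1)) := isOpen_Ioo
    obtain ⟨s, hs, hs'⟩ := mem_closure_iff.1 hc _ hU ⟨hb, hk2⟩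
    have := (Om_window h2 k (by linarith [hs.1]) hs.2).1 hs'
    linarith [hs.1]
  · rintro ⟨k, rfl | rfl⟩
    · refine ⟨?_, ?_⟩
      · have h3 : a + (k:ℝ) ∈ closure (Ioo (a + k) (b + k)) := by
          rw [closure_Ioo (by linarith)]
          exact ⟨le_rfl, by linarith⟩
        exact closure_mono (show Ioo (a + k) (b + k) ⊆ Om a b from fun t ht => ⟨k, ht.1, ht.2⟩) h3
      · rintro ⟨l, hl1, hl2⟩
        have h3 : (l : ℝ) < k := by linarith
        have h4 : (k : ℝ) - 1 < l := by linarith
        have h5 : l < k := by exact_mod_cast h3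
        have h6 : k - 1 < l := by exact_mod_cast h4
        omega
    · refine ⟨?_, ?_⟩
      · have h3 : b + (k:ℝ) ∈ closure (Ioo (a + k) (b + k)) := by
          rw [closure_Ioo (by linarith)]
          exact ⟨by linarith, le_rfl⟩
        exact closure_mono (show Ioo (a + k) (b + k) ⊆ Om a b from fun t ht => ⟨k, ht.1, ht.2⟩) h3
      · rintro ⟨l, hl1, hl2⟩
        have h3 : (k : ℝ) < l := by linarith
        have h4 : (l : ℝ) < k + 1 := by linarith
        have h5 : k < l := by exact_mod_cast h3
        have h6 : l < k + 1 := by exact_mod_cast h4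
        omega

lemma Om_add_int (a b : ℝ) (k : ℤ) (t : ℝ) : t + k ∈ Om a b ↔ t ∈ Om a b := by
  constructor
  · rintro ⟨l, h1, h2⟩
    exact ⟨l - k, by push_cast; linarith, by push_cast; linarith⟩
  · rintro ⟨l, h1, h2⟩
    exact ⟨l + k, by push_cast; linarith, by push_cast; linarith⟩

/-- the integral over the slab -/
lemma Om_integral {w : ℝ → ℝ} (hw : Continuous w) (hper : ∀ t, w (t + 1) = w t) {a b : ℝ}
    (h1 : a < b) (h2 : b < a + 1) :
    ∫ t in Om a b ∩ Icc 0 1, w t = ∫ t in a..b, w t := by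
  have hm : MeasurableSet (Om a b) := (Om_open a b).measurableSet
  have hp : Function.Periodic ((Om a b).indicator w) 1 := by
    intro t
    have := Om_add_int a b 1 t
    simp only [Int.cast_one] at this
    by_cases ht : t ∈ Om a b
    · rw [indicator_of_mem ht, indicator_of_mem (this.2 ht), hper]
    · rw [indicator_of_notMem ht, indicator_of_notMem (fun h => ht (this.1 h))]
  have e1 : ∫ t in Om a b ∩ Icc 0 1, w t = ∫ t in (0:ℝ)..1, (Om a b).indicator w t := by
    rw [intervalIntegral.integral_of_le zero_le_one, ← integral_Icc_eq_integral_Ioc,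
      setIntegral_indicator hm, inter_comm]
  have e2 : (∫ t in (0:ℝ)..1, (Om a b).indicator w t) =
      ∫ t in a..a + 1, (Om a b).indicator w t := by
    have := hp.intervalIntegral_add_eq 0 a
    rw [zero_add] at this
    exact this
  have e3 : (∫ t in a..a + 1, (Om a b).indicator w t) = ∫ t in a..b, w t := by
    rw [intervalIntegral.integral_of_le (by linarith), setIntegral_indicator hm,
      intervalIntegral.integral_of_le h1.le]
    have : (Ioc a (a + 1) ∩ Om a b : Set ℝ) =ᵐ[volume] (Ioc a b : Set ℝ) := by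
      have hsub : (Ioc a (a + 1) ∩ Om a b) = Ioo a b ∪ ((Ioc a (a + 1) ∩ Om a b) ∩ {a + 1}) := by
        ext t
        simp only [mem_inter_iff, mem_union, mem_Ioc, mem_Ioo, mem_singleton_iff]
        constructor
        · rintro ⟨⟨h3, h4⟩, h5⟩
          rcases eq_or_lt_of_le h4 with h6 | h6
          · exact Or.inr ⟨⟨⟨h3, h4⟩, h5⟩, h6⟩
          · left
            refine ⟨h3, ?_⟩
            have := (Om_window h2 0 (by simpa using h3) (by simpa using h6)).1 h5
            simpa using this
        · rintro (⟨h3, h4⟩ | ⟨h3, -⟩)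
          · exact ⟨⟨h3, by linarith⟩, ⟨0, by simpa using h3, by simpa using h4⟩⟩
          · exact h3
      rw [hsub]
      have hz : ((Ioc a (a + 1) ∩ Om a b) ∩ {a + 1} : Set ℝ) =ᵐ[volume] (∅ : Set ℝ) := by
        refine ae_eq_empty.2 (measure_mono_null inter_subset_right ?_)
        simp
      have := (Ioo_ae_eq_Ioc (μ := volume) (a := a) (b := b)).union hz
      simpa using this
    exact setIntegral_congr_set this
  rw [e1, e2, e3]

variable {n : ℕ} (G : TorusMetric n)

/-- slab in the torus -/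
def Slab (n : ℕ) (a b : ℝ) : Set (E n) := {x | x 0 ∈ Om a b}

lemma Slab_open (a b : ℝ) : IsOpen (Slab n a b) :=
  (Om_open a b).preimage (continuous_apply 0)

lemma Slab_frontier {a b : ℝ} (h1 : a < b) (h2 : b < a + 1) :
    frontier (Slab n a b) = {x | ∃ k : ℤ, x 0 = a + k ∨ x 0 = b + k} := by
  have h := (isOpenMap_eval (X := fun _ : Fin (n + 1) => ℝ) 0).preimage_frontier_eq_frontier_preimage
    (continuous_apply 0) (Om a b)
  have h3 : Slab n a b = (Function.eval (0 : Fin (n + 1)) : E n → ℝ) ⁻¹' Om a b := rfl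
  rw [h3, ← h, Om_frontier h1 h2]
  rfl

lemma Slab_periodic (a b : ℝ) : PeriodicSet (Slab n a b) := by
  intro k x
  exact Om_add_int a b (k 0) (x 0)

lemma inter_cube (B : Set ℝ) : {x : E n | x 0 ∈ B} ∩ Icc 0 1 =
    {x : E n | x 0 ∈ B ∩ Icc 0 1 ∧ (fun i : Fin n => x i.succ) ∈ Icc (0 : Fin n → ℝ) 1} := by
  ext x
  simp only [mem_inter_iff, mem_Icc, Pi.le_def]
  constructor
  · rintro ⟨h0, h1, h2⟩
    exact ⟨⟨h0, h1 0, h2 0⟩, fun i => h1 i.succ, fun i => h2 i.succ⟩
  · rintro ⟨⟨h0, h1, h2⟩, h3, h4⟩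
    exact ⟨h0, fun i => Fin.cases h1 (fun j => h3 j) i, fun i => Fin.cases h2 (fun j => h4 j) i⟩

lemma Slab_vol {a b : ℝ} (h1 : a < b) (h2 : b < a + 1) :
    vol G (Slab n a b) = ∫ t in a..b, W G t := by
  unfold vol Slab
  rw [inter_cube, fubini _ (dens_contDiff G.toMetric).continuous _
    ((Om_open a b).measurableSet.inter measurableSet_Icc) 0 1 inter_subset_right]
  exact Om_integral (W_cont G) (W_per G) h1 h2

lemma univ_vol : vol G univ = ∫ t in (0:ℝ)..1, W G t := by
  unfold vol
  have h : (univ : Set (E n)) = {x : E n | x 0 ∈ (univ : Set ℝ)} := by ext x; simp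
  rw [h, inter_cube, fubini _ (dens_contDiff G.toMetric).continuous _
    (MeasurableSet.univ.inter measurableSet_Icc) 0 1 inter_subset_right, univ_inter,
    intervalIntegral.integral_of_le zero_le_one, ← integral_Icc_eq_integral_Ioc]
  rfl

lemma hs_int (k : ℤ) (t : ℝ) : hs G (t + k) = hs G t := by
  have : Function.Periodic (hs G) 1 := hs_per G
  have := this.int_mul k t
  simpa using this

lemma Slab_CMC (hG : CMCSlices G) {a b : ℝ} (h1 : a < b) (h2 : b < a + 1)
    (hh : hs G b = - hs G a) : CMCBoundary G.toMetric (Slab n a b) := by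
  refine ⟨hs G b, fun p hp => ?_⟩
  have hfr := Slab_frontier (n := n) h1 h2
  rw [hfr] at hp
  obtain ⟨k, hk | hk⟩ := hp
  · refine ⟨{x | b + k - 1 < x 0 ∧ x 0 < b + k}, fun z => (a + k) - z 0, ?_, ?_, ?_, ?_, ?_, ?_, ?_⟩
    · exact (isOpen_lt continuous_const (continuous_apply 0)).inter
        (isOpen_lt (continuous_apply 0) continuous_const)
    · exact ⟨by rw [hk]; linarith, by rw [hk]; linarith⟩
    · exact contDiff_const.sub (contDiff_apply ℝ ℝ (0 : Fin (n + 1)))
    · intro x _
      exact fderiv_neg_ne _ x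
    · rintro x ⟨hx1, hx2⟩
      have := Om_window' h2 k hx1 hx2
      show x 0 ∈ Om a b ↔ _
      rw [this]
      constructor <;> intro h <;> linarith
    · rintro x ⟨hx1, hx2⟩
      rw [hfr]
      constructor
      · rintro ⟨l, hl | hl⟩
        · have h3 : (l : ℝ) < k + 1 := by linarith
          have h4 : (k : ℝ) - 1 < l := by linarith
          have h5 : l < k + 1 := by exact_mod_cast h3
          have h6 : k - 1 < l := by exact_mod_cast h4
          have h7 : l = k := by omega
          rw [h7] at hl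
          linarith
        · have h3 : (l : ℝ) < k := by linarith
          have h4 : (k : ℝ) - 1 < l := by linarith
          have h5 : l < k := by exact_mod_cast h3
          have h6 : k - 1 < l := by exact_mod_cast h4
          omega
      · intro h
        exact ⟨k, Or.inl (by linarith)⟩
    · rintro x _ hx
      have hx0 : x 0 = a + k := by linarith
      rw [meanCurv_neg, slice_eq G hG, hx0, hs_int, hh]
  · refine ⟨{x | a + k < x 0 ∧ x 0 < a + k + 1}, fun z => z 0 - (b + k), ?_, ?_, ?_, ?_, ?_, ?_, ?_⟩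
    · exact (isOpen_lt continuous_const (continuous_apply 0)).inter
        (isOpen_lt (continuous_apply 0) continuous_const)
    · exact ⟨by rw [hk]; linarith, by rw [hk]; linarith⟩
    · exact (contDiff_apply ℝ ℝ (0 : Fin (n + 1))).sub contDiff_const
    · intro x _
      exact fderiv_sub_ne _ x
    · rintro x ⟨hx1, hx2⟩
      have := Om_window h2 k hx1 hx2
      show x 0 ∈ Om a b ↔ _
      rw [this]
      constructor <;> intro h <;> linarith
    · rintro x ⟨hx1, hx2⟩
      rw [hfr]
      constructor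
      · rintro ⟨l, hl | hl⟩
        · have h3 : (l : ℝ) < k + 1 := by linarith
          have h4 : (k : ℝ) < l := by linarith
          have h5 : l < k + 1 := by exact_mod_cast h3
          have h6 : k < l := by exact_mod_cast h4
          omega
        · have h3 : (l : ℝ) < k + 1 := by linarith
          have h4 : (k : ℝ) - 1 < l := by linarith
          have h5 : l < k + 1 := by exact_mod_cast h3
          have h6 : k - 1 < l := by exact_mod_cast h4
          have h7 : l = k := by omega
          rw [h7] at hl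
          linarith
      · intro h
        exact ⟨k, Or.inr (by linarith)⟩
    · rintro x _ hx
      have hx0 : x 0 = b + k := by linarith
      rw [meanCurv_sub, slice_eq G hG, hx0, hs_int]

theorem two_CMC (hG : CMCSlices G) (v : ℝ) (hv0 : 0 < v) (hv1 : v < vol G univ) :
    ∃ S₁ S₂ : Set (E n), S₁ ≠ S₂ ∧ ClosedCMC G v S₁ ∧ ClosedCMC G v S₂ := by
  rw [univ_vol] at hv1
  obtain ⟨b, hb, a₁, a₂, hc1, hc2, hne⟩ := core (W G) (hs G) (A G) (W_cont G) (W_pos G) (W_per G)
    (hs_cont G) (A_per G) (A_sub G hG) v hv0 hv1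
  refine ⟨frontier (Slab n a₁ (b a₁)), frontier (Slab n a₂ (b a₂)), ?_, ?_, ?_⟩
  · rw [Slab_frontier (hb a₁).1 (hb a₁).2.1, Slab_frontier (hb a₂).1 (hb a₂).2.1]
    intro hS
    apply hne
    ext t
    have := Set.ext_iff.1 hS (cns t 0)
    exact this
  · exact ⟨_, Slab_open _ _, Slab_periodic _ _,
      (Slab_vol G (hb a₁).1 (hb a₁).2.1).trans (hb a₁).2.2, rfl,
      Slab_CMC G hG (hb a₁).1 (hb a₁).2.1 hc1⟩
  · exact ⟨_, Slab_open _ _, Slab_periodic _ _,
      (Slab_vol G (hb a₂).1 (hb a₂).2.1).trans (hb a₂).2.2, rfl,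
      Slab_CMC G hG (hb a₂).1 (hb a₂).2.1 hc2⟩

end Pool.Agent.H93.CMC
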