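import Pool.Agent.H93.CMC.BDiv
import Pool.Agent.H93.CMC.Slab
import Pool.Agent.H81.CMC.Cube

open MeasureTheory Set Filter Topology

noncomputable section

namespace Pool.Agent.H93.CMC

variable {n : ℕ}

section

variable {A : Matrix (Fin n) (Fin n) ℤ} (G : BundleMetric n A)

lemma glue_cns (t : ℝ) (x : Fin n → ℝ) :
    glue A (cns t x) = cns (t + 1) ((A.map (Int.cast : ℤ → ℝ)).mulVec x) := by
  unfold glue cns
  rfl

lemma trans_cns (k : Fin n → ℤ) (t : ℝ) (x : Fin n → ℝ) :
    trans k (cns t x) = cns t (fun i => x i + k i) := by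
  unfold trans cns
  rfl

lemma int_glue (hA : A.det = 1 ∨ A.det = -1) {f : E n → ℝ} (hf : Continuous f)
    (hper : ∀ (k : Fin n → ℤ) (x : E n), f (trans k x) = f x) (hgl : ∀ x : E n, f (glue A x) = f x)
    (t : ℝ) : ∫ x' in Icc (0 : Fin n → ℝ) 1, f (cns (t + 1) x') =
      ∫ x' in Icc (0 : Fin n → ℝ) 1, f (cns t x') := by
  have h := cube_inv A hA (fun x' => f (cns (t + 1) x')) (hf.comp (cnsB_cont (t + 1)))
    (fun k x => by
      have := hper k (cns (t + 1) x)
      rw [trans_cns] at this
      exact this)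
  simp only [← glue_cns, hgl] at h
  exact h.symm

lemma WB_per (hA : A.det = 1 ∨ A.det = -1) (t : ℝ) : WB G.toMetric (t + 1) = WB G.toMetric t :=
  int_glue hA (dens_contDiff G.toMetric).continuous (dens_trans G) (dens_glue G hA) t

lemma AB_per (hA : A.det = 1 ∨ A.det = -1) (t : ℝ) : AB G.toMetric (t + 1) = AB G.toMetric t :=
  int_glue hA (F_contDiff G.toMetric 0).continuous (fun k x => F_trans G 0 k x) (F0_glue G hA) t

lemma AB_deriv (hG : CMCFibres G.toMetric) (t : ℝ) :
    HasDerivAt (AB G.toMetric) (hB G.toMetric t * WB G.toMetric t) t := by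
  have hc : Continuous fun τ => hB G.toMetric τ * WB G.toMetric τ := (hB_cont _).mul (WB_cont _)
  have h1 : ∀ s, AB G.toMetric s = AB G.toMetric 0 +
      ∫ τ in (0:ℝ)..s, hB G.toMetric τ * WB G.toMetric τ := by
    intro s
    rcases le_total 0 s with hs | hs
    · have := AB_sub (G := G.toMetric) (F_trans G) hG 0 s hs; linarith
    · have := AB_sub (G := G.toMetric) (F_trans G) hG s 0 hs
      rw [intervalIntegral.integral_symm]; linarith
  have h2 : HasDerivAt (fun s => AB G.toMetric 0 + ∫ τ in (0:ℝ)..s, hB G.toMetric τ * WB G.toMetric τ)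
      (hB G.toMetric t * WB G.toMetric t) t :=
    (intervalIntegral.integral_hasDerivAt_right (hc.intervalIntegrable 0 t)
      (hc.stronglyMeasurableAtFilter _ _) hc.continuousAt).const_add _
  have h3 : AB G.toMetric = fun s => AB G.toMetric 0 +
      ∫ τ in (0:ℝ)..s, hB G.toMetric τ * WB G.toMetric τ := funext h1
  rw [h3]; exact h2

lemma hB_per (hA : A.det = 1 ∨ A.det = -1) (hG : CMCFibres G.toMetric) (t : ℝ) :
    hB G.toMetric (t + 1) = hB G.toMetric t := by
  have h1 := (AB_deriv G hG (t + 1)).comp_add_const t 1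
  have h2 := AB_deriv G hG t
  have h3 : (fun x => AB G.toMetric (x + 1)) = AB G.toMetric := funext (AB_per G hA)
  rw [h3] at h1
  have h4 := h1.unique h2
  rw [WB_per G hA] at h4
  exact mul_right_cancel₀ (WB_pos G.toMetric t).ne' h4

lemma hB_int (hA : A.det = 1 ∨ A.det = -1) (hG : CMCFibres G.toMetric) (k : ℤ) (t : ℝ) :
    hB G.toMetric (t + k) = hB G.toMetric t := by
  have : Function.Periodic (hB G.toMetric) 1 := hB_per G hA hG
  have := this.int_mul k t
  simpa using this

lemma Slab_invariant (a b : ℝ) : InvariantSet A (Slab n a b) := by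
  constructor
  · intro k x
    exact Iff.rfl
  · intro x
    have := Om_add_int a b 1 (x 0)
    rw [Int.cast_one] at this
    exact this

lemma SlabB_vol (hA : A.det = 1 ∨ A.det = -1) {a b : ℝ} (h1 : a < b) (h2 : b < a + 1) :
    volB G.toMetric (Slab n a b) = ∫ t in a..b, WB G.toMetric t := by
  unfold volB Slab
  rw [inter_cube, fubini _ (dens_contDiff G.toMetric).continuous _
    ((Om_open a b).measurableSet.inter measurableSet_Icc) 0 1 inter_subset_right]
  exact Om_integral (WB_cont G.toMetric) (WB_per G hA) h1 h2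

lemma univB_vol (G : Metric n) : volB G univ = ∫ t in (0:ℝ)..1, WB G t := by
  unfold volB
  have h : (univ : Set (E n)) = {x : E n | x 0 ∈ (univ : Set ℝ)} := by ext x; simp
  rw [h, inter_cube, fubini _ (dens_contDiff G).continuous _
    (MeasurableSet.univ.inter measurableSet_Icc) 0 1 inter_subset_right, univ_inter,
    intervalIntegral.integral_of_le zero_le_one, ← integral_Icc_eq_integral_Ioc]
  rfl

lemma SlabB_CMC (hA : A.det = 1 ∨ A.det = -1) (hG : CMCFibres G.toMetric) {a b : ℝ} (h1 : a < b)
    (h2 : b < a + 1) (hh : hB G.toMetric b = - hB G.toMetric a) :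
    CMCBoundary G.toMetric (Slab n a b) := by
  refine ⟨hB G.toMetric b, fun p hp => ?_⟩
  have hfr := Slab_frontier (n := n) h1 h2
  rw [hfr] at hp
  obtain ⟨k, hk | hk⟩ := hp
  · refine ⟨{x | b + k - 1 < x 0 ∧ x 0 < b + k}, fun z => (a + k) - z 0, ?_, ?_, ?_, ?_, ?_, ?_, ?_⟩
    · exact (isOpen_lt continuous_const (continuous_apply 0)).inter
        (isOpen_lt (continuous_apply 0) continuous_const)
    · exact ⟨by rw [hk]; linarith, by rw [hk]; linarith⟩
    · exact contDiff_const.sub (contDiff_apply ℝ ℝ (0 : Fin (n + 1)))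
    · intro x _
      exact fderiv_neg_ne _ x
    · rintro x ⟨hx1, hx2⟩
      have := Om_window' h2 k hx1 hx2
      show x 0 ∈ Om a b ↔ _
      rw [this]
      constructor <;> intro h <;> linarith
    · rintro x ⟨hx1, hx2⟩
      rw [hfr]
      constructor
      · rintro ⟨l, hl | hl⟩
        · have h3 : (l : ℝ) < k + 1 := by linarith
          have h4 : (k : ℝ) - 1 < l := by linarith
          have h5 : l < k + 1 := by exact_mod_cast h3
          have h6 : k - 1 < l := by exact_mod_cast h4
          have h7 : l = k := by omega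
          rw [h7] at hl
          linarith
        · have h3 : (l : ℝ) < k := by linarith
          have h4 : (k : ℝ) - 1 < l := by linarith
          have h5 : l < k := by exact_mod_cast h3
          have h6 : k - 1 < l := by exact_mod_cast h4
          omega
      · intro h
        exact ⟨k, Or.inl (by linarith)⟩
    · rintro x _ hx
      have hx0 : x 0 = a + k := by linarith
      rw [meanCurv_neg, sliceB_eq hG, hx0, hB_int G hA hG, hh]
  · refine ⟨{x | a + k < x 0 ∧ x 0 < a + k + 1}, fun z => z 0 - (b + k), ?_, ?_, ?_, ?_, ?_, ?_, ?_⟩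
    · exact (isOpen_lt continuous_const (continuous_apply 0)).inter
        (isOpen_lt (continuous_apply 0) continuous_const)
    · exact ⟨by rw [hk]; linarith, by rw [hk]; linarith⟩
    · exact (contDiff_apply ℝ ℝ (0 : Fin (n + 1))).sub contDiff_const
    · intro x _
      exact fderiv_sub_ne _ x
    · rintro x ⟨hx1, hx2⟩
      have := Om_window h2 k hx1 hx2
      show x 0 ∈ Om a b ↔ _
      rw [this]
      constructor <;> intro h <;> linarith
    · rintro x ⟨hx1, hx2⟩
      rw [hfr]
      constructor
      · rintro ⟨l, hl | hl⟩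
        · have h3 : (l : ℝ) < k + 1 := by linarith
          have h4 : (k : ℝ) < l := by linarith
          have h5 : l < k + 1 := by exact_mod_cast h3
          have h6 : k < l := by exact_mod_cast h4
          omega
        · have h3 : (l : ℝ) < k + 1 := by linarith
          have h4 : (k : ℝ) - 1 < l := by linarith
          have h5 : l < k + 1 := by exact_mod_cast h3
          have h6 : k - 1 < l := by exact_mod_cast h4
          have h7 : l = k := by omega
          rw [h7] at hl
          linarith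
      · intro h
        exact ⟨k, Or.inr (by linarith)⟩
    · rintro x _ hx
      have hx0 : x 0 = b + k := by linarith
      rw [meanCurv_sub, sliceB_eq hG, hx0, hB_int G hA hG]

theorem two_CMCB (hA : A.det = 1 ∨ A.det = -1) (hG : CMCFibres G.toMetric) (v : ℝ) (hv0 : 0 < v)
    (hv1 : v < volB G.toMetric univ) :
    ∃ S₁ S₂ : Set (E n), S₁ ≠ S₂ ∧ ClosedCMCB G v S₁ ∧ ClosedCMCB G v S₂ := by
  rw [univB_vol] at hv1
  obtain ⟨b, hb, a₁, a₂, hc1, hc2, hne⟩ := core (WB G.toMetric) (hB G.toMetric) (AB G.toMetric)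
    (WB_cont G.toMetric) (WB_pos G.toMetric) (WB_per G hA) (hB_cont G.toMetric) (AB_per G hA)
    (AB_sub (G := G.toMetric) (F_trans G) hG) v hv0 hv1
  refine ⟨frontier (Slab n a₁ (b a₁)), frontier (Slab n a₂ (b a₂)), ?_, ?_, ?_⟩
  · rw [Slab_frontier (hb a₁).1 (hb a₁).2.1, Slab_frontier (hb a₂).1 (hb a₂).2.1]
    intro hS
    apply hne
    ext t
    have := Set.ext_iff.1 hS (cns t 0)
    exact this
  · exact ⟨_, Slab_open _ _, Slab_invariant _ _,
      (SlabB_vol G hA (hb a₁).1 (hb a₁).2.1).trans (hb a₁).2.2, rfl,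
      SlabB_CMC G hA hG (hb a₁).1 (hb a₁).2.1 hc1⟩
  · exact ⟨_, Slab_open _ _, Slab_invariant _ _,
      (SlabB_vol G hA (hb a₂).1 (hb a₂).2.1).trans (hb a₂).2.2, rfl,
      SlabB_CMC G hA hG (hb a₂).1 (hb a₂).2.1 hc2⟩

end

end Pool.Agent.H93.CMC
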