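import Pool.Agent.H93.CMC.BDefs
import Pool.Agent.H93.CMC.Geo

open MeasureTheory Set Filter Topology

noncomputable section

namespace Pool.Agent.H93.CMC

variable {n : ℕ}

/-! ### algebra of the gluing map -/

lemma glueJac_zero (A : Matrix (Fin n) (Fin n) ℤ) (j : Fin (n + 1)) :
    glueJac A 0 j = if j = 0 then 1 else 0 := by
  refine Fin.cases ?_ (fun j => ?_) j
  · simp [glueJac]
  · simp [glueJac]

lemma glueJac_det (A : Matrix (Fin n) (Fin n) ℤ) : (glueJac A).det = (A.det : ℝ) := by
  rw [Matrix.det_succ_row_zero, Finset.sum_eq_single 0]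
  · have h1 : (glueJac A).submatrix Fin.succ (Fin.succAbove 0) = A.map (Int.cast : ℤ → ℝ) := by
      ext i j
      simp [glueJac]
    have h2 : (A.map (Int.cast : ℤ → ℝ)).det = (A.det : ℝ) := by
      have := RingHom.map_det (Int.castRingHom ℝ) A
      simpa using this.symm
    rw [h1, h2, glueJac_zero]
    simp
  · intro j _ hj
    rw [glueJac_zero]
    simp [hj]
  · simp

section

variable {A : Matrix (Fin n) (Fin n) ℤ} (G : BundleMetric n A)

lemma glue_det_sq (hA : A.det = 1 ∨ A.det = -1) : (glueJac A).det * (glueJac A).det = 1 := by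
  rw [glueJac_det]
  rcases hA with h | h <;> rw [h] <;> norm_num

lemma dens_glue (hA : A.det = 1 ∨ A.det = -1) (x : E n) :
    dens G.toMetric (glue A x) = dens G.toMetric x := by
  unfold dens
  congr 1
  have h := congrArg Matrix.det (G.invariant_glue x)
  rw [Matrix.det_mul, Matrix.det_mul, Matrix.det_transpose] at h
  have h2 := glue_det_sq (A := A) hA
  rw [← h]
  linear_combination (-(G.g (glue A x)).det) * h2

lemma inv00_glue (hA : A.det = 1 ∨ A.det = -1) (x : E n) :
    (G.g (glue A x))⁻¹ 0 0 = (G.g x)⁻¹ 0 0 := by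
  set J := glueJac A with hJ
  have hu : IsUnit J.det := by
    have := glue_det_sq (A := A) hA
    exact IsUnit.of_mul_eq_one _ this
  have hgu : IsUnit (G.g x).det := (det_pos G.toMetric x).ne'.isUnit
  have h1 : (G.g (glue A x))⁻¹ = J * (G.g x)⁻¹ * J.transpose := by
    apply Matrix.inv_eq_left_inv
    have h2 : J.transpose * G.g (glue A x) = G.g x * J⁻¹ := by
      rw [← G.invariant_glue x, Matrix.mul_assoc, Matrix.mul_nonsing_inv _ hu, Matrix.mul_one]
    rw [Matrix.mul_assoc, h2, Matrix.mul_assoc, ← Matrix.mul_assoc (G.g x)⁻¹,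
      Matrix.nonsing_inv_mul _ hgu, Matrix.one_mul, Matrix.mul_nonsing_inv _ hu]
  rw [h1, Matrix.mul_apply]
  simp only [Matrix.mul_apply, Matrix.transpose_apply, hJ, glueJac_zero]
  simp

lemma F0_glue (hA : A.det = 1 ∨ A.det = -1) (x : E n) :
    F G.toMetric 0 (glue A x) = F G.toMetric 0 x := by
  unfold F
  rw [dens_glue G hA, inv00_glue G hA]

lemma F_trans (i : Fin (n + 1)) (k : Fin n → ℤ) (x : E n) :
    F G.toMetric i (trans k x) = F G.toMetric i x := by
  unfold F dens
  rw [G.invariant_trans]

lemma dens_trans (k : Fin n → ℤ) (x : E n) : dens G.toMetric (trans k x) = dens G.toMetric x := by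
  unfold dens
  rw [G.invariant_trans]

end

/-! ### slices -/

/-- volume density of the slice at height `t` -/
def WB (G : Metric n) (t : ℝ) : ℝ := ∫ x' in Icc (0 : Fin n → ℝ) 1, dens G (cns t x')

/-- area of the slice at height `t` -/
def AB (G : Metric n) (t : ℝ) : ℝ := ∫ x' in Icc (0 : Fin n → ℝ) 1, F G 0 (cns t x')

/-- mean curvature of the slice at height `t` -/
def hB (G : Metric n) (t : ℝ) : ℝ := slice G (cns t 0)

lemma cnsB_cont (t : ℝ) : Continuous (fun x : Fin n → ℝ => cns t x) :=
  cns_continuous.comp (continuous_const.prodMk continuous_id)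

lemma cnsB_cont' (x : Fin n → ℝ) : Continuous (fun t : ℝ => cns t x) :=
  cns_continuous.comp (continuous_id.prodMk continuous_const)

lemma parB_cont {f : E n → ℝ} (hf : Continuous f) :
    Continuous (fun t : ℝ => ∫ x' in Icc (0 : Fin n → ℝ) 1, f (cns t x')) := by
  have h : Continuous (Function.uncurry fun (t : ℝ) (x' : Fin n → ℝ) => f (cns t x')) :=
    hf.comp cns_continuous
  exact continuous_parametric_integral_of_continuous h isCompact_Icc

lemma WB_cont (G : Metric n) : Continuous (WB G) := parB_cont (dens_contDiff G).continuous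

lemma hB_cont (G : Metric n) : Continuous (hB G) := (slice_continuous G).comp (cnsB_cont' 0)

lemma WB_pos (G : Metric n) (t : ℝ) : 0 < WB G t := by
  unfold WB
  have hc : Continuous (fun x' : Fin n → ℝ => dens G (cns t x')) :=
    (dens_contDiff G).continuous.comp (cnsB_cont t)
  obtain ⟨m, -, hm⟩ := isCompact_Icc.exists_isMinOn
    (nonempty_Icc.2 (zero_le_one (α := Fin n → ℝ))) hc.continuousOn
  have hvol : (volume (Icc (0 : Fin n → ℝ) 1)).toReal = 1 := by
    rw [Real.volume_Icc_pi_toReal (fun i => by simp)]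
    simp
  have h1 : ∫ _ in Icc (0 : Fin n → ℝ) 1, dens G (cns t m) = dens G (cns t m) := by
    rw [setIntegral_const, measureReal_def, hvol, one_smul]
  have h2 : ∫ _ in Icc (0 : Fin n → ℝ) 1, dens G (cns t m) ≤
      ∫ x' in Icc (0 : Fin n → ℝ) 1, dens G (cns t x') := by
    refine setIntegral_mono_on ?_ ?_ measurableSet_Icc fun x hx => hm hx
    · exact continuousOn_const.integrableOn_compact isCompact_Icc
    · exact hc.continuousOn.integrableOn_compact isCompact_Icc
  have := dens_pos G (cns t m)
  linarith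

lemma sliceB_eq {G : Metric n} (hG : CMCFibres G) (x : E n) : slice G x = hB G (x 0) := by
  have := hG x (cns (x 0) 0) rfl
  rw [meanCurv_zero, meanCurv_zero] at this
  exact this

lemma divB_eq {G : Metric n} (hG : CMCFibres G) (x : E n) :
    ∑ i, pd i (F G i) x = hB G (x 0) * dens G x := by
  have h := sliceB_eq hG x
  unfold slice at h
  have := (dens_pos G x).ne'
  rw [← h]
  field_simp

lemma IccB_cns (s t : ℝ) : Icc (cns s (0 : Fin n → ℝ)) (cns t 1) =
    {x : E n | x 0 ∈ Icc s t ∧ (fun i : Fin n => x i.succ) ∈ Icc (0 : Fin n → ℝ) 1} := by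
  ext x
  simp only [mem_Icc, Pi.le_def]
  constructor
  · rintro ⟨h1, h2⟩
    exact ⟨⟨h1 0, h2 0⟩, fun i => h1 i.succ, fun i => h2 i.succ⟩
  · rintro ⟨⟨h1, h2⟩, h3, h4⟩
    exact ⟨fun i => Fin.cases h1 (fun j => h3 j) i, fun i => Fin.cases h2 (fun j => h4 j) i⟩

lemma AB_sub {G : Metric n} (hper : ∀ (i : Fin (n + 1)) (k : Fin n → ℤ) (x : E n),
    F G i (trans k x) = F G i x) (hG : CMCFibres G) (s t : ℝ) (hst : s ≤ t) :
    AB G t - AB G s = ∫ τ in s..t, hB G τ * WB G τ := by
  have hle : cns s (0 : Fin n → ℝ) ≤ cns t 1 := by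
    intro i
    refine Fin.cases hst (fun j => ?_) i
    exact zero_le_one
  have hF : ∀ i, Continuous (F G i) := fun i => (F_contDiff G i).continuous
  have hsum : Continuous fun x => ∑ i, fderiv ℝ (F G i) x (Pi.single i 1) :=
    continuous_finsetSum _ fun i _ => pd_continuous i (F_contDiff G i)
  have key := integral_divergence_of_hasFDerivAt_off_countable' (cns s (0 : Fin n → ℝ)) (cns t 1)
    hle (F G) (fun i => fderiv ℝ (F G i)) ∅ countable_empty
    (fun i => (hF i).continuousOn)
    (fun x _ i => ((F_contDiff G i).differentiable (by simp) x).hasFDerivAt)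
    (hsum.continuousOn.integrableOn_compact isCompact_Icc)
  rw [Fin.sum_univ_succ] at key
  have hz : ∀ i : Fin n, ((∫ x in Icc (cns s (0 : Fin n → ℝ) ∘ i.succ.succAbove)
      (cns t 1 ∘ i.succ.succAbove), F G i.succ (i.succ.insertNth (cns t 1 i.succ) x)) -
      ∫ x in Icc (cns s (0 : Fin n → ℝ) ∘ i.succ.succAbove) (cns t 1 ∘ i.succ.succAbove),
        F G i.succ (i.succ.insertNth (cns s 0 i.succ) x)) = 0 := by
    intro i
    have : ∀ x : Fin n → ℝ, F G i.succ (i.succ.insertNth (cns t 1 i.succ) x) =
        F G i.succ (i.succ.insertNth (cns s 0 i.succ) x) := by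
      intro x
      have h1 : (i.succ.insertNth (cns t 1 i.succ) x : E n) =
          trans (Pi.single i 1 : Fin n → ℤ) (i.succ.insertNth (cns s 0 i.succ) x) := by
        funext j
        rcases Fin.eq_self_or_eq_succAbove i.succ j with hj | ⟨k, hj⟩
        · subst hj
          simp [trans, cns]
        · subst hj
          rw [Fin.insertNth_apply_succAbove]
          rcases Fin.eq_zero_or_eq_succ (i.succ.succAbove k) with h0 | ⟨m, hm⟩
          · have h2 := Fin.insertNth_apply_succAbove (α := fun _ => ℝ) i.succ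
              (cns s (0 : Fin n → ℝ) i.succ) x k
            rw [h0] at h2 ⊢
            show x k = (i.succ.insertNth (cns s 0 i.succ) x : E n) 0
            exact h2.symm
          · have h2 := Fin.insertNth_apply_succAbove (α := fun _ => ℝ) i.succ
              (cns s (0 : Fin n → ℝ) i.succ) x k
            rw [hm] at h2 ⊢
            have h3 : m ≠ i := by
              rintro rfl
              exact Fin.succAbove_ne _ _ hm
            show x k = (i.succ.insertNth (cns s 0 i.succ) x : E n) m.succ +
              ((Pi.single i 1 : Fin n → ℤ) m : ℝ)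
            rw [h2, Pi.single_eq_of_ne h3]
            simp
      rw [h1, hper]
    simp only [this, sub_self]
  rw [Finset.sum_eq_zero (fun i _ => hz i), add_zero] at key
  have hface : (cns s (0 : Fin n → ℝ) ∘ Fin.succAbove 0) = 0 := by
    funext j; rfl
  have hface' : (cns t (1 : Fin n → ℝ) ∘ Fin.succAbove 0) = 1 := by
    funext j; rfl
  rw [hface, hface'] at key
  have h0 : ∀ (c : ℝ) (x : Fin n → ℝ), ((0 : Fin (n + 1)).insertNth c x : E n) = cns c x :=
    fun c x => Fin.insertNth_zero' c x
  have hA1 : (∫ x in Icc (0 : Fin n → ℝ) 1, F G 0 ((0 : Fin (n + 1)).insertNth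
      (cns t (1 : Fin n → ℝ) 0) x)) = AB G t := by
    unfold AB
    simp only [h0, cns_zero]
  have hA0 : (∫ x in Icc (0 : Fin n → ℝ) 1, F G 0 ((0 : Fin (n + 1)).insertNth
      (cns s (0 : Fin n → ℝ) 0) x)) = AB G s := by
    unfold AB
    simp only [h0, cns_zero]
  rw [hA1, hA0] at key
  rw [← key]
  have hd : (fun x : E n => ∑ i, fderiv ℝ (F G i) x (Pi.single i 1)) =
      fun x => hB G (x 0) * dens G x := by
    funext x
    exact divB_eq hG x
  rw [hd, IccB_cns]
  have hc : Continuous fun x : E n => hB G (x 0) * dens G x :=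
    ((hB_cont G).comp (continuous_apply 0)).mul (dens_contDiff G).continuous
  rw [fubini _ hc (Icc s t) measurableSet_Icc s t subset_rfl,
    intervalIntegral.integral_of_le hst, integral_Icc_eq_integral_Ioc]
  refine integral_congr_ae (Eventually.of_forall fun τ => ?_)
  simp only [cns_zero]
  unfold WB
  rw [integral_const_mul]

end Pool.Agent.H93.CMC
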