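import Mathlib

open MeasureTheory Set Filter Topology

noncomputable section

namespace Pool.Agent.H93.CMC

/-- One-dimensional core for spheres: `W` is the volume density of the round slices `|x| = r`,
`h` their mean curvature, `A` their area. -/
theorem coreS (W h A : ℝ → ℝ) (hW : ∀ r, 0 < r → ContinuousAt W r) (hpos : ∀ r, 0 < r → 0 < W r)
    (hint : IntegrableOn W (Ioi 0))
    (hA : ∀ r, 0 < r → HasDerivAt A (h r * W r) r)
    (hA0 : Tendsto A (𝓝[>] 0) (𝓝 0)) (hA1 : Tendsto A atTop (𝓝 0))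
    (v : ℝ) (hv0 : 0 < v) (hv1 : v < ∫ r in Ioi (0:ℝ), W r) :
    ∃ a : ℝ, 0 < a ∧ ∫ r in Ioo 0 a, W r = v ∧
      ((∃ a' : ℝ, 0 < a' ∧ a' ≠ a ∧ ∫ r in Ioi a', W r = v) ∨
        ∃ s b : ℝ, 0 < s ∧ s < b ∧ ∫ r in Ioo s b, W r = v ∧ h b = - h s) := by
  set T : ℝ := ∫ r in Ioi (0:ℝ), W r with hT
  set V : ℝ → ℝ := fun r => ∫ τ in (0:ℝ)..r, (Ioi (0:ℝ)).indicator W τ with hV
  have hI : Integrable ((Ioi (0:ℝ)).indicator W) := (integrable_indicator_iff measurableSet_Ioi).2 hint
  have hII : ∀ s t, IntervalIntegrable ((Ioi (0:ℝ)).indicator W) volume s t := fun s t =>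
    hI.intervalIntegrable
  have hVc : Continuous V := intervalIntegral.continuous_primitive hII 0
  have hV0 : V 0 = 0 := by simp [hV]
  have hVsub : ∀ s t, V t - V s = ∫ τ in s..t, (Ioi (0:ℝ)).indicator W τ := fun s t =>
    intervalIntegral.integral_interval_sub_left (hII 0 t) (hII 0 s)
  have hVioo : ∀ s t, 0 ≤ s → s ≤ t → V t - V s = ∫ τ in Ioo s t, W τ := by
    intro s t hs hst
    rw [hVsub, intervalIntegral.integral_of_le hst, integral_Ioc_eq_integral_Ioo]
    refine setIntegral_congr_fun measurableSet_Ioo fun x hx => ?_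
    exact indicator_of_mem (show x ∈ Ioi (0:ℝ) from lt_of_le_of_lt hs hx.1) _
  have hVd : ∀ r, 0 < r → HasDerivAt V (W r) r := by
    intro r hr
    have hev : (Ioi (0:ℝ)).indicator W =ᶠ[𝓝 r] W := by
      filter_upwards [Ioi_mem_nhds hr] with x hx
      exact indicator_of_mem hx _
    have hca : ContinuousAt ((Ioi (0:ℝ)).indicator W) r := (hW r hr).congr hev.symm
    have h1 := intervalIntegral.integral_hasDerivAt_right (hII 0 r)
      (hI.aestronglyMeasurable.stronglyMeasurableAtFilter) hca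
    rw [indicator_of_mem (show r ∈ Ioi (0:ℝ) from hr)] at h1
    exact h1
  have hVm : StrictMonoOn V (Ici 0) := by
    refine strictMonoOn_of_deriv_pos (convex_Ici 0) hVc.continuousOn fun x hx => ?_
    rw [interior_Ici] at hx
    rw [(hVd x hx).deriv]; exact hpos x hx
  have hVT : Tendsto V atTop (𝓝 T) := by
    have h1 : Tendsto V atTop (𝓝 (∫ τ in Ioi (0:ℝ), (Ioi (0:ℝ)).indicator W τ)) :=
      intervalIntegral_tendsto_integral_Ioi 0 hI.integrableOn tendsto_id
    have h2 : (∫ τ in Ioi (0:ℝ), (Ioi (0:ℝ)).indicator W τ) = T := by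
      rw [setIntegral_indicator measurableSet_Ioi, inter_self]
    rwa [h2] at h1
  have hVlt : ∀ r, 0 ≤ r → V r < T := by
    intro r hr
    have h1 : V r < V (r + 1) := hVm hr (show (0:ℝ) ≤ r + 1 by linarith) (by linarith)
    have h2 : V (r + 1) ≤ T := by
      refine ge_of_tendsto hVT ?_
      filter_upwards [eventually_ge_atTop (r + 1)] with x hx
      exact hVm.monotoneOn (show (0:ℝ) ≤ r + 1 by linarith) (show (0:ℝ) ≤ x by linarith) hx
    linarith
  have hVpos : ∀ r, 0 < r → 0 < V r := fun r hr => by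
    have := hVm (show (0:ℝ) ≤ 0 from le_rfl) (show (0:ℝ) ≤ r from hr.le) hr
    rwa [hV0] at this
  have hex : ∀ y, y ∈ Ioo 0 T → ∃ r, 0 < r ∧ V r = y := by
    intro y hy
    have h1 : ∀ᶠ r in atTop, y < V r := hVT.eventually (lt_mem_nhds hy.2)
    obtain ⟨R, hR1, hR2⟩ := (h1.and (eventually_gt_atTop 0)).exists
    obtain ⟨r, hr, hry⟩ := intermediate_value_Icc hR2.le hVc.continuousOn
      (show y ∈ Icc (V 0) (V R) from ⟨by rw [hV0]; exact hy.1.le, hR1.le⟩)
    refine ⟨r, lt_of_le_of_ne hr.1 ?_, hry⟩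
    intro h0
    rw [← h0, hV0] at hry
    exact hy.1.ne hry
  choose! U hUpos hVU using hex
  have hUV : ∀ r, 0 < r → U (V r) = r := by
    intro r hr
    have hm : V r ∈ Ioo 0 T := ⟨hVpos r hr, hVlt r hr.le⟩
    exact hVm.injOn (hUpos _ hm).le hr.le (hVU _ hm)
  have hUmono : StrictMonoOn U (Ioo 0 T) := by
    intro y hy y' hy' hyy
    have h1 : V (U y) < V (U y') := by rw [hVU y hy, hVU y' hy']; exact hyy
    exact (hVm.lt_iff_lt (hUpos y hy).le (hUpos y' hy').le).1 h1
  have hUimg : U '' Ioo 0 T = Ioi 0 := by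
    ext r
    constructor
    · rintro ⟨y, hy, rfl⟩
      exact hUpos y hy
    · intro hr
      exact ⟨V r, ⟨hVpos r hr, hVlt r (le_of_lt hr)⟩, hUV r hr⟩
  have hUc : ∀ y ∈ Ioo 0 T, ContinuousAt U y := by
    intro y hy
    refine hUmono.continuousAt_of_image_mem_nhds (Ioo_mem_nhds hy.1 hy.2) ?_
    rw [hUimg]
    exact Ioi_mem_nhds (hUpos y hy)
  have hUd : ∀ y ∈ Ioo 0 T, HasDerivAt U (W (U y))⁻¹ y := by
    intro y hy
    refine HasDerivAt.of_local_left_inverse (hUc y hy) (hVd _ (hUpos y hy))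
      (hpos _ (hUpos y hy)).ne' ?_
    filter_upwards [Ioo_mem_nhds hy.1 hy.2] with z hz
    exact hVU z hz
  have hBd : ∀ y ∈ Ioo 0 T, HasDerivAt (fun y => A (U y)) (h (U y)) y := by
    intro y hy
    have h1 := (hA _ (hUpos y hy)).comp y (hUd y hy)
    have h2 : h (U y) * W (U y) * (W (U y))⁻¹ = h (U y) := by
      rw [mul_assoc, mul_inv_cancel₀ (hpos _ (hUpos y hy)).ne', mul_one]
    rw [h2] at h1
    exact h1
  have hTpos : 0 < T := lt_trans hv0 hv1
  have hU0 : Tendsto U (𝓝[>] 0) (𝓝[>] 0) := by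
    rw [tendsto_nhdsWithin_iff]
    constructor
    · rw [tendsto_order]
      constructor
      · intro c hc
        filter_upwards [Ioo_mem_nhdsGT hTpos] with y hy
        exact lt_trans hc (hUpos y hy)
      · intro c hc
        filter_upwards [Ioo_mem_nhdsGT hTpos, Ioo_mem_nhdsGT (hVpos c hc)] with y hy hy2
        have h1 : V (U y) < V c := by rw [hVU y hy]; exact hy2.2
        exact (hVm.lt_iff_lt (hUpos y hy).le hc.le).1 h1
    · filter_upwards [Ioo_mem_nhdsGT hTpos] with y hy
      exact hUpos y hy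
  have hU1 : Tendsto U (𝓝[<] T) atTop := by
    rw [tendsto_atTop]
    intro R
    have hR : 0 < max R 1 := lt_of_lt_of_le one_pos (le_max_right _ _)
    filter_upwards [Ioo_mem_nhdsLT hTpos, Ioo_mem_nhdsLT (hVlt _ hR.le)] with y hy hy2
    have h1 : V (max R 1) < V (U y) := by rw [hVU y hy]; exact hy2.1
    have h2 := (hVm.lt_iff_lt hR.le (hUpos y hy).le).1 h1
    exact (le_max_left R 1).trans h2.le
  have hvm : v ∈ Ioo 0 T := ⟨hv0, hv1⟩
  refine ⟨U v, hUpos v hvm, ?_, ?_⟩
  · rw [← hVioo 0 (U v) le_rfl (hUpos v hvm).le, hVU v hvm, hV0, sub_zero]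
  by_cases hhalf : v = T - v
  · right
    set Φ : ℝ → ℝ := fun y => A (U y) + A (U (y + v)) with hΦ
    have hlim0 : Tendsto Φ (𝓝[>] 0) (𝓝 (0 + A (U (0 + v)))) := by
      refine (hA0.comp hU0).add ?_
      have h1 : ContinuousAt (fun y => A (U (y + v))) 0 := by
        have h2 : ContinuousAt (fun y => A (U y)) (0 + v) := by
          rw [zero_add]; exact (hBd v hvm).continuousAt
        exact ContinuousAt.comp (f := fun y => y + v) (g := fun y => A (U y)) h2
          (continuous_add_right v).continuousAt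
      exact h1.tendsto.mono_left nhdsWithin_le_nhds
    have hlim1 : Tendsto Φ (𝓝[<] v) (𝓝 (A (U v) + 0)) := by
      refine Tendsto.add ?_ ?_
      · exact (hBd v hvm).continuousAt.tendsto.mono_left nhdsWithin_le_nhds
      · have h1 : Tendsto (fun y => y + v) (𝓝[<] v) (𝓝[<] T) := by
          rw [tendsto_nhdsWithin_iff]
          constructor
          · have h2 : Tendsto (fun y : ℝ => y + v) (𝓝 v) (𝓝 (v + v)) :=
              (continuous_add_right v).continuousAt
            have h3 : v + v = T := by linarith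
            rw [h3] at h2
            exact h2.mono_left nhdsWithin_le_nhds
          · filter_upwards [self_mem_nhdsWithin] with y hy
            have : y < v := hy
            show y + v < T
            linarith
        exact (hA1.comp hU1).comp h1
    rw [zero_add, zero_add] at hlim0
    rw [add_zero] at hlim1
    obtain ⟨y, hy, hy2⟩ := exists_hasDerivAt_eq_zero' hv0 hlim0 hlim1
      (f' := fun y => h (U y) + h (U (y + v))) (fun y hy => by
        have h1 : y ∈ Ioo 0 T := ⟨hy.1, hy.2.trans hv1⟩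
        have h2 : y + v ∈ Ioo 0 T := ⟨by linarith [hy.1], by linarith [hy.2]⟩
        have h3 : HasDerivAt (fun y => A (U (y + v))) (h (U (y + v))) y := by
          have := (hBd (y + v) h2).comp_add_const y v
          exact this
        exact (hBd y h1).add h3)
    have h1 : y ∈ Ioo 0 T := ⟨hy.1, hy.2.trans hv1⟩
    have h2 : y + v ∈ Ioo 0 T := ⟨by linarith [hy.1], by linarith [hy.2]⟩
    have h3 : U y < U (y + v) := hUmono h1 h2 (by linarith)
    refine ⟨U y, U (y + v), hUpos y h1, h3, ?_, ?_⟩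
    · rw [← hVioo _ _ (hUpos y h1).le h3.le, hVU _ h1, hVU _ h2]; ring
    · have : h (U y) + h (U (y + v)) = 0 := hy2
      linarith
  · left
    have h1 : T - v ∈ Ioo 0 T := ⟨by linarith, by linarith⟩
    refine ⟨U (T - v), hUpos _ h1, ?_, ?_⟩
    · intro h2
      apply hhalf
      have := congrArg V h2
      rw [hVU _ h1, hVU _ hvm] at this
      exact this.symm
    · have h2 : (∫ r in Ioi (0:ℝ), W r) = (∫ r in Ioc 0 (U (T - v)), W r) +
          ∫ r in Ioi (U (T - v)), W r := by
        rw [← setIntegral_union (Ioc_disjoint_Ioi le_rfl) measurableSet_Ioi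
          (hint.mono_set Ioc_subset_Ioi_self)
          (hint.mono_set (Ioi_subset_Ioi (hUpos _ h1).le)), Ioc_union_Ioi_eq_Ioi (hUpos _ h1).le]
      have h3 : (∫ r in Ioc 0 (U (T - v)), W r) = T - v := by
        rw [integral_Ioc_eq_integral_Ioo, ← hVioo 0 _ le_rfl (hUpos _ h1).le, hVU _ h1, hV0,
          sub_zero]
      rw [h3] at h2
      linarith

end Pool.Agent.H93.CMC
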