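import Mathlib

/-!
# Two CMC hypersurfaces enclosing a prescribed volume: definitions

Riemannian metrics on tori `T^(n+1) = ℝ^(n+1) / ℤ^(n+1)` and on spheres
`S^(n+1) = ℝ^(n+1) ∪ {∞}`, volume, mean curvature, closed hypersurfaces of constant mean
curvature enclosing a given volume.
-/

open MeasureTheory Set

noncomputable section

namespace Pool.Agent.H93.CMC

/-- `ℝ^(n+1)`. -/
abbrev E (n : ℕ) := Fin (n + 1) → ℝ

/-- A smooth Riemannian metric on `ℝ^(n+1)`, given by its coefficient matrix `g_ij(x)`, a smooth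
positive definite symmetric matrix function. -/
structure Metric (n : ℕ) where
  /-- the coefficients `g_ij(x)` -/
  g : E n → Matrix (Fin (n + 1)) (Fin (n + 1)) ℝ
  smooth : ∀ i j, ContDiff ℝ (⊤ : ℕ∞) fun x => g x i j
  posDef : ∀ x, (g x).PosDef

section general

variable {n : ℕ} (G : Metric n)

/-- The Riemannian volume density `√(det g)`. -/
def dens (x : E n) : ℝ := √((G.g x).det)

/-- The `i`-th partial derivative. -/
def pd (i : Fin (n + 1)) (u : E n → ℝ) (x : E n) : ℝ := fderiv ℝ u x (Pi.single i 1)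

/-- The `i`-th component `∑_j g^{ij} ∂_j u` of the Riemannian gradient of `u`. -/
def grad (u : E n → ℝ) (i : Fin (n + 1)) (x : E n) : ℝ := ∑ j, (G.g x)⁻¹ i j * pd j u x

/-- The Riemannian length `|∇u| = √(∑_ij g^{ij} ∂_i u ∂_j u)` of the gradient of `u`. -/
def gradNorm (u : E n → ℝ) (x : E n) : ℝ := √(∑ i, pd i u x * grad G u i x)

/-- The mean curvature `div_g (∇u / |∇u|) = (1/√det g) ∑_i ∂_i (√det g (∇u)^i / |∇u|)` at `x` of
the level set of `u` through `x`, with respect to the unit normal `∇u / |∇u|`. -/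
def meanCurv (u : E n → ℝ) (x : E n) : ℝ :=
  (dens G x)⁻¹ * ∑ i, pd i (fun y => dens G y * grad G u i y / gradNorm G u y) x

/-- The open set `Ω` has smooth embedded boundary of constant mean curvature: near each boundary
point, `Ω` is the sublevel set `{u < 0}` and `∂Ω` the level set `{u = 0}` of a smooth function
without critical points, and the mean curvature of `∂Ω` with respect to the outer unit normal
`∇u / |∇u|` is the same constant `H` at all points of `∂Ω`. -/
def CMCBoundary (Ω : Set (E n)) : Prop :=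
  ∃ H : ℝ, ∀ p ∈ frontier Ω, ∃ (U : Set (E n)) (u : E n → ℝ), IsOpen U ∧ p ∈ U ∧
    ContDiff ℝ (⊤ : ℕ∞) u ∧ (∀ x ∈ U, fderiv ℝ u x ≠ 0) ∧ (∀ x ∈ U, x ∈ Ω ↔ u x < 0) ∧
    (∀ x ∈ U, x ∈ frontier Ω ↔ u x = 0) ∧ ∀ x ∈ U, u x = 0 → meanCurv G u x = H

end general

/-! ### Tori -/

/-- Translation by an integer vector. -/
def shift {n : ℕ} (k : Fin (n + 1) → ℤ) (x : E n) : E n := fun i => x i + k i

/-- A smooth Riemannian metric on the torus `T^(n+1) = ℝ^(n+1) / ℤ^(n+1)`: a periodic metric on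
`ℝ^(n+1)`. -/
structure TorusMetric (n : ℕ) extends Metric n where
  periodic : ∀ (k : Fin (n + 1) → ℤ) (x : E n), g (shift k x) = g x

instance {n : ℕ} : Coe (TorusMetric n) (Metric n) := ⟨TorusMetric.toMetric⟩

/-- The Riemannian volume of (the subset of the torus given by) the periodic set `Ω`: the
integral of the volume density over the part of `Ω` in the unit cube. -/
def vol {n : ℕ} (G : TorusMetric n) (Ω : Set (E n)) : ℝ := ∫ x in Ω ∩ Icc 0 1, dens G x

/-- A subset of the torus, as a periodic subset of `ℝ^(n+1)`. -/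
def PeriodicSet {n : ℕ} (Ω : Set (E n)) : Prop :=
  ∀ (k : Fin (n + 1) → ℤ) (x : E n), shift k x ∈ Ω ↔ x ∈ Ω

/-- `S` is a closed CMC hypersurface of `(T^(n+1), g)` enclosing volume `v`: `S = ∂Ω` for an open
subset `Ω` of the torus of volume `v` with smooth embedded boundary of constant mean curvature. -/
def ClosedCMC {n : ℕ} (G : TorusMetric n) (v : ℝ) (S : Set (E n)) : Prop :=
  ∃ Ω : Set (E n), IsOpen Ω ∧ PeriodicSet Ω ∧ vol G Ω = v ∧ S = frontier Ω ∧ CMCBoundary G Ω

/-- All slices `{t} × T^n` have constant mean curvature (which may depend on `t`): the mean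
curvature of the level sets of the first coordinate depends only on the first coordinate. -/
def CMCSlices {n : ℕ} (G : TorusMetric n) : Prop :=
  ∀ x y : E n, x 0 = y 0 → meanCurv G (fun z => z 0) x = meanCurv G (fun z => z 0) y

/-- `g` is invariant under the translations of the `T^n` factor of `T^(n+1) = S^1 × T^n`. -/
def TorusInvariant {n : ℕ} (G : TorusMetric n) : Prop := ∀ x y : E n, x 0 = y 0 → G.g x = G.g y

/-- `g = dt^2 + f(t)^2 k` is the warped product of the circle with `(T^n, k)`, `k` an arbitrary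
metric on `T^n`. -/
def Warped {n : ℕ} (G : TorusMetric n) : Prop :=
  ∃ (f : ℝ → ℝ) (k : (Fin n → ℝ) → Matrix (Fin n) (Fin n) ℝ), (∀ t, 0 < f t) ∧ ∀ x : E n,
    G.g x 0 0 = 1 ∧ (∀ i : Fin n, G.g x i.succ 0 = 0 ∧ G.g x 0 i.succ = 0) ∧
    ∀ i j : Fin n, G.g x i.succ j.succ = f (x 0) ^ 2 * k (fun i => x i.succ) i j

/-! ### Spheres -/

/-- `|x|^2`. -/
def nsq {n : ℕ} (x : E n) : ℝ := ∑ i, x i ^ 2

/-- The inversion `y ↦ y / |y|^2`, the change of coordinates of `S^(n+1) = ℝ^(n+1) ∪ {∞}` between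
the chart at `0` and the chart at `∞`. -/
def inversion {n : ℕ} (y : E n) : E n := fun i => y i / nsq y

/-- The Jacobian matrix `∂_j (y_i / |y|^2)` of the inversion. -/
def invJac {n : ℕ} (y : E n) : Matrix (Fin (n + 1)) (Fin (n + 1)) ℝ :=
  Matrix.of fun i j => ((if i = j then 1 else 0) - 2 * y i * y j / nsq y) / nsq y

/-- A smooth Riemannian metric on the sphere `S^(n+1) = ℝ^(n+1) ∪ {∞}`: a smooth Riemannian metric
on `ℝ^(n+1)` whose expression in the chart at `∞` extends to a smooth metric `g'` over the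
origin `y = 0` of this chart. -/
structure SphereMetric (n : ℕ) extends Metric n where
  atInfinity : ∃ g' : E n → Matrix (Fin (n + 1)) (Fin (n + 1)) ℝ,
    (∀ i j, ContDiff ℝ (⊤ : ℕ∞) fun y => g' y i j) ∧ (∀ y, (g' y).PosDef) ∧
    ∀ y, y ≠ 0 → g' y = (invJac y).transpose * g (inversion y) * invJac y

instance {n : ℕ} : Coe (SphereMetric n) (Metric n) := ⟨SphereMetric.toMetric⟩

/-- The Riemannian volume of `Ω ⊆ ℝ^(n+1) ⊆ S^(n+1)`. -/
def volS {n : ℕ} (G : SphereMetric n) (Ω : Set (E n)) : ℝ := ∫ x in Ω, dens G x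

/-- `S` is a closed CMC hypersurface of `(S^(n+1), g)` not containing `∞` and enclosing volume `v`:
`S = ∂Ω` for an open `Ω` of volume `v` with compact boundary in `ℝ^(n+1)`, which is smooth,
embedded and of constant mean curvature. (The open subset of the sphere is `Ω` if `Ω` is bounded
and `Ω ∪ {∞}` otherwise.) -/
def ClosedCMCS {n : ℕ} (G : SphereMetric n) (v : ℝ) (S : Set (E n)) : Prop :=
  ∃ Ω : Set (E n), IsOpen Ω ∧ IsCompact (frontier Ω) ∧ volS G Ω = v ∧ S = frontier Ω ∧
    CMCBoundary G Ω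

/-- `g` is rotationally symmetric: `g = λ(|x|^2) (dx_0^2 + ... + dx_n^2)`. -/
def RotSym {n : ℕ} (G : SphereMetric n) : Prop := ∃ l : ℝ → ℝ, ∀ x, G.g x = l (nsq x) • 1

end Pool.Agent.H93.CMC
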