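import Pool.Agent.H93.CMC.Geo

open MeasureTheory Set Filter Topology

noncomputable section

namespace Pool.Agent.H93.CMC

variable {n : ℕ} (G : TorusMetric n)

/-- volume density of the slice at height `t` -/
def W (t : ℝ) : ℝ := ∫ x' in Icc (0 : Fin n → ℝ) 1, dens G.toMetric (cns t x')

/-- area of the slice at height `t` -/
def A (t : ℝ) : ℝ := ∫ x' in Icc (0 : Fin n → ℝ) 1, F G.toMetric 0 (cns t x')

/-- mean curvature of the slice at height `t` -/
def hs (t : ℝ) : ℝ := slice G.toMetric (cns t 0)

lemma cns_add_one (t : ℝ) (x : Fin n → ℝ) :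
    cns (t + 1) x = shift (Pi.single 0 1 : Fin (n + 1) → ℤ) (cns t x) := by
  funext i
  refine Fin.cases ?_ (fun j => ?_) i
  · simp [cns, shift]
  · simp [cns, shift]

lemma cns_cont (t : ℝ) : Continuous (fun x : Fin n → ℝ => cns t x) :=
  cns_continuous.comp (continuous_const.prodMk continuous_id)

lemma cns_cont' (x : Fin n → ℝ) : Continuous (fun t : ℝ => cns t x) :=
  cns_continuous.comp (continuous_id.prodMk continuous_const)

lemma par_cont {f : E n → ℝ} (hf : Continuous f) :
    Continuous (fun t : ℝ => ∫ x' in Icc (0 : Fin n → ℝ) 1, f (cns t x')) := by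
  have h : Continuous (Function.uncurry fun (t : ℝ) (x' : Fin n → ℝ) => f (cns t x')) :=
    hf.comp cns_continuous
  exact continuous_parametric_integral_of_continuous h isCompact_Icc

lemma W_cont : Continuous (W G) := par_cont (dens_contDiff G.toMetric).continuous

lemma W_per (t : ℝ) : W G (t + 1) = W G t := by
  unfold W
  simp only [cns_add_one, dens_shift]

lemma A_per (t : ℝ) : A G (t + 1) = A G t := by
  unfold A
  simp only [cns_add_one, F_shift]

lemma hs_cont : Continuous (hs G) := (slice_continuous G.toMetric).comp (cns_cont' 0)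

lemma hs_per (t : ℝ) : hs G (t + 1) = hs G t := by
  unfold hs
  rw [cns_add_one, slice_shift]

lemma W_pos (t : ℝ) : 0 < W G t := by
  unfold W
  have hc : Continuous (fun x' : Fin n → ℝ => dens G.toMetric (cns t x')) :=
    (dens_contDiff G.toMetric).continuous.comp (cns_cont t)
  obtain ⟨m, -, hm⟩ := isCompact_Icc.exists_isMinOn
    (nonempty_Icc.2 (zero_le_one (α := Fin n → ℝ))) hc.continuousOn
  have hvol : (volume (Icc (0 : Fin n → ℝ) 1)).toReal = 1 := by
    rw [Real.volume_Icc_pi_toReal (fun i => by simp)]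
    simp
  have h1 : ∫ _ in Icc (0 : Fin n → ℝ) 1, dens G.toMetric (cns t m) = dens G.toMetric (cns t m) := by
    rw [setIntegral_const, measureReal_def, hvol, one_smul]
  have h2 : ∫ _ in Icc (0 : Fin n → ℝ) 1, dens G.toMetric (cns t m) ≤
      ∫ x' in Icc (0 : Fin n → ℝ) 1, dens G.toMetric (cns t x') := by
    refine setIntegral_mono_on ?_ ?_ measurableSet_Icc fun x hx => hm hx
    · exact continuousOn_const.integrableOn_compact isCompact_Icc
    · exact hc.continuousOn.integrableOn_compact isCompact_Icc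
  have := dens_pos G.toMetric (cns t m)
  linarith

lemma slice_eq (hG : CMCSlices G) (x : E n) : slice G.toMetric x = hs G (x 0) := by
  have := hG x (cns (x 0) 0) rfl
  rw [meanCurv_zero, meanCurv_zero] at this
  exact this

lemma div_eq (hG : CMCSlices G) (x : E n) :
    ∑ i, pd i (F G.toMetric i) x = hs G (x 0) * dens G.toMetric x := by
  have h := slice_eq G hG x
  unfold slice at h
  have := (dens_pos G.toMetric x).ne'
  rw [← h]
  field_simp

lemma Icc_cns (s t : ℝ) : Icc (cns s (0 : Fin n → ℝ)) (cns t 1) =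
    {x : E n | x 0 ∈ Icc s t ∧ (fun i : Fin n => x i.succ) ∈ Icc (0 : Fin n → ℝ) 1} := by
  ext x
  simp only [mem_Icc, Pi.le_def]
  constructor
  · rintro ⟨h1, h2⟩
    exact ⟨⟨h1 0, h2 0⟩, fun i => h1 i.succ, fun i => h2 i.succ⟩
  · rintro ⟨⟨h1, h2⟩, h3, h4⟩
    exact ⟨fun i => Fin.cases h1 (fun j => h3 j) i, fun i => Fin.cases h2 (fun j => h4 j) i⟩

lemma A_sub (hG : CMCSlices G) (s t : ℝ) (hst : s ≤ t) :
    A G t - A G s = ∫ τ in s..t, hs G τ * W G τ := by
  have hle : cns s (0 : Fin n → ℝ) ≤ cns t 1 := by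
    intro i
    refine Fin.cases hst (fun j => ?_) i
    exact zero_le_one
  have hF : ∀ i, Continuous (F G.toMetric i) := fun i => (F_contDiff G.toMetric i).continuous
  have hsum : Continuous fun x => ∑ i, fderiv ℝ (F G.toMetric i) x (Pi.single i 1) :=
    continuous_finsetSum _ fun i _ => pd_continuous i (F_contDiff G.toMetric i)
  have key := integral_divergence_of_hasFDerivAt_off_countable' (cns s (0 : Fin n → ℝ)) (cns t 1)
    hle (F G.toMetric) (fun i => fderiv ℝ (F G.toMetric i)) ∅ countable_empty
    (fun i => (hF i).continuousOn)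
    (fun x _ i => ((F_contDiff G.toMetric i).differentiable (by simp) x).hasFDerivAt)
    (hsum.continuousOn.integrableOn_compact isCompact_Icc)
  rw [Fin.sum_univ_succ] at key
  have hz : ∀ i : Fin n, ((∫ x in Icc (cns s (0 : Fin n → ℝ) ∘ i.succ.succAbove)
      (cns t 1 ∘ i.succ.succAbove), F G.toMetric i.succ (i.succ.insertNth (cns t 1 i.succ) x)) -
      ∫ x in Icc (cns s (0 : Fin n → ℝ) ∘ i.succ.succAbove) (cns t 1 ∘ i.succ.succAbove),
        F G.toMetric i.succ (i.succ.insertNth (cns s 0 i.succ) x)) = 0 := by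
    intro i
    have : ∀ x : Fin n → ℝ, F G.toMetric i.succ (i.succ.insertNth (cns t 1 i.succ) x) =
        F G.toMetric i.succ (i.succ.insertNth (cns s 0 i.succ) x) := by
      intro x
      have h1 : (i.succ.insertNth (cns t 1 i.succ) x : E n) =
          shift (Pi.single i.succ 1 : Fin (n + 1) → ℤ) (i.succ.insertNth (cns s 0 i.succ) x) := by
        funext j
        rcases Fin.eq_self_or_eq_succAbove i.succ j with hj | ⟨k, hj⟩
        · subst hj
          simp [shift, cns]
        · subst hj
          simp [shift]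
      rw [h1, F_shift]
    simp only [this, sub_self]
  rw [Finset.sum_eq_zero (fun i _ => hz i), add_zero] at key
  have hface : (cns s (0 : Fin n → ℝ) ∘ Fin.succAbove 0) = 0 := by
    funext j; rfl
  have hface' : (cns t (1 : Fin n → ℝ) ∘ Fin.succAbove 0) = 1 := by
    funext j; rfl
  rw [hface, hface'] at key
  have h0 : ∀ (c : ℝ) (x : Fin n → ℝ), ((0 : Fin (n + 1)).insertNth c x : E n) = cns c x :=
    fun c x => Fin.insertNth_zero' c x
  have hA1 : (∫ x in Icc (0 : Fin n → ℝ) 1, F G.toMetric 0 ((0 : Fin (n + 1)).insertNth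
      (cns t (1 : Fin n → ℝ) 0) x)) = A G t := by
    unfold A
    simp only [h0, cns_zero]
  have hA0 : (∫ x in Icc (0 : Fin n → ℝ) 1, F G.toMetric 0 ((0 : Fin (n + 1)).insertNth
      (cns s (0 : Fin n → ℝ) 0) x)) = A G s := by
    unfold A
    simp only [h0, cns_zero]
  rw [hA1, hA0] at key
  rw [← key]
  have hd : (fun x : E n => ∑ i, fderiv ℝ (F G.toMetric i) x (Pi.single i 1)) =
      fun x => hs G (x 0) * dens G.toMetric x := by
    funext x
    exact div_eq G hG x
  rw [hd, Icc_cns]
  have hc : Continuous fun x : E n => hs G (x 0) * dens G.toMetric x :=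
    ((hs_cont G).comp (continuous_apply 0)).mul (dens_contDiff G.toMetric).continuous
  rw [fubini _ hc (Icc s t) measurableSet_Icc s t subset_rfl,
    intervalIntegral.integral_of_le hst, integral_Icc_eq_integral_Ioc]
  refine integral_congr_ae (Eventually.of_forall fun τ => ?_)
  simp only [cns_zero]
  unfold W
  rw [integral_const_mul]

end Pool.Agent.H93.CMC
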