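import Pool.Agent.H93.CMC.Defs

/-!
# Closed manifolds `ℝ^(n+1)/Γ` fibred over the circle

`Γ` is a group of diffeomorphisms of `ℝ^(n+1)` acting freely and properly discontinuously with
compact quotient `M = ℝ^(n+1)/Γ`, such that `(γ x)_0 = x_0 + χ(γ)` with `χ(γ) ∈ ℤ`; the coordinate
`t = x_0` induces a fibration `M → ℝ/ℤ`. Every closed manifold which fibres over the circle with
a fibre whose universal cover is `ℝ^n` is of this form. Functions, metrics and subsets of `M` are
written as invariant functions, metrics and subsets of the universal cover `ℝ^(n+1)`.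
-/

open MeasureTheory Set

noncomputable section

namespace Pool.Agent.H93.CMC

variable {n : ℕ}

/-- The Jacobian matrix `∂_j φ_i`. -/
def jac (φ : E n → E n) (x : E n) : Matrix (Fin (n + 1)) (Fin (n + 1)) ℝ :=
  Matrix.of fun i j => pd j (fun z => φ z i) x

/-- The group `Γ` acts on `ℝ^(n+1)` as the deck group of a closed manifold `M = ℝ^(n+1)/Γ` fibred over
the circle by `x_0`, and `D` is a fundamental domain: a bounded measurable set which meets each
orbit in exactly one point `γ x`, `γ` unique (so the action is free and `M` is compact). -/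
structure FibredDeck (Γ : Type) [Group Γ] [MulAction Γ (E n)] (χ : Γ → ℤ) (D : Set (E n)) :
    Prop where
  smooth : ∀ γ : Γ, ContDiff ℝ (⊤ : ℕ∞) fun x : E n => γ • x
  height : ∀ (γ : Γ) (x : E n), (γ • x) 0 = x 0 + χ γ
  surjective : ∃ γ : Γ, χ γ = 1
  proper : ∀ K : Set (E n), IsCompact K → {γ : Γ | ∃ x ∈ K, γ • x ∈ K}.Finite
  measurable : MeasurableSet D
  bounded : Bornology.IsBounded D
  domain : ∀ x : E n, ∃! γ : Γ, γ • x ∈ D

/-- The elements of `Γ` are isometries of `g`: `g` is a Riemannian metric on `M = ℝ^(n+1)/Γ`. -/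
def DeckInvariant (Γ : Type) [Group Γ] [MulAction Γ (E n)] (G : Metric n) : Prop :=
  ∀ (γ : Γ) (x : E n),
    (jac (fun z : E n => γ • z) x).transpose * G.g (γ • x) * jac (fun z : E n => γ • z) x = G.g x

/-- The Riemannian volume of (the subset of `M` given by) the invariant set `Ω`: the integral of
the volume density over the part of `Ω` in the fundamental domain `D`. -/
def volD (G : Metric n) (D Ω : Set (E n)) : ℝ := ∫ x in Ω ∩ D, dens G x

/-- `S` is a closed CMC hypersurface of `(M, g)` enclosing volume `v`: `S = ∂Ω` for an open subset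
`Ω` of `M` of volume `v` with smooth embedded boundary of constant mean curvature. -/
def ClosedCMCD (Γ : Type) [Group Γ] [MulAction Γ (E n)] (G : Metric n) (D : Set (E n)) (v : ℝ)
    (S : Set (E n)) : Prop :=
  ∃ Ω : Set (E n), IsOpen Ω ∧ (∀ (γ : Γ) (x : E n), γ • x ∈ Ω ↔ x ∈ Ω) ∧ volD G D Ω = v ∧
    S = frontier Ω ∧ CMCBoundary G Ω

end Pool.Agent.H93.CMC
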