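import Pool.Agent.H93.CMC.GDefs
import Pool.Agent.H93.CMC.BDiv

open MeasureTheory Set Filter Topology

noncomputable section

namespace Pool.Agent.H93.CMC

variable {n : ℕ}

/-- unit normal field of the fibres -/
def nrm (G : Metric n) (i : Fin (n + 1)) (x : E n) : ℝ := (G.g x)⁻¹ i 0 / √((G.g x)⁻¹ 0 0)

/-- derivative in the direction of the unit normal field -/
def Nd (G : Metric n) (f : E n → ℝ) (x : E n) : ℝ := ∑ i, pd i f x * nrm G i x

lemma F_eq (G : Metric n) (i : Fin (n + 1)) (x : E n) : F G i x = dens G x * nrm G i x := by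
  unfold F nrm; ring

lemma nrm_contDiff (G : Metric n) (i : Fin (n + 1)) : ContDiff ℝ (⊤ : ℕ∞) (nrm G i) := by
  unfold nrm
  exact ContDiff.div (inv_contDiff G i 0) ((inv_contDiff G 0 0).sqrt fun x => (inv00_pos G x).ne')
    fun x => (Real.sqrt_pos.2 (inv00_pos G x)).ne'

lemma pd_comp {f : E n → ℝ} {φ : E n → E n} {x : E n} (hf : DifferentiableAt ℝ f (φ x))
    (hφ : DifferentiableAt ℝ φ x) (j : Fin (n + 1)) :
    pd j (fun z => f (φ z)) x = ∑ i, pd i f (φ x) * jac φ x i j := by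
  have h1 : HasFDerivAt (fun z => f (φ z)) ((fderiv ℝ f (φ x)).comp (fderiv ℝ φ x)) x :=
    hf.hasFDerivAt.comp x hφ.hasFDerivAt
  have h2 : ∀ i, jac φ x i j = fderiv ℝ φ x (Pi.single j 1) i := by
    intro i
    unfold jac pd
    have h3 : HasFDerivAt (fun z => φ z i)
        ((ContinuousLinearMap.proj (R := ℝ) (φ := fun _ : Fin (n + 1) => ℝ) i).comp
          (fderiv ℝ φ x)) x :=
      (ContinuousLinearMap.proj (R := ℝ) (φ := fun _ : Fin (n + 1) => ℝ) i).hasFDerivAt.comp x
        hφ.hasFDerivAt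
    simp only [Matrix.of_apply]
    rw [h3.fderiv]
    rfl
  unfold pd
  rw [h1.fderiv, ContinuousLinearMap.comp_apply]
  simp only [h2]
  set w := fderiv ℝ φ x (Pi.single j 1) with hw
  have h4 : w = ∑ i, w i • (Pi.single i (1:ℝ) : E n) := by
    funext k
    simp [Finset.sum_apply, Pi.single_apply]
  conv_lhs => rw [h4]
  rw [map_sum]
  refine Finset.sum_congr rfl fun i _ => ?_
  rw [map_smul, smul_eq_mul, mul_comm]

section

variable {Γ : Type} [Group Γ] [MulAction Γ (E n)] {χ : Γ → ℤ} {D : Set (E n)} {G : Metric n}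

lemma jac_zero (hΓ : FibredDeck Γ χ D) (γ : Γ) (x : E n) (j : Fin (n + 1)) :
    jac (fun z : E n => γ • z) x 0 j = if j = 0 then 1 else 0 := by
  unfold jac
  simp only [Matrix.of_apply, hΓ.height]
  have h1 : (fun z : E n => z 0 + (χ γ : ℝ)) = fun z : E n => z 0 - (-(χ γ : ℝ)) := by
    funext z; ring
  rw [h1, pd_sub]

lemma jac_det (hinv : DeckInvariant Γ G) (γ : Γ) (x : E n) :
    (jac (fun z : E n => γ • z) x).det ^ 2 * (G.g (γ • x)).det = (G.g x).det := by
  have h := congrArg Matrix.det (hinv γ x)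
  rw [Matrix.det_mul, Matrix.det_mul, Matrix.det_transpose] at h
  rw [← h]; ring

lemma jac_unit (hinv : DeckInvariant Γ G) (γ : Γ) (x : E n) :
    IsUnit (jac (fun z : E n => γ • z) x).det := by
  have h := jac_det hinv γ x
  refine isUnit_iff_ne_zero.2 fun h0 => ?_
  rw [h0] at h
  have := det_pos G x
  rw [← h] at this
  simp at this

lemma inv_deck (hinv : DeckInvariant Γ G) (γ : Γ) (x : E n) :
    (G.g (γ • x))⁻¹ = jac (fun z : E n => γ • z) x * (G.g x)⁻¹ *
      (jac (fun z : E n => γ • z) x).transpose := by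
  set J := jac (fun z : E n => γ • z) x with hJ
  have hu : IsUnit J.det := jac_unit hinv γ x
  have hgu : IsUnit (G.g x).det := (det_pos G x).ne'.isUnit
  apply Matrix.inv_eq_left_inv
  have h2 : J.transpose * G.g (γ • x) = G.g x * J⁻¹ := by
    rw [← hinv γ x, Matrix.mul_assoc, Matrix.mul_nonsing_inv _ hu, Matrix.mul_one]
  rw [Matrix.mul_assoc, h2, Matrix.mul_assoc, ← Matrix.mul_assoc (G.g x)⁻¹,
    Matrix.nonsing_inv_mul _ hgu, Matrix.one_mul, Matrix.mul_nonsing_inv _ hu]

lemma inv_deck_col (hΓ : FibredDeck Γ χ D) (hinv : DeckInvariant Γ G) (γ : Γ) (x : E n)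
    (i : Fin (n + 1)) : (G.g (γ • x))⁻¹ i 0 =
      ∑ j, jac (fun z : E n => γ • z) x i j * (G.g x)⁻¹ j 0 := by
  rw [inv_deck hinv, Matrix.mul_apply]
  simp only [Matrix.mul_apply, Matrix.transpose_apply, jac_zero hΓ]
  simp

lemma inv_deck_00 (hΓ : FibredDeck Γ χ D) (hinv : DeckInvariant Γ G) (γ : Γ) (x : E n) :
    (G.g (γ • x))⁻¹ 0 0 = (G.g x)⁻¹ 0 0 := by
  rw [inv_deck_col hΓ hinv]
  simp only [jac_zero hΓ]
  simp

/-- P5 -/
lemma Nd_deck (hΓ : FibredDeck Γ χ D) (hinv : DeckInvariant Γ G) (γ : Γ) {f : E n → ℝ}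
    (hf : Differentiable ℝ f) (x : E n) : Nd G (fun z => f (γ • z)) x = Nd G f (γ • x) := by
  unfold Nd
  have hd : DifferentiableAt ℝ (fun z : E n => γ • z) x := ((hΓ.smooth γ).differentiable (by simp)) x
  have h1 : ∀ j, pd j (fun z => f (γ • z)) x =
      ∑ i, pd i f (γ • x) * jac (fun z : E n => γ • z) x i j := fun j =>
    pd_comp (f := f) (φ := fun z : E n => γ • z) (hf _) hd j
  simp only [h1]
  have h2 : ∀ i, nrm G i (γ • x) = ∑ j, jac (fun z : E n => γ • z) x i j * nrm G j x := by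
    intro i
    unfold nrm
    rw [inv_deck_00 hΓ hinv, inv_deck_col hΓ hinv, Finset.sum_div]
    refine Finset.sum_congr rfl fun j _ => ?_
    ring
  simp only [h2, Finset.mul_sum, Finset.sum_mul]
  rw [Finset.sum_comm]
  refine Finset.sum_congr rfl fun i _ => Finset.sum_congr rfl fun j _ => ?_
  ring

/-- the Riemannian measure -/
def mu (G : Metric n) : Measure (E n) := volume.withDensity fun x => ENNReal.ofReal (dens G x)

lemma dens_meas (G : Metric n) : Measurable fun x => ENNReal.ofReal (dens G x) :=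
  (dens_contDiff G).continuous.measurable.ennreal_ofReal

lemma dens_jac (hinv : DeckInvariant Γ G) (γ : Γ) (x : E n) :
    |(jac (fun z : E n => γ • z) x).det| * dens G (γ • x) = dens G x := by
  unfold dens
  rw [← Real.sqrt_sq_eq_abs, ← Real.sqrt_mul (sq_nonneg _), jac_det hinv]

lemma jac_eq_toMatrix {φ : E n → E n} {x : E n} (hφ : DifferentiableAt ℝ φ x) :
    (fderiv ℝ φ x).det = (jac φ x).det := by
  have h1 : jac φ x = LinearMap.toMatrix' (fderiv ℝ φ x : E n →ₗ[ℝ] E n) := by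
    ext i j
    rw [LinearMap.toMatrix'_apply]
    unfold jac pd
    have h3 : HasFDerivAt (fun z => φ z i)
        ((ContinuousLinearMap.proj (R := ℝ) (φ := fun _ : Fin (n + 1) => ℝ) i).comp
          (fderiv ℝ φ x)) x :=
      (ContinuousLinearMap.proj (R := ℝ) (φ := fun _ : Fin (n + 1) => ℝ) i).hasFDerivAt.comp x
        hφ.hasFDerivAt
    simp only [Matrix.of_apply]
    rw [h3.fderiv]
    rfl
  rw [h1, LinearMap.det_toMatrix']

lemma smul_cont (hΓ : FibredDeck Γ χ D) (γ : Γ) : Continuous fun x : E n => γ • x :=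
  (hΓ.smooth γ).continuous

lemma mu_invariant (hΓ : FibredDeck Γ χ D) (hinv : DeckInvariant Γ G) :
    SMulInvariantMeasure Γ (E n) (mu G) := by
  constructor
  intro γ s hs
  set s' : Set (E n) := (fun x : E n => γ • x) ⁻¹' s with hs'
  have hms' : MeasurableSet s' := hs.preimage (smul_cont hΓ γ).measurable
  have himg : (fun x : E n => γ • x) '' s' = s := by
    rw [hs', image_preimage_eq_of_subset]
    intro y _
    exact ⟨γ⁻¹ • y, smul_inv_smul γ y⟩
  unfold mu
  rw [withDensity_apply _ hms', withDensity_apply _ hs]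
  conv_rhs => rw [← himg]
  rw [lintegral_image_eq_lintegral_abs_det_fderiv_mul volume hms'
    (f' := fun x => fderiv ℝ (fun z : E n => γ • z) x)
    (fun x _ => (((hΓ.smooth γ).differentiable (by simp)) x).hasFDerivAt.hasFDerivWithinAt)
    (fun x _ y _ hxy => MulAction.injective γ hxy)]
  refine lintegral_congr fun x => ?_
  rw [jac_eq_toMatrix (((hΓ.smooth γ).differentiable (by simp)) x),
    ← ENNReal.ofReal_mul (abs_nonneg _), dens_jac hinv]

lemma deck_countable (hΓ : FibredDeck Γ χ D) : Countable Γ := by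
  have h : (univ : Set Γ) = ⋃ N : ℕ, {γ : Γ | ∃ x ∈ _root_.Metric.closedBall (0 : E n) N,
      γ • x ∈ _root_.Metric.closedBall (0 : E n) N} := by
    ext γ
    simp only [mem_univ, mem_iUnion, true_iff]
    obtain ⟨N, hN⟩ := exists_nat_ge ‖γ • (0 : E n)‖
    refine ⟨N, 0, ?_, ?_⟩
    · simp
    · simpa using hN
  rw [← countable_univ_iff, h]
  exact countable_iUnion fun N => (hΓ.proper _ (isCompact_closedBall _ _)).countable

end

end Pool.Agent.H93.CMC
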