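import Pool.Agent.H93.CMC.Gen1

open MeasureTheory Set Filter Topology

noncomputable section

namespace Pool.Agent.H93.CMC

variable {n : ℕ}

/-- integral with respect to the Riemannian measure -/
lemma int_mu (G : Metric n) (f : E n → ℝ) : ∫ x, f x ∂(mu G) = ∫ x, dens G x * f x := by
  unfold mu
  rw [integral_withDensity_eq_integral_toReal_smul (dens_meas G)
    (Eventually.of_forall fun x => ENNReal.ofReal_lt_top)]
  refine integral_congr_ae (Eventually.of_forall fun x => ?_)
  simp only [smul_eq_mul]
  rw [ENNReal.toReal_ofReal (dens_pos G x).le]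

lemma int_mu_set (G : Metric n) (f : E n → ℝ) {D : Set (E n)} (hD : MeasurableSet D) :
    ∫ x in D, f x ∂(mu G) = ∫ x in D, dens G x * f x := by
  unfold mu
  rw [restrict_withDensity hD, integral_withDensity_eq_integral_toReal_smul (dens_meas G)
    (Eventually.of_forall fun x => ENNReal.ofReal_lt_top)]
  refine integral_congr_ae (Eventually.of_forall fun x => ?_)
  simp only [smul_eq_mul]
  rw [ENNReal.toReal_ofReal (dens_pos G x).le]

/-- P4: weak form of `div ν = h` -/
lemma weak (G : Metric n) (hC : CMCFibres G) {f : E n → ℝ} (hf : ContDiff ℝ (⊤ : ℕ∞) f)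
    (hfc : HasCompactSupport f) :
    ∫ x, f x * hB G (x 0) ∂(mu G) = - ∫ x, Nd G f x ∂(mu G) := by
  rw [int_mu, int_mu]
  have h1 : ∀ x, dens G x * (f x * hB G (x 0)) = ∑ i, f x * pd i (F G i) x := by
    intro x
    rw [← Finset.mul_sum, divB_eq hC]; ring
  have h2 : ∀ x, dens G x * Nd G f x = ∑ i, pd i f x * F G i x := by
    intro x
    unfold Nd
    rw [Finset.mul_sum]
    refine Finset.sum_congr rfl fun i _ => ?_
    rw [F_eq]; ring
  simp only [h1, h2]
  have hcont : ∀ i, Continuous fun x => f x * pd i (F G i) x := fun i =>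
    hf.continuous.mul (pd_continuous i (F_contDiff G i))
  have hsupp1 : ∀ i, HasCompactSupport fun x => f x * pd i (F G i) x := fun i => hfc.mul_right
  have hpdc : ∀ i, HasCompactSupport (pd i f) := by
    intro i
    have h3 := hfc.fderiv (𝕜 := ℝ)
    exact h3.comp_left (g := fun L : E n →L[ℝ] ℝ => L (Pi.single i 1)) (by simp)
  have hsupp2 : ∀ i, HasCompactSupport fun x => pd i f x * F G i x := fun i => (hpdc i).mul_right
  have hcont2 : ∀ i, Continuous fun x => pd i f x * F G i x := fun i =>
    (pd_continuous i hf).mul (F_contDiff G i).continuous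
  have hint1 : ∀ i, Integrable fun x => f x * pd i (F G i) x := fun i =>
    (hcont i).integrable_of_hasCompactSupport (hsupp1 i)
  have hint2 : ∀ i, Integrable fun x => pd i f x * F G i x := fun i =>
    (hcont2 i).integrable_of_hasCompactSupport (hsupp2 i)
  have hint3 : ∀ i, Integrable fun x => f x * F G i x := fun i =>
    (hf.continuous.mul (F_contDiff G i).continuous).integrable_of_hasCompactSupport hfc.mul_right
  rw [integral_finset_sum _ fun i _ => hint1 i, integral_finset_sum _ fun i _ => hint2 i,
    ← Finset.sum_neg_distrib]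
  refine Finset.sum_congr rfl fun i _ => ?_
  exact integral_mul_fderiv_eq_neg_fderiv_mul_of_integrable (hint2 i) (hint1 i) (hint3 i)
    (fun x _ => (hf.differentiable (by simp)) x)
    (fun x _ => ((F_contDiff G i).differentiable (by simp)) x)

section

variable {Γ : Type} [Group Γ] [MulAction Γ (E n)] {χ : Γ → ℤ} {D : Set (E n)} {G : Metric n}

lemma smul_compact (hΓ : FibredDeck Γ χ D) (γ : Γ) {f : E n → ℝ} (hf : HasCompactSupport f) :
    HasCompactSupport fun x : E n => f (γ • x) := by
  have hcl : Topology.IsClosedEmbedding fun x : E n => γ • x := by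
    have : (fun x : E n => γ • x) = (Homeomorph.mk (MulAction.toPerm γ : E n ≃ E n)
        (smul_cont hΓ γ) (by
          have := smul_cont hΓ γ⁻¹
          exact this)) := rfl
    rw [this]
    exact Homeomorph.isClosedEmbedding _
  exact hf.comp_isClosedEmbedding hcl

lemma int_smul (hΓ : FibredDeck Γ χ D) (hinv : DeckInvariant Γ G) (γ : Γ) (f : E n → ℝ) :
    ∫ x, f (γ • x) ∂(mu G) = ∫ x, f x ∂(mu G) := by
  haveI : ContinuousConstSMul Γ (E n) := ⟨smul_cont hΓ⟩
  haveI := mu_invariant hΓ hinv
  exact integral_smul_eq_self f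

/-- P6: the mean curvature of the fibres is periodic -/
lemma hB_deck (hΓ : FibredDeck Γ χ D) (hinv : DeckInvariant Γ G) (hC : CMCFibres G) (γ : Γ) (t : ℝ) :
    hB G (t - χ γ) = hB G t := by
  have hcont : Continuous fun x : E n => dens G x * (hB G (x 0 - χ γ) - hB G (x 0)) :=
    (dens_contDiff G).continuous.mul
      (((hB_cont G).comp ((continuous_apply 0).sub continuous_const)).sub
        ((hB_cont G).comp (continuous_apply 0)))
  have key : ∀ f : E n → ℝ, ContDiff ℝ (⊤ : ℕ∞) f → HasCompactSupport f →
      ∫ x, f x • (dens G x * (hB G (x 0 - χ γ) - hB G (x 0))) = 0 := by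
    intro f hf hfc
    have h1 := weak G hC hf hfc
    have h2 := weak G hC (f := fun x => f (γ • x)) (hf.comp (hΓ.smooth γ)) (smul_compact hΓ γ hfc)
    have h3 : ∀ x, Nd G (fun z => f (γ • z)) x = Nd G f (γ • x) := fun x =>
      Nd_deck hΓ hinv γ (hf.differentiable (by simp)) x
    simp only [h3] at h2
    rw [int_smul hΓ hinv γ (Nd G f), ← h1] at h2
    have h4 : ∀ x : E n, f (γ • x) * hB G (x 0) =
        (fun y : E n => f y * hB G (y 0 - χ γ)) (γ • x) := by
      intro x
      simp only [hΓ.height]
      rw [add_sub_cancel_right]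
    simp only [h4] at h2
    rw [int_smul hΓ hinv γ (fun y : E n => f y * hB G (y 0 - χ γ)), int_mu, int_mu] at h2
    have hi1 : Integrable fun x : E n => dens G x * (f x * hB G (x 0 - χ γ)) := by
      refine Continuous.integrable_of_hasCompactSupport ?_ ?_
      · exact (dens_contDiff G).continuous.mul (hf.continuous.mul
          ((hB_cont G).comp ((continuous_apply 0).sub continuous_const)))
      · exact (hfc.mul_right).mul_left
    have hi2 : Integrable fun x : E n => dens G x * (f x * hB G (x 0)) := by
      refine Continuous.integrable_of_hasCompactSupport ?_ ?_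
      · exact (dens_contDiff G).continuous.mul (hf.continuous.mul
          ((hB_cont G).comp (continuous_apply 0)))
      · exact (hfc.mul_right).mul_left
    have h5 : (fun x : E n => f x • (dens G x * (hB G (x 0 - χ γ) - hB G (x 0)))) = fun x : E n =>
        dens G x * (f x * hB G (x 0 - χ γ)) - dens G x * (f x * hB G (x 0)) := by
      funext x
      simp only [smul_eq_mul]; ring
    rw [h5, integral_sub hi1 hi2, h2, sub_self]
  have hae := ae_eq_zero_of_integral_contDiff_smul_eq_zero (μ := volume)
    hcont.locallyIntegrable key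
  have hz : (fun x : E n => dens G x * (hB G (x 0 - χ γ) - hB G (x 0))) = fun _ => 0 :=
    (hcont.ae_eq_iff_eq volume continuous_const).1 hae
  have h6 := congrFun hz (cns t 0)
  simp only [cns_zero] at h6
  rcases mul_eq_zero.1 h6 with h7 | h7
  · exact absurd h7 (dens_pos G _).ne'
  · linarith

lemma hB_periodic (hΓ : FibredDeck Γ χ D) (hinv : DeckInvariant Γ G) (hC : CMCFibres G) (t : ℝ) :
    hB G (t + 1) = hB G t := by
  obtain ⟨γ, hγ⟩ := hΓ.surjective
  have := hB_deck hΓ hinv hC γ (t + 1)
  rw [hγ, Int.cast_one, add_sub_cancel_right] at this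
  exact this.symm

end

end Pool.Agent.H93.CMC
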