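import Pool.Agent.H93.CMC.Gen3
import Pool.Agent.H93.CMC.BSlab
import Pool.Agent.H81.CMC.MeasCore

open MeasureTheory Set Filter Topology

noncomputable section

namespace Pool.Agent.H93.CMC

variable {n : ℕ}

section

variable {Γ : Type} [Group Γ] [MulAction Γ (E n)] {χ : Γ → ℤ} {D : Set (E n)} {G : Metric n}

lemma SlabD_CMC (hper : ∀ t, hB G (t + 1) = hB G t) (hG : CMCFibres G) {a b : ℝ} (h1 : a < b)
    (h2 : b < a + 1) (hh : hB G b = - hB G a) : CMCBoundary G (Slab n a b) := by
  have hB_i : ∀ (k : ℤ) (t : ℝ), hB G (t + k) = hB G t := fun k t => by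
    have : Function.Periodic (hB G) 1 := hper
    have := this.int_mul k t
    simpa using this
  refine ⟨hB G b, fun p hp => ?_⟩
  have hfr := Slab_frontier (n := n) h1 h2
  rw [hfr] at hp
  obtain ⟨k, hk | hk⟩ := hp
  · refine ⟨{x | b + k - 1 < x 0 ∧ x 0 < b + k}, fun z => (a + k) - z 0, ?_, ?_, ?_, ?_, ?_, ?_, ?_⟩
    · exact (isOpen_lt continuous_const (continuous_apply 0)).inter
        (isOpen_lt (continuous_apply 0) continuous_const)
    · exact ⟨by rw [hk]; linarith, by rw [hk]; linarith⟩
    · exact contDiff_const.sub (contDiff_apply ℝ ℝ (0 : Fin (n + 1)))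
    · intro x _
      exact fderiv_neg_ne _ x
    · rintro x ⟨hx1, hx2⟩
      have := Om_window' h2 k hx1 hx2
      show x 0 ∈ Om a b ↔ _
      rw [this]
      constructor <;> intro h <;> linarith
    · rintro x ⟨hx1, hx2⟩
      rw [hfr]
      constructor
      · rintro ⟨l, hl | hl⟩
        · have h3 : (l : ℝ) < k + 1 := by linarith
          have h4 : (k : ℝ) - 1 < l := by linarith
          have h5 : l < k + 1 := by exact_mod_cast h3
          have h6 : k - 1 < l := by exact_mod_cast h4
          have h7 : l = k := by omega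
          rw [h7] at hl
          linarith
        · have h3 : (l : ℝ) < k := by linarith
          have h4 : (k : ℝ) - 1 < l := by linarith
          have h5 : l < k := by exact_mod_cast h3
          have h6 : k - 1 < l := by exact_mod_cast h4
          omega
      · intro h
        exact ⟨k, Or.inl (by linarith)⟩
    · rintro x _ hx
      have hx0 : x 0 = a + k := by linarith
      rw [meanCurv_neg, sliceB_eq hG, hx0, hB_i, hh]
  · refine ⟨{x | a + k < x 0 ∧ x 0 < a + k + 1}, fun z => z 0 - (b + k), ?_, ?_, ?_, ?_, ?_, ?_, ?_⟩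
    · exact (isOpen_lt continuous_const (continuous_apply 0)).inter
        (isOpen_lt (continuous_apply 0) continuous_const)
    · exact ⟨by rw [hk]; linarith, by rw [hk]; linarith⟩
    · exact (contDiff_apply ℝ ℝ (0 : Fin (n + 1))).sub contDiff_const
    · intro x _
      exact fderiv_sub_ne _ x
    · rintro x ⟨hx1, hx2⟩
      have := Om_window h2 k hx1 hx2
      show x 0 ∈ Om a b ↔ _
      rw [this]
      constructor <;> intro h <;> linarith
    · rintro x ⟨hx1, hx2⟩
      rw [hfr]
      constructor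
      · rintro ⟨l, hl | hl⟩
        · have h3 : (l : ℝ) < k + 1 := by linarith
          have h4 : (k : ℝ) < l := by linarith
          have h5 : l < k + 1 := by exact_mod_cast h3
          have h6 : k < l := by exact_mod_cast h4
          omega
        · have h3 : (l : ℝ) < k + 1 := by linarith
          have h4 : (k : ℝ) - 1 < l := by linarith
          have h5 : l < k + 1 := by exact_mod_cast h3
          have h6 : k - 1 < l := by exact_mod_cast h4
          have h7 : l = k := by omega
          rw [h7] at hl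
          linarith
      · intro h
        exact ⟨k, Or.inr (by linarith)⟩
    · rintro x _ hx
      have hx0 : x 0 = b + k := by linarith
      rw [meanCurv_sub, sliceB_eq hG, hx0, hB_i]

/-- the image of the Riemannian measure of `M` under the fibration, lifted to `ℝ` -/
def rho (G : Metric n) (D : Set (E n)) : Measure ℝ := ((mu G).restrict D).map fun x => x 0

lemma coord_meas : Measurable fun x : E n => x 0 := measurable_pi_apply 0

lemma rho_apply (hΓ : FibredDeck Γ χ D) {B : Set ℝ} (hB : MeasurableSet B) :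
    rho G D B = mu G ({x : E n | x 0 ∈ B} ∩ D) := by
  unfold rho
  rw [Measure.map_apply coord_meas hB, Measure.restrict_apply' hΓ.measurable]
  rfl

lemma D_finite (hΓ : FibredDeck Γ χ D) : mu G D < ⊤ := by
  have := mu_lf G
  obtain ⟨R, hR⟩ := hΓ.bounded.subset_closedBall (0 : E n)
  exact (measure_mono hR).trans_lt (isCompact_closedBall (0 : E n) R).measure_lt_top

lemma rho_finite (hΓ : FibredDeck Γ χ D) : IsFiniteMeasure (rho G D) := by
  constructor
  rw [rho_apply hΓ MeasurableSet.univ]
  exact (measure_mono inter_subset_right).trans_lt (D_finite hΓ)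

lemma rho_real (hΓ : FibredDeck Γ χ D) {B : Set ℝ} (hB : MeasurableSet B) :
    (rho G D).real B = volD G D {x : E n | x 0 ∈ B} := by
  have hm : MeasurableSet ({x : E n | x 0 ∈ B} ∩ D) := (coord_meas hB).inter hΓ.measurable
  unfold volD
  rw [measureReal_def, rho_apply hΓ hB]
  have h1 := int_mu_set G (fun _ => (1:ℝ)) hm
  simp only [mul_one] at h1
  rw [← h1]
  simp [measureReal_def]

lemma rho_atom (hΓ : FibredDeck Γ χ D) (c : ℝ) : rho G D {c} = 0 := by
  rw [rho_apply hΓ (measurableSet_singleton c)]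
  refine measure_mono_null inter_subset_left ?_
  unfold mu
  refine withDensity_absolutelyContinuous _ _ ?_
  exact Measure.pi_hyperplane (fun _ : Fin (n + 1) => (volume : Measure ℝ)) 0 c

lemma mu_pos {U : Set (E n)} (hU : IsOpen U) (hne : U.Nonempty) : 0 < mu G U := by
  rw [pos_iff_ne_zero]
  intro h0
  have hm : MeasurableSet U := hU.measurableSet
  unfold mu at h0
  rw [withDensity_apply _ hm, lintegral_eq_zero_iff (dens_meas G)] at h0
  have h1 : ∀ᵐ x ∂(volume.restrict U), False := by
    filter_upwards [h0] with x hx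
    have := dens_pos G x
    simp only [Pi.zero_apply, ENNReal.ofReal_eq_zero] at hx
    linarith
  rw [Filter.eventually_false_iff_eq_bot, ae_eq_bot, Measure.restrict_eq_zero] at h1
  exact (hU.measure_pos volume hne).ne' h1

lemma Slab_deck (hΓ : FibredDeck Γ χ D) (a b : ℝ) (γ : Γ) (x : E n) :
    γ • x ∈ Slab n a b ↔ x ∈ Slab n a b := by
  show (γ • x) 0 ∈ Om a b ↔ x 0 ∈ Om a b
  rw [hΓ.height]
  exact Om_add_int a b (χ γ) (x 0)

lemma rho_full (hΓ : FibredDeck Γ χ D) (hinv : DeckInvariant Γ G) {a b : ℝ} (hab : a < b) :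
    0 < rho G D (Om a b) := by
  rw [pos_iff_ne_zero]
  intro h0
  rw [rho_apply hΓ (Om_open a b).measurableSet] at h0
  have : ContinuousConstSMul Γ (E n) := ⟨smul_cont hΓ⟩
  have := mu_invariant hΓ hinv
  have := deck_countable hΓ
  have h1 := (fundamental hΓ G).measure_zero_of_invariant (Slab n a b) (fun γ => by
    ext x
    rw [mem_smul_set_iff_inv_smul_mem]
    exact Slab_deck hΓ a b γ⁻¹ x) h0
  have h2 : (Slab n a b).Nonempty := by
    refine ⟨cns ((a + b) / 2) 0, 0, ?_, ?_⟩
    · simp only [cns_zero, Int.cast_zero]; linarith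
    · simp only [cns_zero, Int.cast_zero]; linarith
  exact (mu_pos (Slab_open a b) h2).ne' h1

lemma rho_mean (hΓ : FibredDeck Γ χ D) (hinv : DeckInvariant Γ G) (hC : CMCFibres G) :
    ∫ t, hB G t ∂(rho G D) = 0 := by
  unfold rho
  rw [integral_map coord_meas.aemeasurable (hB_cont G).aestronglyMeasurable]
  exact mean_zero hΓ hinv hC

theorem two_CMCD (hΓ : FibredDeck Γ χ D) (hinv : DeckInvariant Γ G) (hC : CMCFibres G) (v : ℝ)
    (hv0 : 0 < v) (hv1 : v < volD G D univ) :
    ∃ S₁ S₂ : Set (E n), S₁ ≠ S₂ ∧ ClosedCMCD Γ G D v S₁ ∧ ClosedCMCD Γ G D v S₂ := by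
  have := rho_finite (G := G) hΓ
  have hu : (rho G D).real univ = volD G D univ := by
    rw [rho_real hΓ MeasurableSet.univ]
    congr 1
  rw [← hu] at hv1
  have hper := hB_periodic hΓ hinv hC
  obtain ⟨b, hb, a₁, a₂, hc1, hc2, hne⟩ := core_measure (rho G D) (rho_atom hΓ)
    (fun a b hab => rho_full hΓ hinv hab) (hB G) (hB_cont G) hper (rho_mean hΓ hinv hC) v hv0 hv1
  have hvol : ∀ a, volD G D (Slab n a (b a)) = v := fun a => by
    rw [← (hb a).2.2, rho_real hΓ (Om_open a (b a)).measurableSet]
    rfl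
  refine ⟨frontier (Slab n a₁ (b a₁)), frontier (Slab n a₂ (b a₂)), ?_, ?_, ?_⟩
  · rw [Slab_frontier (hb a₁).1 (hb a₁).2.1, Slab_frontier (hb a₂).1 (hb a₂).2.1]
    intro hS
    apply hne
    ext t
    have := Set.ext_iff.1 hS (cns t 0)
    exact this
  · exact ⟨_, Slab_open _ _, Slab_deck hΓ _ _, hvol a₁, rfl,
      SlabD_CMC hper hC (hb a₁).1 (hb a₁).2.1 hc1⟩
  · exact ⟨_, Slab_open _ _, Slab_deck hΓ _ _, hvol a₂, rfl,
      SlabD_CMC hper hC (hb a₂).1 (hb a₂).2.1 hc2⟩

end

end Pool.Agent.H93.CMC
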