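import Pool.Agent.H93.CMC.GDefs

/-!
# Closed Riemannian manifolds fibred over the circle

A smooth Riemannian manifold `(M, g)` of dimension `n + 1` is given by an atlas of parametrizations
`ψ_i : ℝ^(n+1) → M` together with the coefficient matrix `g_i` of `g` in each of these charts. Every
smooth Riemannian manifold has such an atlas, since every point has a neighbourhood diffeomorphic to
`ℝ^(n+1)`.
-/

open MeasureTheory Set Filter Topology

noncomputable section

namespace Pool.Agent.H93.CMC

variable {n : ℕ}

/-- A smooth Riemannian manifold of dimension `n + 1`: a topological space `M` covered by open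
embeddings `ψ_i : ℝ^(n+1) → M` whose transition maps `φ = ψ_j⁻¹ ∘ ψ_i` are smooth and isometries for
smooth Riemannian metrics `g_i` on `ℝ^(n+1)` (the expressions of `g` in the charts). -/
structure RiemMfd (n : ℕ) (M : Type*) [TopologicalSpace M] where
  /-- the index set of the atlas -/
  ι : Type
  /-- the parametrizations `ψ_i` -/
  param : ι → E n → M
  /-- the metric in the `i`-th chart -/
  metric : ι → Metric n
  isOpenEmbedding : ∀ i, IsOpenEmbedding (param i)
  cover : ∀ p : M, ∃ i x, param i x = p
  transition : ∀ (i j : ι) (x y : E n), param i x = param j y → ∃ φ : E n → E n,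
    ContDiffAt ℝ (⊤ : ℕ∞) φ x ∧ φ x = y ∧ (∀ᶠ z in 𝓝 x, param j (φ z) = param i z) ∧
      (jac φ x).transpose * (metric j).g y * jac φ x = (metric i).g x

variable {M : Type*} [TopologicalSpace M]

/-- `μ` is the Riemannian volume measure of `M`: in the `i`-th chart it is `√(det g_i) dx`. -/
def IsVolume [MeasurableSpace M] (X : RiemMfd n M) (μ : Measure M) : Prop :=
  ∀ (i : X.ι) (s : Set M), MeasurableSet s → s ⊆ range (X.param i) →
    μ s = ∫⁻ x in X.param i ⁻¹' s, ENNReal.ofReal (dens (X.metric i) x)

/-- The open set `Ω` has smooth embedded boundary of constant mean curvature: in each chart, near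
each boundary point, `Ω` is the sublevel set `{u < 0}` and `∂Ω` the level set `{u = 0}` of a smooth
function `u` without critical points, and the mean curvature of `∂Ω` with respect to the outer unit
normal `∇u / |∇u|` is the same constant `H` at all points of `∂Ω`. -/
def CMCBoundaryM (X : RiemMfd n M) (Ω : Set M) : Prop :=
  ∃ H : ℝ, ∀ (i : X.ι) (p : E n), X.param i p ∈ frontier Ω →
    ∃ (U : Set (E n)) (u : E n → ℝ), IsOpen U ∧ p ∈ U ∧ ContDiff ℝ (⊤ : ℕ∞) u ∧
      (∀ x ∈ U, fderiv ℝ u x ≠ 0) ∧ (∀ x ∈ U, X.param i x ∈ Ω ↔ u x < 0) ∧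
      (∀ x ∈ U, X.param i x ∈ frontier Ω ↔ u x = 0) ∧
      ∀ x ∈ U, u x = 0 → meanCurv (X.metric i) u x = H

/-- `S` is a closed CMC hypersurface of the closed Riemannian manifold `M` with volume measure `μ`
enclosing volume `v`: `S = ∂Ω` is the nonempty boundary of an open subset `Ω` of `M` of volume `v`,
it is smooth, embedded and of constant mean curvature. -/
def ClosedCMCM [MeasurableSpace M] (X : RiemMfd n M) (μ : Measure M) (v : ℝ) (S : Set M) : Prop :=
  S.Nonempty ∧ ∃ Ω : Set M, IsOpen Ω ∧ μ.real Ω = v ∧ S = frontier Ω ∧ CMCBoundaryM X Ω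

/-- `θ : M → ℝ/ℤ` is a smooth submersion (for `M` compact, a fibration over the circle) and all its
fibres have constant mean curvature: `θ` is given in the `i`-th chart by a smooth function `u` without
critical points, and the mean curvature of its fibres depends only on the point of the circle. -/
def CMCFibration (X : RiemMfd n M) (θ : M → AddCircle (1 : ℝ)) : Prop :=
  ∃ h : AddCircle (1 : ℝ) → ℝ, ∀ i : X.ι, ∃ u : E n → ℝ, ContDiff ℝ (⊤ : ℕ∞) u ∧
    (∀ x, fderiv ℝ u x ≠ 0) ∧ (∀ x, θ (X.param i x) = (u x : AddCircle (1 : ℝ))) ∧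
    ∀ x, meanCurv (X.metric i) u x = h (θ (X.param i x))

/-- A function on `M` is smooth if it is smooth in all charts. -/
def SmoothM (X : RiemMfd n M) (f : M → ℝ) : Prop :=
  ∀ i, ContDiff ℝ (⊤ : ℕ∞) fun x => f (X.param i x)

end Pool.Agent.H93.CMC
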