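import Pool.Agent.H93.CMC.MDefs
import Pool.Agent.H93.CMC.Gen2

open MeasureTheory Set Filter Topology Matrix

noncomputable section

namespace Pool.Agent.H93.CMC

variable {n : ℕ}

/-- differential as a vector -/
def dv (u : E n → ℝ) (x : E n) : E n := fun k => pd k u x

lemma dv_ne {u : E n → ℝ} {x : E n} (h : fderiv ℝ u x ≠ 0) : dv u x ≠ 0 := by
  intro h0
  apply h
  ext w
  have hw : w = ∑ i, w i • (Pi.single i (1:ℝ) : E n) := by
    funext k
    simp [Finset.sum_apply, Pi.single_apply]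
  rw [hw, map_sum]
  simp only [map_smul]
  have : ∀ i, fderiv ℝ u x (Pi.single i 1) = 0 := fun i => congrFun h0 i
  simp [this]

lemma grad_eq (G : Metric n) (u : E n → ℝ) (x : E n) :
    (fun i => grad G u i x) = (G.g x)⁻¹ *ᵥ dv u x := by
  funext i
  unfold grad
  rfl

lemma gradNorm_eq (G : Metric n) (u : E n → ℝ) (x : E n) :
    gradNorm G u x = √(dv u x ⬝ᵥ ((G.g x)⁻¹ *ᵥ dv u x)) := by
  unfold gradNorm
  rfl

lemma gradsq_pos (G : Metric n) {u : E n → ℝ} {x : E n} (h : fderiv ℝ u x ≠ 0) :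
    0 < ∑ i, pd i u x * grad G u i x := by
  have h1 := (G.posDef x).inv.dotProduct_mulVec_pos (dv_ne h)
  simp only [star_trivial] at h1
  exact h1

lemma gradNorm_pos (G : Metric n) {u : E n → ℝ} {x : E n} (h : fderiv ℝ u x ≠ 0) :
    0 < gradNorm G u x := Real.sqrt_pos.2 (gradsq_pos G h)

lemma pd_contDiff (i : Fin (n + 1)) {f : E n → ℝ} (hf : ContDiff ℝ (⊤ : ℕ∞) f) :
    ContDiff ℝ (⊤ : ℕ∞) (pd i f) := by
  unfold pd
  exact (hf.fderiv_right (m := (⊤ : ℕ∞)) (by simp)).clm_apply contDiff_const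

section

variable (G : Metric n) {u : E n → ℝ}

lemma grad_contDiff (hu : ContDiff ℝ (⊤ : ℕ∞) u) (i : Fin (n + 1)) :
    ContDiff ℝ (⊤ : ℕ∞) (grad G u i) := by
  unfold grad
  exact ContDiff.sum fun j _ => (inv_contDiff G i j).mul (pd_contDiff j hu)

lemma gradNorm_contDiff (hu : ContDiff ℝ (⊤ : ℕ∞) u) (hd : ∀ x, fderiv ℝ u x ≠ 0) :
    ContDiff ℝ (⊤ : ℕ∞) (gradNorm G u) := by
  unfold gradNorm
  refine ContDiff.sqrt (ContDiff.sum fun i _ => (pd_contDiff i hu).mul (grad_contDiff G hu i)) ?_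
  exact fun x => (gradsq_pos G (hd x)).ne'

/-- the components of the unit normal field -/
def nu (u : E n → ℝ) (k : Fin (n + 1)) (x : E n) : ℝ := grad G u k x / gradNorm G u x

/-- the flux components -/
def FU (u : E n → ℝ) (k : Fin (n + 1)) (x : E n) : ℝ := dens G x * grad G u k x / gradNorm G u x

/-- the derivative in the direction of the unit normal field -/
def NdU (u f : E n → ℝ) (x : E n) : ℝ := ∑ k, pd k f x * nu G u k x

lemma nu_contDiff (hu : ContDiff ℝ (⊤ : ℕ∞) u) (hd : ∀ x, fderiv ℝ u x ≠ 0) (k : Fin (n + 1)) :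
    ContDiff ℝ (⊤ : ℕ∞) (nu G u k) := by
  unfold nu
  exact (grad_contDiff G hu k).div (gradNorm_contDiff G hu hd) fun x => (gradNorm_pos G (hd x)).ne'

lemma FU_eq (k : Fin (n + 1)) (x : E n) : FU G u k x = dens G x * nu G u k x := by
  unfold FU nu; ring

lemma FU_contDiff (hu : ContDiff ℝ (⊤ : ℕ∞) u) (hd : ∀ x, fderiv ℝ u x ≠ 0) (k : Fin (n + 1)) :
    ContDiff ℝ (⊤ : ℕ∞) (FU G u k) := by
  have : FU G u k = fun x => dens G x * nu G u k x := funext fun x => FU_eq G k x
  rw [this]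
  exact (dens_contDiff G).mul (nu_contDiff G hu hd k)

lemma div_FU (x : E n) : ∑ k, pd k (FU G u k) x = dens G x * meanCurv G u x := by
  unfold meanCurv
  rw [← mul_assoc, mul_inv_cancel₀ (dens_pos G x).ne', one_mul]
  rfl

lemma meanCurv_cont (hu : ContDiff ℝ (⊤ : ℕ∞) u) (hd : ∀ x, fderiv ℝ u x ≠ 0) :
    Continuous (meanCurv G u) := by
  unfold meanCurv
  refine ((dens_contDiff G).continuous.inv₀ fun x => (dens_pos G x).ne').mul ?_
  exact continuous_finsetSum _ fun i _ => pd_continuous i (FU_contDiff G hu hd i)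

lemma NdU_cont (hu : ContDiff ℝ (⊤ : ℕ∞) u) (hd : ∀ x, fderiv ℝ u x ≠ 0) {f : E n → ℝ}
    (hf : ContDiff ℝ (⊤ : ℕ∞) f) : Continuous (NdU G u f) := by
  unfold NdU
  exact continuous_finsetSum _ fun i _ => (pd_continuous i hf).mul (nu_contDiff G hu hd i).continuous

end

/-- change of charts for the unit normal field -/
lemma nu_transf (G G' : Metric n) {u u' : E n → ℝ} {φ : E n → E n} {x : E n}
    (hφ : DifferentiableAt ℝ φ x) (hu' : DifferentiableAt ℝ u' (φ x))
    (hJ : (jac φ x).transpose * G'.g (φ x) * jac φ x = G.g x) {c : ℝ}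
    (hu : u =ᶠ[𝓝 x] fun z => u' (φ z) + c) (k : Fin (n + 1)) :
    nu G' u' k (φ x) = ∑ l, jac φ x k l * nu G u l x := by
  set J := jac φ x with hJdef
  have hdet : IsUnit J.det := by
    refine isUnit_iff_ne_zero.2 fun h0 => ?_
    have h := congrArg Matrix.det hJ
    rw [Matrix.det_mul, Matrix.det_mul, Matrix.det_transpose, h0] at h
    have := det_pos G x
    rw [← h] at this
    simp at this
  have hgu : IsUnit (G.g x).det := (det_pos G x).ne'.isUnit
  have hinv : (G'.g (φ x))⁻¹ = J * (G.g x)⁻¹ * J.transpose := by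
    apply Matrix.inv_eq_left_inv
    have h2 : J.transpose * G'.g (φ x) = G.g x * J⁻¹ := by
      rw [← hJ, Matrix.mul_assoc, Matrix.mul_nonsing_inv _ hdet, Matrix.mul_one]
    rw [Matrix.mul_assoc, h2, Matrix.mul_assoc, ← Matrix.mul_assoc (G.g x)⁻¹,
      Matrix.nonsing_inv_mul _ hgu, Matrix.one_mul, Matrix.mul_nonsing_inv _ hdet]
  have hdu : dv u x = J.transpose *ᵥ dv u' (φ x) := by
    funext l
    have h1 : pd l u x = pd l (fun z => u' (φ z)) x := by
      unfold pd
      rw [hu.fderiv_eq, fderiv_add_const]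
    unfold dv
    rw [h1, pd_comp hu' hφ]
    simp only [Matrix.mulVec, dotProduct, Matrix.transpose_apply]
    exact Finset.sum_congr rfl fun i _ => mul_comm _ _
  have hgr : (G'.g (φ x))⁻¹ *ᵥ dv u' (φ x) = J *ᵥ ((G.g x)⁻¹ *ᵥ dv u x) := by
    rw [hinv, hdu, Matrix.mulVec_mulVec, Matrix.mulVec_mulVec, Matrix.mul_assoc]
  have hnorm : gradNorm G' u' (φ x) = gradNorm G u x := by
    rw [gradNorm_eq, gradNorm_eq, hgr]
    congr 1
    conv_rhs => rw [hdu]
    rw [Matrix.dotProduct_mulVec, ← Matrix.mulVec_transpose, ← hdu]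
  have hg : grad G' u' k (φ x) = ∑ l, J k l * grad G u l x := by
    have e1 := congrFun (grad_eq G' u' (φ x)) k
    rw [hgr, ← grad_eq G u x] at e1
    exact e1
  unfold nu
  rw [hnorm, hg, Finset.sum_div]
  exact Finset.sum_congr rfl fun l _ => by ring

/-- the derivative in the direction of the unit normal field does not depend on the chart -/
lemma NdU_transf (G G' : Metric n) {u u' f f' : E n → ℝ} {φ : E n → E n} {x : E n}
    (hφ : DifferentiableAt ℝ φ x) (hu' : DifferentiableAt ℝ u' (φ x))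
    (hJ : (jac φ x).transpose * G'.g (φ x) * jac φ x = G.g x) {c : ℝ}
    (hu : u =ᶠ[𝓝 x] fun z => u' (φ z) + c) (hf' : DifferentiableAt ℝ f' (φ x))
    (hf : f =ᶠ[𝓝 x] fun z => f' (φ z)) : NdU G u f x = NdU G' u' f' (φ x) := by
  unfold NdU
  have h1 : ∀ j, pd j f x = ∑ i, pd i f' (φ x) * jac φ x i j := by
    intro j
    have : pd j f x = pd j (fun z => f' (φ z)) x := by
      unfold pd
      rw [hf.fderiv_eq]
    rw [this, pd_comp hf' hφ]
  simp only [h1, nu_transf G G' hφ hu' hJ hu, Finset.mul_sum, Finset.sum_mul]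
  rw [Finset.sum_comm]
  refine Finset.sum_congr rfl fun i _ => Finset.sum_congr rfl fun j _ => ?_
  ring

/-- weak form of `div ν = h` -/
lemma weakU (G : Metric n) {u : E n → ℝ} (hu : ContDiff ℝ (⊤ : ℕ∞) u) (hd : ∀ x, fderiv ℝ u x ≠ 0)
    {f : E n → ℝ} (hf : ContDiff ℝ (⊤ : ℕ∞) f) (hfc : HasCompactSupport f) :
    ∫ x, f x * meanCurv G u x ∂(mu G) = - ∫ x, NdU G u f x ∂(mu G) := by
  rw [int_mu, int_mu]
  have h1 : ∀ x, dens G x * (f x * meanCurv G u x) = ∑ i, f x * pd i (FU G u i) x := by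
    intro x
    rw [← Finset.mul_sum, div_FU]; ring
  have h2 : ∀ x, dens G x * NdU G u f x = ∑ i, pd i f x * FU G u i x := by
    intro x
    unfold NdU
    rw [Finset.mul_sum]
    refine Finset.sum_congr rfl fun i _ => ?_
    rw [FU_eq]; ring
  simp only [h1, h2]
  have hF := FU_contDiff G hu hd
  have hcont : ∀ i, Continuous fun x => f x * pd i (FU G u i) x := fun i =>
    hf.continuous.mul (pd_continuous i (hF i))
  have hsupp1 : ∀ i, HasCompactSupport fun x => f x * pd i (FU G u i) x := fun i => hfc.mul_right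
  have hpdc : ∀ i, HasCompactSupport (pd i f) := by
    intro i
    have h3 := hfc.fderiv (𝕜 := ℝ)
    exact h3.comp_left (g := fun L : E n →L[ℝ] ℝ => L (Pi.single i 1)) (by simp)
  have hsupp2 : ∀ i, HasCompactSupport fun x => pd i f x * FU G u i x := fun i => (hpdc i).mul_right
  have hcont2 : ∀ i, Continuous fun x => pd i f x * FU G u i x := fun i =>
    (pd_continuous i hf).mul (hF i).continuous
  have hint1 : ∀ i, Integrable fun x => f x * pd i (FU G u i) x := fun i =>
    (hcont i).integrable_of_hasCompactSupport (hsupp1 i)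
  have hint2 : ∀ i, Integrable fun x => pd i f x * FU G u i x := fun i =>
    (hcont2 i).integrable_of_hasCompactSupport (hsupp2 i)
  have hint3 : ∀ i, Integrable fun x => f x * FU G u i x := fun i =>
    (hf.continuous.mul (hF i).continuous).integrable_of_hasCompactSupport hfc.mul_right
  rw [integral_finsetSum _ fun i _ => hint1 i, integral_finsetSum _ fun i _ => hint2 i,
    ← Finset.sum_neg_distrib]
  refine Finset.sum_congr rfl fun i _ => ?_
  exact integral_mul_fderiv_eq_neg_fderiv_mul_of_integrable (hint2 i) (hint1 i) (hint3 i)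
    (fun x _ => (hf.differentiable (by simp)) x)
    (fun x _ => ((hF i).differentiable (by simp)) x)

end Pool.Agent.H93.CMC
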