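import Pool.Agent.H93.CMC.MGen2
import Pool.Agent.H81.CMC.PartM
import Pool.Agent.H93.CMC.Slab

open MeasureTheory Set Filter Topology Matrix

noncomputable section

namespace Pool.Agent.H93.CMC

variable {n : ℕ}

/-- level sets of submersions are null sets -/
lemma level_null {u : E n → ℝ} (hu : ContDiff ℝ (⊤ : ℕ∞) u) (hd : ∀ x, fderiv ℝ u x ≠ 0) (c : ℝ) :
    (volume : Measure (E n)) {x | u x = c} = 0 := by
  refine measure_null_of_locally_null _ fun x hx => ?_
  obtain ⟨w, hw⟩ : ∃ w, 0 < fderiv ℝ u x w := by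
    obtain ⟨w, hw⟩ : ∃ w, fderiv ℝ u x w ≠ 0 := by
      by_contra hcon
      push Not at hcon
      exact hd x (ContinuousLinearMap.ext hcon)
    rcases lt_or_gt_of_ne hw with h | h
    · exact ⟨-w, by rw [map_neg]; linarith⟩
    · exact ⟨w, h⟩
  have hcf : Continuous fun z => fderiv ℝ u z w :=
    (hu.continuous_fderiv (by simp)).clm_apply continuous_const
  obtain ⟨r, hr, hball⟩ := _root_.Metric.isOpen_iff.1 (isOpen_lt continuous_const hcf) x hw
  have hclosed : IsClosed {x | u x = c} := isClosed_eq hu.continuous continuous_const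
  refine ⟨_root_.Metric.ball x r ∩ {x | u x = c}, ?_, ?_⟩
  · exact inter_mem (mem_nhdsWithin_of_mem_nhds (_root_.Metric.ball_mem_nhds x hr)) self_mem_nhdsWithin
  · have hm : MeasurableSet (_root_.Metric.ball x r ∩ {x | u x = c}) :=
      measurableSet_ball.inter hclosed.measurableSet
    have key := ae_mem_of_ae_add_linearMap_mem (LinearMap.toSpanSingleton ℝ (E n) w)
      (volume : Measure ℝ) (volume : Measure (E n)) hm.compl (fun y => ?_)
    · have := measure_eq_zero_iff_ae_notMem.2 key
      exact this
    · have hsub : {t : ℝ | y + t • w ∈ _root_.Metric.ball x r ∩ {x | u x = c}}.Subsingleton := by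
        have hlt : ∀ s t : ℝ, s < t → y + s • w ∈ _root_.Metric.ball x r ∩ {x | u x = c} →
            y + t • w ∈ _root_.Metric.ball x r ∩ {x | u x = c} → False := by
          intro s t hst hs ht
          have hline : ∀ τ : ℝ, HasDerivAt (fun τ : ℝ => u (y + τ • w))
              (fderiv ℝ u (y + τ • w) w) τ := by
            intro τ
            have h1 : HasDerivAt (fun τ : ℝ => y + τ • w) w τ := by
              simpa using ((hasDerivAt_id τ).smul_const w).const_add y
            exact (((hu.differentiable (by simp)) _).hasFDerivAt).comp_hasDerivAt τ h1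
          have hmono : StrictMonoOn (fun τ : ℝ => u (y + τ • w)) (Icc s t) := by
            refine strictMonoOn_of_deriv_pos (convex_Icc s t)
              (fun τ _ => (hline τ).continuousAt.continuousWithinAt) fun τ hτ => ?_
            rw [interior_Icc] at hτ
            rw [(hline τ).deriv]
            apply hball
            have hconv := (convex_ball x r).segment_subset hs.1 ht.1
            apply hconv
            refine ⟨(t - τ) / (t - s), (τ - s) / (t - s), ?_, ?_, ?_, ?_⟩
            · exact div_nonneg (by linarith [hτ.2]) (by linarith)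
            · exact div_nonneg (by linarith [hτ.1]) (by linarith)
            · have : t - s ≠ 0 := by linarith
              field_simp; ring
            · have : t - s ≠ 0 := by linarith
              ext i
              simp only [Pi.add_apply, Pi.smul_apply, smul_eq_mul]
              field_simp; ring
          have h2 := hmono (left_mem_Icc.2 hst.le) (right_mem_Icc.2 hst.le) hst
          have e1 : u (y + s • w) = c := hs.2
          have e2 : u (y + t • w) = c := ht.2
          simp only [e1, e2, lt_self_iff_false] at h2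
        intro s hs t ht
        by_contra hne
        rcases lt_or_gt_of_ne hne with h | h
        · exact hlt s t h hs ht
        · exact hlt t s h ht hs
      have h0 : (volume : Measure ℝ) {t : ℝ | y + t • w ∈ _root_.Metric.ball x r ∩ {x | u x = c}} = 0 :=
        hsub.measure_zero _
      have h1 := measure_eq_zero_iff_ae_notMem.1 h0
      filter_upwards [h1] with t ht
      exact ht

section

variable {M : Type*} [TopologicalSpace M] {X : RiemMfd n M} {θ : M → AddCircle (1 : ℝ)}
  {h : AddCircle (1 : ℝ) → ℝ} {u : X.ι → E n → ℝ}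

lemma theta_open (H : FibData X θ h u) : IsOpenMap θ := by
  rw [isOpenMap_iff_nhds_le]
  intro q
  obtain ⟨i, x, rfl⟩ := X.cover q
  have h1 : IsOpenMap fun z : E n => ((u i z : ℝ) : AddCircle (1 : ℝ)) :=
    QuotientAddGroup.isOpenMap_coe.comp (isOpenMap_of_fderiv_ne (H.smooth i) (H.ne i))
  have h2 := h1.nhds_le x
  have h3 : (fun z : E n => ((u i z : ℝ) : AddCircle (1 : ℝ))) = θ ∘ X.param i := by
    funext z
    exact (H.lift i z).symm
  rw [h3, ← Filter.map_map, (X.isOpenEmbedding i).map_nhds_eq] at h2
  rw [H.lift i x]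
  exact h2

lemma theta_surj [CompactSpace M] [Nonempty M] (H : FibData X θ h u) : Function.Surjective θ := by
  have hc : IsClopen (range θ) :=
    ⟨(isCompact_range (theta_cont H)).isClosed, (theta_open H).isOpen_range⟩
  rw [← range_eq_univ]
  exact hc.eq_univ (range_nonempty θ)

lemma h_cont [CompactSpace M] [Nonempty M] (H : FibData X θ h u) : Continuous h := by
  have hq : IsQuotientMap θ := (theta_open H).isQuotientMap (theta_cont H) (theta_surj H)
  rw [hq.continuous_iff]
  exact hθ_cont H

/-- slab in `M` -/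
def SlM (θ : M → AddCircle (1 : ℝ)) (a b : ℝ) : Set M :=
  {q | ∃ t ∈ Om a b, (t : AddCircle (1 : ℝ)) = θ q}

lemma mem_SlM (a b : ℝ) {q : M} {t : ℝ} (ht : θ q = (t : AddCircle (1 : ℝ))) :
    q ∈ SlM θ a b ↔ t ∈ Om a b := by
  constructor
  · rintro ⟨s, hs, hs'⟩
    rw [ht] at hs'
    obtain ⟨k, hk⟩ := coe_eq_int hs'
    have : s = t + k := by linarith
    rw [this] at hs
    exact (Om_add_int a b k t).1 hs
  · intro h
    exact ⟨t, h, ht.symm⟩

lemma SlM_param (H : FibData X θ h u) (a b : ℝ) (i : X.ι) (x : E n) :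
    X.param i x ∈ SlM θ a b ↔ u i x ∈ Om a b := mem_SlM a b (H.lift i x)

lemma SlM_open (H : FibData X θ h u) (a b : ℝ) : IsOpen (SlM θ a b) := by
  have : SlM θ a b = θ ⁻¹' ((fun t : ℝ => (t : AddCircle (1 : ℝ))) '' Om a b) := by
    ext q; rfl
  rw [this]
  exact (QuotientAddGroup.isOpenMap_coe _ (Om_open a b)).preimage (theta_cont H)

section measure

variable [MeasurableSpace M] [BorelSpace M] {μ : Measure M}

/-- a section of the covering `ℝ → ℝ/ℤ` -/
def sec (t : AddCircle (1 : ℝ)) : ℝ := (AddCircle.equivIco 1 0 t : ℝ)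

instance : Fact ((0 : ℝ) < 1) := ⟨one_pos⟩

lemma sec_coe (t : AddCircle (1 : ℝ)) : ((sec t : ℝ) : AddCircle (1 : ℝ)) = t :=
  AddCircle.coe_equivIco

lemma sec_meas : Measurable sec :=
  measurable_subtype_coe.comp (AddCircle.measurableEquivIco 1 0).measurable

/-- image of the volume -/
def rhoM (θ : M → AddCircle (1 : ℝ)) (μ : Measure M) : Measure ℝ := μ.map fun q => sec (θ q)

lemma secθ_meas (H : FibData X θ h u) : Measurable fun q => sec (θ q) :=
  sec_meas.comp (theta_cont H).measurable

lemma rhoM_Om (H : FibData X θ h u) (a b : ℝ) : rhoM θ μ (Om a b) = μ (SlM θ a b) := by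
  unfold rhoM
  rw [Measure.map_apply (secθ_meas H) (Om_open a b).measurableSet]
  congr 1
  ext q
  exact (mem_SlM a b (sec_coe (θ q)).symm).symm

lemma rhoM_univ (H : FibData X θ h u) : rhoM θ μ univ = μ univ := by
  unfold rhoM
  rw [Measure.map_apply (secθ_meas H) MeasurableSet.univ, preimage_univ]

lemma null_of_charts (hμ : IsVolume X μ) [CompactSpace M] {s : Set M} (hs : MeasurableSet s)
    (h0 : ∀ i, (volume : Measure (E n)) (X.param i ⁻¹' s) = 0) : μ s = 0 := by
  obtain ⟨F, hF⟩ := isCompact_univ.elim_finite_subcover (fun i : X.ι => range (X.param i))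
    (fun i => (X.isOpenEmbedding i).isOpen_range) (fun q _ => by
      obtain ⟨i, x, hx⟩ := X.cover q
      exact mem_iUnion.2 ⟨i, x, hx⟩)
  have hsub : s ⊆ ⋃ i ∈ F, (s ∩ range (X.param i)) := by
    intro q hq
    have := hF (mem_univ q)
    simp only [mem_iUnion] at this ⊢
    obtain ⟨i, hi, hqi⟩ := this
    exact ⟨i, hi, hq, hqi⟩
  refine measure_mono_null hsub ((measure_biUnion_null_iff F.countable_toSet).2 fun i _ => ?_)
  rw [hμ i _ (hs.inter (X.isOpenEmbedding i).isOpen_range.measurableSet) inter_subset_right]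
  have : X.param i ⁻¹' (s ∩ range (X.param i)) = X.param i ⁻¹' s := by
    ext x; simp
  rw [this, Measure.restrict_eq_zero.2 (h0 i), lintegral_zero_measure]

lemma rhoM_atom [CompactSpace M] (H : FibData X θ h u) (hμ : IsVolume X μ) (c : ℝ) :
    rhoM θ μ {c} = 0 := by
  unfold rhoM
  rw [Measure.map_apply (secθ_meas H) (measurableSet_singleton c)]
  have hcl : IsClosed (θ ⁻¹' {(c : AddCircle (1 : ℝ))}) := isClosed_singleton.preimage (theta_cont H)
  refine measure_mono_null (t := θ ⁻¹' {(c : AddCircle (1 : ℝ))}) ?_ ?_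
  · intro q hq
    have h1 : sec (θ q) = c := hq
    show θ q = (c : AddCircle (1 : ℝ))
    rw [← h1, sec_coe]
  · refine null_of_charts hμ hcl.measurableSet fun i => ?_
    have hsub : X.param i ⁻¹' (θ ⁻¹' {(c : AddCircle (1 : ℝ))}) ⊆ ⋃ k : ℤ, {x | u i x = c + k} := by
      intro x hx
      have h1 : θ (X.param i x) = (c : AddCircle (1 : ℝ)) := hx
      rw [H.lift] at h1
      obtain ⟨k, hk⟩ := coe_eq_int h1
      refine mem_iUnion.2 ⟨k, ?_⟩
      show u i x = c + k
      linarith
    exact measure_mono_null hsub (measure_iUnion_null fun k => level_null (H.smooth i) (H.ne i) _)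

lemma rhoM_full [CompactSpace M] [Nonempty M] (H : FibData X θ h u) (hμ : IsVolume X μ) {a b : ℝ}
    (hab : a < b) : 0 < rhoM θ μ (Om a b) := by
  rw [rhoM_Om H]
  obtain ⟨q, hq⟩ := theta_surj H ((((a + b) / 2 : ℝ)) : AddCircle (1 : ℝ))
  have hqm : q ∈ SlM θ a b := by
    refine (mem_SlM a b hq).2 ⟨0, ?_, ?_⟩
    · simp only [Int.cast_zero]; linarith
    · simp only [Int.cast_zero]; linarith
  obtain ⟨i, x, rfl⟩ := X.cover q
  have ho : IsOpen (X.param i ⁻¹' SlM θ a b) :=
    (SlM_open H a b).preimage (X.isOpenEmbedding i).continuous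
  have h1 : 0 < mu (X.metric i) (X.param i ⁻¹' SlM θ a b) := by
    rw [pos_iff_ne_zero]
    intro h0
    have hm := ho.measurableSet
    unfold mu at h0
    rw [withDensity_apply _ hm, lintegral_eq_zero_iff (dens_meas _)] at h0
    have h1 : ∀ᵐ x ∂(volume.restrict (X.param i ⁻¹' SlM θ a b)), False := by
      filter_upwards [h0] with x hx
      have := dens_pos (X.metric i) x
      simp only [Pi.zero_apply, ENNReal.ofReal_eq_zero] at hx
      linarith
    rw [Filter.eventually_false_iff_eq_bot, ae_eq_bot, Measure.restrict_eq_zero] at h1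
    exact (ho.measure_pos volume ⟨x, hqm⟩).ne' h1
  have h2 : mu (X.metric i) (X.param i ⁻¹' SlM θ a b) = μ (SlM θ a b ∩ range (X.param i)) := by
    have hme := (X.isOpenEmbedding i).measurableEmbedding
    rw [← Measure.restrict_apply (SlM_open H a b).measurableSet, restrict_chart hμ,
      hme.map_apply]
  rw [h2] at h1
  exact h1.trans_le (measure_mono inter_subset_left)

lemma rhoM_mean [CompactSpace M] [T2Space M] [Nonempty M] [IsFiniteMeasure μ]
    (H : FibData X θ h u) (hμ : IsVolume X μ) : ∫ t, h (t : AddCircle (1 : ℝ)) ∂(rhoM θ μ) = 0 := by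
  have hc : Continuous fun t : ℝ => h (t : AddCircle (1 : ℝ)) :=
    (h_cont H).comp (AddCircle.continuous_mk' (1:ℝ))
  unfold rhoM
  rw [integral_map (secθ_meas H).aemeasurable hc.aestronglyMeasurable]
  simp only [sec_coe]
  exact mean_zeroM H hμ (exists_partitionM X)

end measure

end

end Pool.Agent.H93.CMC
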