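import Pool.Agent.H93.CMC.MGen3
import Pool.Agent.H81.CMC.SlabM
import Pool.Agent.H81.CMC.MeasCore

open MeasureTheory Set Filter Topology Matrix

noncomputable section

namespace Pool.Agent.H93.CMC

variable {n : ℕ} {M : Type*} [TopologicalSpace M] [CompactSpace M] [T2Space M] [MeasurableSpace M]
  [BorelSpace M]

theorem two_CMCM (X : RiemMfd n M) (μ : Measure M) (hμ : IsVolume X μ) (θ : M → AddCircle (1 : ℝ))
    (hθ : CMCFibration X θ) (v : ℝ) (hv0 : 0 < v) (hv1 : v < μ.real univ) :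
    ∃ S₁ S₂ : Set M, S₁ ≠ S₂ ∧ ClosedCMCM X μ v S₁ ∧ ClosedCMCM X μ v S₂ := by
  obtain ⟨h, u, H⟩ := fibData_of hθ
  have hpos : 0 < μ.real univ := hv0.trans hv1
  have hfin : IsFiniteMeasure μ := by
    constructor
    rw [lt_top_iff_ne_top]
    intro htop
    rw [measureReal_def, htop] at hpos
    simp at hpos
  have hne : Nonempty M := by
    by_contra hemp
    rw [not_nonempty_iff] at hemp
    have : (univ : Set M) = ∅ := eq_empty_of_isEmpty _
    rw [this] at hpos
    simp at hpos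
  have hρfin : IsFiniteMeasure (rhoM θ μ) := by
    constructor
    rw [rhoM_univ H]
    exact measure_lt_top μ univ
  have hρu : (rhoM θ μ).real univ = μ.real univ := by
    rw [measureReal_def, measureReal_def, rhoM_univ H]
  rw [← hρu] at hv1
  have hhc : Continuous fun t : ℝ => h (t : AddCircle (1 : ℝ)) :=
    (h_cont H).comp (AddCircle.continuous_mk' (1:ℝ))
  obtain ⟨b, hb, a₁, a₂, hc1, hc2, hne12⟩ := core_measure (rhoM θ μ) (rhoM_atom H hμ)
    (fun a b hab => rhoM_full H hμ hab) (fun t : ℝ => h (t : AddCircle (1 : ℝ))) hhc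
    (fun t => by
      show h _ = h _
      congr 1
      have := coe_add_int t 1
      rw [Int.cast_one] at this
      exact this)
    (rhoM_mean H hμ) v hv0 hv1
  have hvol : ∀ a, μ.real (SlabM θ a (b a)) = v := fun a => by
    rw [← (hb a).2.2, measureReal_def, measureReal_def, rhoM_Om H]
    rfl
  have hnon : ∀ a, (frontier (SlabM θ a (b a))).Nonempty := fun a => by
    obtain ⟨q, hq⟩ := theta_surj H (a : AddCircle (1 : ℝ))
    obtain ⟨i, x, rfl⟩ := X.cover q
    refine ⟨X.param i x, (SlabM_frontier H (hb a).1 (hb a).2.1 i x).2 ?_⟩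
    rw [H.lift] at hq
    obtain ⟨k, hk⟩ := coe_eq_int hq
    exact ⟨k, Or.inl (by linarith)⟩
  refine ⟨frontier (SlabM θ a₁ (b a₁)), frontier (SlabM θ a₂ (b a₂)), ?_, ?_, ?_⟩
  · intro hS
    apply hne12
    ext t
    obtain ⟨q, hq⟩ := theta_surj H (t : AddCircle (1 : ℝ))
    obtain ⟨i, x, rfl⟩ := X.cover q
    rw [H.lift] at hq
    obtain ⟨k, hk⟩ := coe_eq_int hq
    have e1 := SlabM_frontier H (hb a₁).1 (hb a₁).2.1 i x
    have e2 := SlabM_frontier H (hb a₂).1 (hb a₂).2.1 i x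
    rw [hS] at e1
    have e3 := e1.symm.trans e2
    have key : ∀ a : ℝ, (∃ l : ℤ, u i x = a + l ∨ u i x = b a + l) ↔
        ∃ l : ℤ, t = a + l ∨ t = b a + l := by
      intro a
      constructor
      · rintro ⟨l, hl | hl⟩
        · exact ⟨l - k, Or.inl (by push_cast; linarith)⟩
        · exact ⟨l - k, Or.inr (by push_cast; linarith)⟩
      · rintro ⟨l, hl | hl⟩
        · exact ⟨l + k, Or.inl (by push_cast; linarith)⟩
        · exact ⟨l + k, Or.inr (by push_cast; linarith)⟩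
    rw [key a₁, key a₂] at e3
    exact e3
  · exact ⟨hnon a₁, _, SlabM_open H _ _, hvol a₁, rfl, SlabM_CMC H (hb a₁).1 (hb a₁).2.1 hc1⟩
  · exact ⟨hnon a₂, _, SlabM_open H _ _, hvol a₂, rfl, SlabM_CMC H (hb a₂).1 (hb a₂).2.1 hc2⟩

end Pool.Agent.H93.CMC
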