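import Pool.Agent.H93.CMC.MIDefs
import Pool.Agent.H93.CMC.MGen3

open MeasureTheory Set Filter Topology Matrix

noncomputable section

namespace Pool.Agent.H93.CMC

variable {n : ℕ}

section chart

variable (G : Metric n) {u : E n → ℝ} {x : E n}

lemma pd_contDiffAt (i : Fin (n + 1)) {f : E n → ℝ} (hf : ContDiffAt ℝ (⊤ : ℕ∞) f x) :
    ContDiffAt ℝ (⊤ : ℕ∞) (pd i f) x := by
  unfold pd
  exact (hf.fderiv_right (m := (⊤ : ℕ∞)) (by simp)).clm_apply contDiffAt_const

lemma grad_contDiffAt (hu : ContDiffAt ℝ (⊤ : ℕ∞) u x) (i : Fin (n + 1)) :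
    ContDiffAt ℝ (⊤ : ℕ∞) (grad G u i) x := by
  unfold grad
  exact ContDiffAt.sum fun j _ => (inv_contDiff G i j).contDiffAt.mul (pd_contDiffAt j hu)

lemma gradNorm_contDiffAt (hu : ContDiffAt ℝ (⊤ : ℕ∞) u x) (hd : fderiv ℝ u x ≠ 0) :
    ContDiffAt ℝ (⊤ : ℕ∞) (gradNorm G u) x := by
  unfold gradNorm
  refine ContDiffAt.sqrt (ContDiffAt.sum fun i _ => (pd_contDiffAt i hu).mul (grad_contDiffAt G hu i)) ?_
  exact (gradsq_pos G hd).ne'

lemma nu_contDiffAt (hu : ContDiffAt ℝ (⊤ : ℕ∞) u x) (hd : fderiv ℝ u x ≠ 0) (k : Fin (n + 1)) :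
    ContDiffAt ℝ (⊤ : ℕ∞) (nu G u k) x := by
  unfold nu
  exact (grad_contDiffAt G hu k).div (gradNorm_contDiffAt G hu hd) (gradNorm_pos G hd).ne'

lemma FU_contDiffAt (hu : ContDiffAt ℝ (⊤ : ℕ∞) u x) (hd : fderiv ℝ u x ≠ 0) (k : Fin (n + 1)) :
    ContDiffAt ℝ (⊤ : ℕ∞) (FU G u k) x := by
  have : FU G u k = fun x => dens G x * nu G u k x := funext fun x => FU_eq G k x
  rw [this]
  exact (dens_contDiff G).contDiffAt.mul (nu_contDiffAt G hu hd k)

lemma meanCurv_contAt (hu : ContDiffAt ℝ (⊤ : ℕ∞) u x) (hd : fderiv ℝ u x ≠ 0) :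
    ContinuousAt (meanCurv G u) x := by
  unfold meanCurv
  refine ((dens_contDiff G).continuous.continuousAt.inv₀ (dens_pos G x).ne').mul ?_
  exact tendsto_finsetSum _ fun i _ => (pd_contDiffAt i (FU_contDiffAt G hu hd i)).continuousAt

/-- weak form of `div ν = h`, local version -/
lemma weakL {V : Set (E n)} (hV : ∀ x ∈ V, ContDiffAt ℝ (⊤ : ℕ∞) u x)
    (hd : ∀ x ∈ V, fderiv ℝ u x ≠ 0) {f : E n → ℝ} (hf : ContDiff ℝ (⊤ : ℕ∞) f)
    (hfc : HasCompactSupport f) (hfV : tsupport f ⊆ V) :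
    ∫ x, f x * meanCurv G u x ∂(mu G) = - ∫ x, NdU G u f x ∂(mu G) := by
  rw [int_mu, int_mu]
  have h1 : ∀ x, dens G x * (f x * meanCurv G u x) = ∑ i, f x * pd i (FU G u i) x := by
    intro x
    rw [← Finset.mul_sum, div_FU]; ring
  have h2 : ∀ x, dens G x * NdU G u f x = ∑ i, pd i f x * FU G u i x := by
    intro x
    unfold NdU
    rw [Finset.mul_sum]
    refine Finset.sum_congr rfl fun i _ => ?_
    rw [FU_eq]; ring
  simp only [h1, h2]
  have hF : ∀ i, ∀ x ∈ V, ContDiffAt ℝ (⊤ : ℕ∞) (FU G u i) x := fun i x hx =>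
    FU_contDiffAt G (hV x hx) (hd x hx) i
  have hcm : ∀ (p q : E n → ℝ), Continuous p → tsupport p ⊆ V → (∀ x ∈ V, ContinuousAt q x) →
      Continuous fun x => p x * q x := by
    intro p q hp hpV hq
    refine continuous_of_tsupport fun x hx => ?_
    have hx' : x ∈ tsupport p := closure_mono (fun z hz => left_ne_zero_of_mul hz) hx
    exact hp.continuousAt.mul (hq x (hpV hx'))
  have hpdc : ∀ i, HasCompactSupport (pd i f) := by
    intro i
    have h3 := hfc.fderiv (𝕜 := ℝ)
    exact h3.comp_left (g := fun L : E n →L[ℝ] ℝ => L (Pi.single i 1)) (by simp)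
  have hpdV : ∀ i, tsupport (pd i f) ⊆ V := fun i =>
    (closure_minimal (fun z hz => pd_supp i hz) (isClosed_tsupport f)).trans hfV
  have hcont : ∀ i, Continuous fun x => f x * pd i (FU G u i) x := fun i =>
    hcm _ _ hf.continuous hfV fun x hx => (pd_contDiffAt i (hF i x hx)).continuousAt
  have hcont2 : ∀ i, Continuous fun x => pd i f x * FU G u i x := fun i =>
    hcm _ _ (pd_continuous i hf) (hpdV i) fun x hx => (hF i x hx).continuousAt
  have hcont3 : ∀ i, Continuous fun x => f x * FU G u i x := fun i =>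
    hcm _ _ hf.continuous hfV fun x hx => (hF i x hx).continuousAt
  have hint1 : ∀ i, Integrable fun x => f x * pd i (FU G u i) x := fun i =>
    (hcont i).integrable_of_hasCompactSupport hfc.mul_right
  have hint2 : ∀ i, Integrable fun x => pd i f x * FU G u i x := fun i =>
    (hcont2 i).integrable_of_hasCompactSupport (hpdc i).mul_right
  have hint3 : ∀ i, Integrable fun x => f x * FU G u i x := fun i =>
    (hcont3 i).integrable_of_hasCompactSupport hfc.mul_right
  rw [integral_finsetSum _ fun i _ => hint1 i, integral_finsetSum _ fun i _ => hint2 i,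
    ← Finset.sum_neg_distrib]
  refine Finset.sum_congr rfl fun i _ => ?_
  exact integral_mul_fderiv_eq_neg_fderiv_mul_of_integrable (hint2 i) (hint1 i) (hint3 i)
    (fun x _ => (hf.differentiable (by simp)) x)
    (fun x hx => (hF i x (hfV hx)).differentiableAt (by simp))

/-- the derivative in the direction of a unit vector is at most the norm of the gradient -/
lemma NdU_le (G : Metric n) {u : E n → ℝ} {x : E n} (hd : fderiv ℝ u x ≠ 0) (f : E n → ℝ) :
    |NdU G u f x| ≤ gradNorm G f x := by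
  set P := (G.g x)⁻¹ with hP
  have hpos : P.PosDef := (G.posDef x).inv
  have hsymm : P.transpose = P := by
    have := hpos.isHermitian
    rw [Matrix.IsHermitian, Matrix.conjTranspose_eq_transpose_of_trivial] at this
    exact this
  set a := dv f x with ha
  set b := dv u x with hb
  set α := a ⬝ᵥ (P *ᵥ a) with hα
  set β := a ⬝ᵥ (P *ᵥ b) with hβ
  set γ := b ⬝ᵥ (P *ᵥ b) with hγ
  have hγpos : 0 < γ := gradsq_pos G hd
  have hβ' : b ⬝ᵥ (P *ᵥ a) = β := by
    rw [hβ, Matrix.dotProduct_mulVec, ← Matrix.mulVec_transpose, hsymm, dotProduct_comm]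
  have hq : 0 ≤ α - β ^ 2 / γ := by
    have h1 := hpos.posSemidef.dotProduct_mulVec_nonneg (a - (β / γ) • b)
    simp only [star_trivial] at h1
    have h2 : (a - (β / γ) • b) ⬝ᵥ (P *ᵥ (a - (β / γ) • b)) = α - β ^ 2 / γ := by
      rw [Matrix.mulVec_sub, Matrix.mulVec_smul, sub_dotProduct, dotProduct_sub, dotProduct_sub,
        smul_dotProduct, dotProduct_smul, smul_dotProduct, dotProduct_smul, hβ', ← hα, ← hβ, ← hγ]
      simp only [smul_eq_mul]
      field_simp
      ring
    rw [h2] at h1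
    exact h1
  have hN : NdU G u f x = β / √γ := by
    unfold NdU nu
    have h1 : gradNorm G u x = √γ := gradNorm_eq G u x
    rw [h1, hβ]
    simp only [dotProduct]
    rw [Finset.sum_div]
    refine Finset.sum_congr rfl fun k _ => ?_
    have := congrFun (grad_eq G u x) k
    rw [← this, ha]
    unfold dv
    ring
  have hf : gradNorm G f x = √α := gradNorm_eq G f x
  rw [hN, hf, abs_div, abs_of_pos (Real.sqrt_pos.2 hγpos), div_le_iff₀ (Real.sqrt_pos.2 hγpos),
    ← Real.sqrt_mul (by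
      have : 0 ≤ β ^ 2 / γ := by positivity
      linarith)]
  refine Real.le_sqrt_of_sq_le ?_
  rw [sq_abs]
  have : β ^ 2 / γ ≤ α := by linarith
  rw [div_le_iff₀ hγpos] at this
  exact this

/-- functions which agree near `x` -/
lemma meanCurv_congr (G : Metric n) {u w : E n → ℝ} {x : E n} (h : u =ᶠ[𝓝 x] w) :
    meanCurv G u x = meanCurv G w x := by
  have h1 : ∀ᶠ y in 𝓝 x, ∀ i, pd i u y = pd i w y := by
    filter_upwards [eventually_eventually_nhds.2 h] with y hy i
    unfold pd
    rw [Filter.EventuallyEq.fderiv_eq hy]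
  unfold meanCurv
  congr 1
  refine Finset.sum_congr rfl fun i _ => ?_
  unfold pd
  rw [Filter.EventuallyEq.fderiv_eq]
  filter_upwards [h1] with y hy
  have e1 : ∀ i, grad G u i y = grad G w i y := fun i => by
    unfold grad
    simp only [hy]
  have e2 : gradNorm G u y = gradNorm G w y := by
    unfold gradNorm
    simp only [hy, e1]
  rw [e1, e2]

end chart

end Pool.Agent.H93.CMC
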