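import Pool.Agent.H93.CMC.MI1

open MeasureTheory Set Filter Topology Matrix

noncomputable section

namespace Pool.Agent.H93.CMC

variable {n : ℕ}

lemma nu_unit (G : Metric n) {u : E n → ℝ} {x : E n} (hd : fderiv ℝ u x ≠ 0) :
    (fun k => nu G u k x) ⬝ᵥ (G.g x) *ᵥ (fun k => nu G u k x) = 1 := by
  have hgu : IsUnit (G.g x).det := (det_pos G x).ne'.isUnit
  have hγ : 0 < dv u x ⬝ᵥ ((G.g x)⁻¹ *ᵥ dv u x) := gradsq_pos G hd
  have h1 : (fun k => nu G u k x) = (√(dv u x ⬝ᵥ ((G.g x)⁻¹ *ᵥ dv u x)))⁻¹ • ((G.g x)⁻¹ *ᵥ dv u x) := by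
    funext k
    unfold nu
    rw [gradNorm_eq, Pi.smul_apply, smul_eq_mul, ← congrFun (grad_eq G u x) k]
    ring
  have h2 : ((G.g x)⁻¹ *ᵥ dv u x) ⬝ᵥ dv u x = dv u x ⬝ᵥ ((G.g x)⁻¹ *ᵥ dv u x) :=
    dotProduct_comm _ _
  rw [h1, Matrix.mulVec_smul, Matrix.mulVec_mulVec, Matrix.mul_nonsing_inv _ hgu, Matrix.one_mulVec,
    smul_dotProduct, dotProduct_smul, h2, smul_eq_mul, smul_eq_mul, ← mul_assoc,
    ← mul_inv, Real.mul_self_sqrt hγ.le, inv_mul_cancel₀ hγ.ne']

variable {M : Type*} [TopologicalSpace M]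

/-- the data of a CMC function -/
structure IData (X : RiemMfd n M) (u : M → ℝ) (h : ℝ → ℝ) : Prop where
  cont : Continuous u
  mem : ∀ q, 0 ≤ u q ∧ u q ≤ 1
  null : ∀ i, volume {x | u (X.param i x) = 0 ∨ u (X.param i x) = 1} = 0
  loc : ∀ (i : X.ι) (x : E n), 0 < u (X.param i x) → u (X.param i x) < 1 →
      ContDiffAt ℝ (⊤ : ℕ∞) (fun z => u (X.param i z)) x ∧
      fderiv ℝ (fun z => u (X.param i z)) x ≠ 0 ∧
      meanCurv (X.metric i) (fun z => u (X.param i z)) x = h (u (X.param i x))

lemma iData_of {X : RiemMfd n M} {u : M → ℝ} (hu : CMCFunction X u) : ∃ h, IData X u h := by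
  obtain ⟨h1, h2, h3, h, h4⟩ := hu
  exact ⟨h, ⟨h1, h2, h3, h4⟩⟩

variable {X : RiemMfd n M} {u : M → ℝ} {h : ℝ → ℝ}

/-- the regular part -/
def Wr (u : M → ℝ) : Set M := {q | 0 < u q ∧ u q < 1}

lemma Wr_open (H : IData X u h) : IsOpen (Wr u) :=
  (isOpen_lt continuous_const H.cont).inter (isOpen_lt H.cont continuous_const)

lemma not_Wr (H : IData X u h) {q : M} : q ∉ Wr u ↔ u q = 0 ∨ u q = 1 := by
  unfold Wr
  simp only [mem_ofPred_eq, not_and_or, not_lt]
  constructor
  · rintro (h | h)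
    · exact Or.inl (le_antisymm h (H.mem q).1)
    · exact Or.inr (le_antisymm (H.mem q).2 h)
  · rintro (h | h)
    · exact Or.inl h.le
    · exact Or.inr h.ge

/-- the derivative of a function on `M` in the direction of the unit normal field -/
def NI (X : RiemMfd n M) (u f : M → ℝ) (q : M) : ℝ :=
  NdU (X.metric (X.cover q).choose) (fun z => u (X.param (X.cover q).choose z))
    (fun z => f (X.param (X.cover q).choose z)) (X.cover q).choose_spec.choose

lemma NI_aux (H : IData X u h) {f : M → ℝ} (hf : SmoothM X f) (i j : X.ι) (x y : E n)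
    (hyx : X.param j y = X.param i x) (hW : X.param i x ∈ Wr u) :
    NdU (X.metric j) (fun z => u (X.param j z)) (fun z => f (X.param j z)) y =
      NdU (X.metric i) (fun z => u (X.param i z)) (fun z => f (X.param i z)) x := by
  obtain ⟨φ, h1, h2, h3, h4⟩ := X.transition j i y x hyx
  have hφd : DifferentiableAt ℝ φ y := h1.differentiableAt (by simp)
  subst h2
  refine NdU_transf (X.metric j) (X.metric i) (c := 0) hφd
    ((H.loc i _ hW.1 hW.2).1.differentiableAt (by simp)) h4 ?_
    ((hf i).differentiable (by simp) _) ?_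
  · filter_upwards [h3] with z hz
    rw [hz, add_zero]
  · filter_upwards [h3] with z hz
    rw [hz]

lemma NI_eq (H : IData X u h) {f : M → ℝ} (hf : SmoothM X f) (i : X.ι) (x : E n)
    (hW : X.param i x ∈ Wr u) : NI X u f (X.param i x) =
      NdU (X.metric i) (fun z => u (X.param i z)) (fun z => f (X.param i z)) x :=
  NI_aux H hf i _ x _ (X.cover (X.param i x)).choose_spec.choose_spec hW

lemma pd_zero_of {f : E n → ℝ} {x : E n} (hf : f =ᶠ[𝓝 x] fun _ => 0) (j : Fin (n + 1)) :
    pd j f x = 0 := by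
  unfold pd
  rw [hf.fderiv_eq]
  simp

lemma NdU_zero_of (G : Metric n) (u : E n → ℝ) {f : E n → ℝ} {x : E n}
    (hf : f =ᶠ[𝓝 x] fun _ => 0) : NdU G u f x = 0 := by
  unfold NdU
  exact Finset.sum_eq_zero fun j _ => by rw [pd_zero_of hf, zero_mul]

lemma zero_chart {f : M → ℝ} (i : X.ι) {x : E n} (hf : f =ᶠ[𝓝 (X.param i x)] fun _ => 0) :
    (fun z => f (X.param i z)) =ᶠ[𝓝 x] fun _ => 0 :=
  (X.isOpenEmbedding i).continuous.continuousAt.eventually hf

lemma NI_zero {f : M → ℝ} {q : M} (hf : f =ᶠ[𝓝 q] fun _ => 0) : NI X u f q = 0 := by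
  unfold NI
  refine NdU_zero_of _ _ (zero_chart _ ?_)
  rw [(X.cover q).choose_spec.choose_spec]
  exact hf

/-- `|N f| ≤ g` for a bound `g` of the derivatives of `f` in the direction of unit vectors -/
lemma NI_le (H : IData X u h) {f : M → ℝ} (hf : SmoothM X f) {g : M → ℝ} (hg0 : ∀ q, 0 ≤ g q)
    (hg : ∀ (i : X.ι) (x : E n) (ν : E n), ν ⬝ᵥ ((X.metric i).g x).mulVec ν ≤ 1 →
      |∑ k, pd k (fun z => f (X.param i z)) x * ν k| ≤ g (X.param i x))
    (hz : ∀ q, q ∉ Wr u → f =ᶠ[𝓝 q] fun _ => 0) (q : M) : |NI X u f q| ≤ g q := by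
  by_cases hq : q ∈ Wr u
  · obtain ⟨i, x, rfl⟩ := X.cover q
    rw [NI_eq H hf i x hq]
    exact hg i x _ (nu_unit _ (H.loc i x hq.1 hq.2).2.1).le
  · rw [NI_zero (hz q hq), abs_zero]
    exact hg0 q

lemma hu_contAt (H : IData X u h) {q : M} (hq : q ∈ Wr u) : ContinuousAt (fun p => h (u p)) q := by
  obtain ⟨i, x, rfl⟩ := X.cover q
  refine ((X.isOpenEmbedding i).continuousAt_iff (g := fun p => h (u p))).1 ?_
  have h1 : ContinuousAt (meanCurv (X.metric i) fun z => u (X.param i z)) x :=
    meanCurv_contAt _ (H.loc i x hq.1 hq.2).1 (H.loc i x hq.1 hq.2).2.1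
  refine h1.congr ?_
  have hW : IsOpen (X.param i ⁻¹' Wr u) := (Wr_open H).preimage (X.isOpenEmbedding i).continuous
  filter_upwards [hW.mem_nhds hq] with z hz
  exact (H.loc i z hz.1 hz.2).2.2

lemma cont_of_zero (H : IData X u h) {f : M → ℝ} (hf : Continuous f)
    (hz : ∀ q, q ∉ Wr u → f =ᶠ[𝓝 q] fun _ => 0) : Continuous fun q => f q * h (u q) := by
  rw [continuous_iff_continuousAt]
  intro q
  by_cases hq : q ∈ Wr u
  · exact hf.continuousAt.mul (hu_contAt H hq)
  · have : (fun q => f q * h (u q)) =ᶠ[𝓝 q] fun _ => 0 := by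
      filter_upwards [hz q hq] with p hp
      rw [hp, zero_mul]
    exact continuousAt_const.congr this.symm

lemma NI_cont (H : IData X u h) {f : M → ℝ} (hf : SmoothM X f)
    (hz : ∀ q, q ∉ Wr u → f =ᶠ[𝓝 q] fun _ => 0) : Continuous (NI X u f) := by
  rw [continuous_iff_continuousAt]
  intro q
  by_cases hq : q ∈ Wr u
  · obtain ⟨i, x, rfl⟩ := X.cover q
    refine ((X.isOpenEmbedding i).continuousAt_iff (g := NI X u f)).1 ?_
    have hW : IsOpen (X.param i ⁻¹' Wr u) := (Wr_open H).preimage (X.isOpenEmbedding i).continuous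
    have h1 : ContinuousAt (NdU (X.metric i) (fun z => u (X.param i z))
        (fun z => f (X.param i z))) x := by
      unfold NdU
      exact tendsto_finsetSum _ fun k _ => ((pd_continuous k (hf i)).continuousAt).mul
        (nu_contDiffAt _ (H.loc i x hq.1 hq.2).1 (H.loc i x hq.1 hq.2).2.1 k).continuousAt
    refine h1.congr ?_
    filter_upwards [hW.mem_nhds hq] with z hz'
    exact (NI_eq H hf i z hz').symm
  · have : NI X u f =ᶠ[𝓝 q] fun _ => 0 := by
      filter_upwards [eventually_eventually_nhds.2 (hz q hq)] with p hp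
      exact NI_zero hp
    exact continuousAt_const.congr this.symm

section measure

variable [MeasurableSpace M] [BorelSpace M] {μ : Measure M}

/-- weak form of `div ν = h` on `M` -/
lemma weakM [CompactSpace M] [T2Space M] [IsFiniteMeasure μ] (H : IData X u h)
    (hμ : IsVolume X μ) {f : M → ℝ} (hf : SmoothM X f)
    (hz : ∀ q, q ∉ Wr u → f =ᶠ[𝓝 q] fun _ => 0) :
    ∫ q, f q * h (u q) ∂μ = - ∫ q, NI X u f q ∂μ := by
  obtain ⟨m, c, ξ, hsm, hsum, hcs, hzξ⟩ := exists_partitionM X
  have hint : ∀ g : M → ℝ, Continuous g → Integrable g μ := fun g hg =>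
    hg.integrable_of_hasCompactSupport (HasCompactSupport.of_compactSpace _)
  have hξf : ∀ k, SmoothM X fun q => ξ k q * f q := fun k i => (hsm k i).mul (hf i)
  have hξz : ∀ k q, q ∉ Wr u → (fun q => ξ k q * f q) =ᶠ[𝓝 q] fun _ => 0 := by
    intro k q hq
    filter_upwards [hz q hq] with p hp
    rw [hp, mul_zero]
  have hcont : ∀ {g : M → ℝ}, SmoothM X g → Continuous g := fun hg =>
    cont_of_charts X fun i => (hg i).continuous
  have h2 : ∀ k, ∫ q, (ξ k q * f q) * h (u q) ∂μ = - ∫ q, NI X u (fun q => ξ k q * f q) q ∂μ := by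
    intro k
    rw [int_chart hμ (c k) (f := fun q => (ξ k q * f q) * h (u q)) (fun q hq => by
      show (ξ k q * f q) * h (u q) = 0
      rw [hzξ k q hq, zero_mul, zero_mul])]
    have hcK : HasCompactSupport fun x => ξ k (X.param (c k) x) * f (X.param (c k) x) :=
      (hcs k).mul_right
    rw [int_chart hμ (c k) (f := NI X u (fun q => ξ k q * f q)) (fun q hq => ?_)]
    · have hV : tsupport (fun x => ξ k (X.param (c k) x) * f (X.param (c k) x)) ⊆
          X.param (c k) ⁻¹' Wr u := by
        intro x hx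
        by_contra hcon
        have := zero_chart (c k) (hξz k _ hcon)
        exact (notMem_tsupport_iff_eventuallyEq.2 this) hx
      have key := weakL (X.metric (c k)) (u := fun z => u (X.param (c k) z))
        (V := X.param (c k) ⁻¹' Wr u) (fun x hx => (H.loc (c k) x hx.1 hx.2).1)
        (fun x hx => (H.loc (c k) x hx.1 hx.2).2.1) (hξf k (c k)) hcK hV
      have e1 : ∀ x, ξ k (X.param (c k) x) * f (X.param (c k) x) * h (u (X.param (c k) x)) =
          ξ k (X.param (c k) x) * f (X.param (c k) x) *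
            meanCurv (X.metric (c k)) (fun z => u (X.param (c k) z)) x := by
        intro x
        by_cases hx : X.param (c k) x ∈ Wr u
        · rw [(H.loc (c k) x hx.1 hx.2).2.2]
        · have h5 := (hξz k _ hx).self_of_nhds
          simp only at h5
          rw [h5, zero_mul, zero_mul]
      have e2 : ∀ x, NI X u (fun q => ξ k q * f q) (X.param (c k) x) =
          NdU (X.metric (c k)) (fun z => u (X.param (c k) z))
            (fun z => ξ k (X.param (c k) z) * f (X.param (c k) z)) x := by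
        intro x
        by_cases hx : X.param (c k) x ∈ Wr u
        · exact NI_eq H (hξf k) (c k) x hx
        · rw [NI_zero (hξz k _ hx)]
          exact (NdU_zero_of _ _ (zero_chart (c k) (hξz k _ hx))).symm
      simp only [e1, e2]
      exact key
    · -- `ξ k * f` vanishes near `q`
      apply NI_zero
      have hK : IsCompact (X.param (c k) '' tsupport fun x => ξ k (X.param (c k) x)) :=
        (hcs k).isCompact.image (X.isOpenEmbedding (c k)).continuous
      have hKo : IsOpen (X.param (c k) '' tsupport fun x => ξ k (X.param (c k) x))ᶜ :=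
        hK.isClosed.isOpen_compl
      have hmem : q ∈ (X.param (c k) '' tsupport fun x => ξ k (X.param (c k) x))ᶜ := by
        rintro ⟨y, -, hy⟩
        exact hq ⟨y, hy⟩
      filter_upwards [hKo.mem_nhds hmem] with p hp
      by_contra hne
      have hne' : ξ k p ≠ 0 := left_ne_zero_of_mul hne
      by_cases hr : p ∈ range (X.param (c k))
      · obtain ⟨y, hy⟩ := hr
        apply hp
        refine ⟨y, subset_tsupport _ ?_, hy⟩
        show ξ k (X.param (c k) y) ≠ 0
        rw [hy]; exact hne'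
      · exact hne' (hzξ k _ hr)
  have h3 : ∀ q, ∑ k, NI X u (fun q => ξ k q * f q) q = NI X u f q := by
    intro q
    by_cases hq : q ∈ Wr u
    · obtain ⟨i, x, rfl⟩ := X.cover q
      rw [NI_eq H hf i x hq]
      simp only [fun k => NI_eq H (hξf k) i x hq]
      unfold NdU
      rw [Finset.sum_comm]
      refine Finset.sum_congr rfl fun j _ => ?_
      rw [← Finset.sum_mul]
      congr 1
      have h5 : pd j (fun z => ∑ k, ξ k (X.param i z) * f (X.param i z)) x =
          ∑ k, pd j (fun z => ξ k (X.param i z) * f (X.param i z)) x := by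
        unfold pd
        rw [fderiv_fun_sum fun k _ => ((hξf k i).differentiable (by simp)) x]
        simp
      rw [← h5]
      congr 1
      funext z
      rw [← Finset.sum_mul, hsum, one_mul]
    · rw [NI_zero (hz q hq)]
      exact Finset.sum_eq_zero fun k _ => NI_zero (hξz k q hq)
  have h6 : ∫ q, f q * h (u q) ∂μ = ∑ k, ∫ q, (ξ k q * f q) * h (u q) ∂μ := by
    have hI : ∀ k ∈ (Finset.univ : Finset (Fin m)), Integrable (fun q => (ξ k q * f q) * h (u q)) μ :=
      fun k _ => hint _ (cont_of_zero H (hcont (hξf k)) (hξz k))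
    rw [← integral_finsetSum _ hI]
    refine integral_congr_ae (Eventually.of_forall fun q => ?_)
    show f q * h (u q) = ∑ k, (ξ k q * f q) * h (u q)
    rw [← Finset.sum_mul, ← Finset.sum_mul, hsum, one_mul]
  rw [h6]
  simp only [h2]
  rw [Finset.sum_neg_distrib, ← integral_finsetSum _ fun k _ => hint _ (NI_cont H (hξf k) (hξz k))]
  simp only [h3]

end measure

end Pool.Agent.H93.CMC
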