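import Pool.Agent.H93.CMC.MI2
import Pool.Agent.H81.CMC.CutM

open MeasureTheory Set Filter Topology Matrix

noncomputable section

namespace Pool.Agent.H93.CMC

/-- a one-sided bounded function with vanishing integrals after small cutoffs -/
lemma fatou_mean {α : Type*} [MeasurableSpace α] {μ : Measure α} [IsFiniteMeasure μ] {F : α → ℝ}
    {η : ℕ → α → ℝ} (hηm : ∀ k, Measurable (η k)) (hη0 : ∀ k q, 0 ≤ η k q ∧ η k q ≤ 1)
    (hη1 : ∀ᵐ q ∂μ, Tendsto (fun k => η k q) atTop (𝓝 1))
    (hint : ∀ k, Integrable (fun q => η k q * F q) μ)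
    (hlim : Tendsto (fun k => ∫ q, η k q * F q ∂μ) atTop (𝓝 0)) {C : ℝ}
    (hC : ∀ᵐ q ∂μ, C ≤ F q) : Integrable F μ ∧ ∫ q, F q ∂μ = 0 := by
  have hηint : ∀ k, Integrable (η k) μ := fun k =>
    Integrable.of_bound (hηm k).aestronglyMeasurable 1 (Eventually.of_forall fun q => by
      rw [Real.norm_eq_abs, abs_of_nonneg (hη0 k q).1]; exact (hη0 k q).2)
  have hG : ∀ k, Integrable (fun q => η k q * (F q + |C|)) μ := by
    intro k
    have := (hint k).add ((hηint k).mul_const |C|)
    refine this.congr (Eventually.of_forall fun q => ?_)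
    show η k q * F q + η k q * |C| = _
    ring
  have hGlim : ∀ᵐ q ∂μ, Tendsto (fun k => η k q * (F q + |C|)) atTop (𝓝 (F q + |C|)) := by
    filter_upwards [hη1] with q hq
    simpa using hq.mul_const (F q + |C|)
  have hmeas : AEStronglyMeasurable (fun q => F q + |C|) μ :=
    aestronglyMeasurable_of_tendsto_ae _ (fun k => (hG k).aestronglyMeasurable) hGlim
  have hnn : ∀ k, 0 ≤ᵐ[μ] fun q => η k q * (F q + |C|) := by
    intro k
    filter_upwards [hC] with q hq
    have : 0 ≤ F q + |C| := by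
      have := neg_abs_le C
      linarith
    exact mul_nonneg (hη0 k q).1 this
  have hval : ∀ k, ∫⁻ q, ‖η k q * (F q + |C|)‖ₑ ∂μ ≤
      ENNReal.ofReal (∫ q, η k q * F q ∂μ + |C| * μ.real univ) := by
    intro k
    rw [← ofReal_integral_norm_eq_lintegral_enorm (hG k)]
    apply ENNReal.ofReal_le_ofReal
    have e1 : ∫ q, ‖η k q * (F q + |C|)‖ ∂μ = ∫ q, η k q * (F q + |C|) ∂μ := by
      refine integral_congr_ae ?_
      filter_upwards [hnn k] with q hq
      rw [Real.norm_eq_abs, abs_of_nonneg hq]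
    have e2 : ∫ q, η k q * (F q + |C|) ∂μ = ∫ q, η k q * F q ∂μ + ∫ q, η k q * |C| ∂μ := by
      rw [← integral_add (hint k) ((hηint k).mul_const |C|)]
      refine integral_congr_ae (Eventually.of_forall fun q => ?_)
      show η k q * (F q + |C|) = η k q * F q + η k q * |C|
      ring
    have e3 : ∫ q, η k q * |C| ∂μ ≤ |C| * μ.real univ := by
      calc ∫ q, η k q * |C| ∂μ ≤ ∫ _q, |C| ∂μ := by
            refine integral_mono ((hηint k).mul_const |C|) (integrable_const _) fun q => ?_
            exact mul_le_of_le_one_left (abs_nonneg C) (hη0 k q).2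
        _ = |C| * μ.real univ := by
            rw [integral_const, smul_eq_mul, mul_comm]
    rw [e1, e2]
    linarith
  have hI : Integrable (fun q => F q + |C|) μ := by
    refine ⟨hmeas, ?_⟩
    have hfat : ∫⁻ q, ‖F q + |C|‖ₑ ∂μ ≤
        liminf (fun k => ∫⁻ q, ‖η k q * (F q + |C|)‖ₑ ∂μ) atTop := by
      have e : ∫⁻ q, ‖F q + |C|‖ₑ ∂μ =
          ∫⁻ q, liminf (fun k => ‖η k q * (F q + |C|)‖ₑ) atTop ∂μ :=
        lintegral_congr_ae (by filter_upwards [hGlim] with q hq using hq.enorm.liminf_eq.symm)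
      rw [e]
      exact lintegral_liminf_le' fun k => (hG k).aestronglyMeasurable.aemeasurable.enorm
    refine lt_of_le_of_lt hfat ?_
    have h1 : Tendsto (fun k => ENNReal.ofReal (∫ q, η k q * F q ∂μ + |C| * μ.real univ)) atTop
        (𝓝 (ENNReal.ofReal (0 + |C| * μ.real univ))) :=
      ENNReal.tendsto_ofReal (hlim.add_const _)
    have h2 : liminf (fun k => ∫⁻ q, ‖η k q * (F q + |C|)‖ₑ ∂μ) atTop ≤
        ENNReal.ofReal (0 + |C| * μ.real univ) := by
      rw [← h1.liminf_eq]
      exact liminf_le_liminf (Eventually.of_forall hval)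
    exact lt_of_le_of_lt h2 ENNReal.ofReal_lt_top
  have hF : Integrable F μ := by
    have := hI.sub (integrable_const |C|)
    refine this.congr (Eventually.of_forall fun q => ?_)
    show F q + |C| - |C| = F q
    ring
  refine ⟨hF, ?_⟩
  have hdom : Tendsto (fun k => ∫ q, η k q * F q ∂μ) atTop (𝓝 (∫ q, F q ∂μ)) := by
    refine tendsto_integral_of_dominated_convergence (fun q => |F q|)
      (fun k => (hint k).aestronglyMeasurable) hF.abs (fun k => Eventually.of_forall fun q => ?_) ?_
    · rw [Real.norm_eq_abs, abs_mul, abs_of_nonneg (hη0 k q).1]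
      exact mul_le_of_le_one_left (abs_nonneg _) (hη0 k q).2
    · filter_upwards [hη1] with q hq
      simpa using hq.mul_const (F q)
  exact tendsto_nhds_unique hdom hlim

variable {n : ℕ} {M : Type*} [TopologicalSpace M] {X : RiemMfd n M} {u : M → ℝ} {h : ℝ → ℝ}
  [MeasurableSpace M] [BorelSpace M] {μ : Measure M}

lemma exists_cutseq [CompactSpace M] [T2Space M] [IsFiniteMeasure μ] (H : IData X u h)
    (hS : SmallEnds X u) (hμ : IsVolume X μ) : ∃ η : ℕ → M → ℝ, (∀ k, Continuous (η k)) ∧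
      (∀ k q, 0 ≤ η k q ∧ η k q ≤ 1) ∧ (∀ᵐ q ∂μ, Tendsto (fun k => η k q) atTop (𝓝 1)) ∧
      (∀ k, Integrable (fun q => η k q * h (u q)) μ) ∧
      Tendsto (fun k => ∫ q, η k q * h (u q) ∂μ) atTop (𝓝 0) := by
  have hK : IsClosed (Wr u)ᶜ := (Wr_open H).isClosed_compl
  have hN : ∀ i, HNull (X.param i ⁻¹' (Wr u)ᶜ) := by
    intro i
    have : X.param i ⁻¹' (Wr u)ᶜ = {x | u (X.param i x) = 0 ∨ u (X.param i x) = 1} := by
      ext x
      exact not_Wr H
    rw [this]
    exact hS i
  have hcut := fun k : ℕ => exists_cutoff hμ hK hN (ε := (1 / 2 : ℝ) ^ k) (by positivity)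
  choose η h1 h2 h3 h4 g h5 h6 h7 h8 using hcut
  have hcont : ∀ k, Continuous (η k) := fun k => cont_of_charts X fun i => (h1 k i).continuous
  have hz : ∀ k q, q ∉ Wr u → η k =ᶠ[𝓝 q] fun _ => 0 := fun k q hq => h3 k q hq
  have hint : ∀ g : M → ℝ, Continuous g → Integrable g μ := fun g hg =>
    hg.integrable_of_hasCompactSupport (HasCompactSupport.of_compactSpace _)
  refine ⟨η, hcont, h2, ?_, fun k => hint _ (cont_of_zero H (hcont k) (hz k)), ?_⟩
  · have hsum : ∑' k, μ {q | η k q ≠ 1} ≠ ⊤ := by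
      have h9 : ∑' k, μ {q | η k q ≠ 1} ≤ ∑' k : ℕ, ENNReal.ofReal ((1 / 2 : ℝ) ^ k) :=
        ENNReal.tsum_le_tsum h4
      have h10 : ∑' k : ℕ, ENNReal.ofReal ((1 / 2 : ℝ) ^ k) ≠ ⊤ := by
        rw [← ENNReal.ofReal_tsum_of_nonneg (fun k => by positivity) summable_geometric_two]
        exact ENNReal.ofReal_ne_top
      exact ne_top_of_le_ne_top h10 h9
    filter_upwards [ae_eventually_notMem hsum] with q hq
    refine tendsto_const_nhds.congr' ?_
    filter_upwards [hq] with k hk
    simp only [mem_ofPred_eq, not_not] at hk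
    exact hk.symm
  · rw [tendsto_zero_iff_abs_tendsto_zero]
    have hb : ∀ k, |∫ q, η k q * h (u q) ∂μ| ≤ (1 / 2 : ℝ) ^ k := by
      intro k
      rw [weakM H hμ (h1 k) (hz k), abs_neg]
      have hle : ∀ q, |NI X u (η k) q| ≤ g k q := fun q => NI_le H (h1 k) (h6 k) (h7 k) (hz k) q
      calc |∫ q, NI X u (η k) q ∂μ| ≤ ∫ q, |NI X u (η k) q| ∂μ := by
            simpa [Real.norm_eq_abs] using norm_integral_le_integral_norm (μ := μ) (NI X u (η k))
        _ = (∫⁻ q, ENNReal.ofReal |NI X u (η k) q| ∂μ).toReal := by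
            rw [integral_eq_lintegral_of_nonneg_ae (Eventually.of_forall fun q => abs_nonneg _)]
            exact ((NI_cont H (h1 k) (hz k)).abs).aestronglyMeasurable
        _ ≤ (1 / 2 : ℝ) ^ k := by
            refine ENNReal.toReal_le_of_le_ofReal (by positivity) ?_
            exact (lintegral_mono fun q => ENNReal.ofReal_le_ofReal (hle q)).trans (h8 k)
    refine squeeze_zero (fun k => abs_nonneg _) hb ?_
    exact tendsto_pow_atTop_nhds_zero_of_lt_one (by norm_num) (by norm_num)

/-- `∫_M h(u) = 0` if `h` is bounded from one side -/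
lemma mean_zeroI [CompactSpace M] [T2Space M] [IsFiniteMeasure μ] (H : IData X u h)
    (hS : SmallEnds X u) (hμ : IsVolume X μ) (hK : μ (Wr u)ᶜ = 0)
    (hC : (∃ C, ∀ t ∈ Ioo (0:ℝ) 1, C ≤ h t) ∨ (∃ C, ∀ t ∈ Ioo (0:ℝ) 1, h t ≤ C)) :
    Integrable (fun q => h (u q)) μ ∧ ∫ q, h (u q) ∂μ = 0 := by
  obtain ⟨η, h1, h2, h3, h4, h5⟩ := exists_cutseq H hS hμ
  have hW : ∀ᵐ q ∂μ, u q ∈ Ioo (0:ℝ) 1 := by
    have := measure_eq_zero_iff_ae_notMem.1 hK
    filter_upwards [this] with q hq
    simp only [mem_compl_iff, not_not] at hq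
    exact hq
  rcases hC with ⟨C, hC⟩ | ⟨C, hC⟩
  · exact fatou_mean (fun k => (h1 k).measurable) h2 h3 h4 h5 (C := C)
      (by filter_upwards [hW] with q hq using hC _ hq)
  · have hneg := fatou_mean (F := fun q => - h (u q)) (fun k => (h1 k).measurable) h2 h3
      (fun k => by
        have := (h4 k).neg
        refine this.congr (Eventually.of_forall fun q => ?_)
        show -(η k q * h (u q)) = η k q * -h (u q)
        ring)
      (by
        have := h5.neg
        rw [neg_zero] at this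
        refine this.congr fun k => ?_
        rw [← integral_neg]
        refine integral_congr_ae (Eventually.of_forall fun q => ?_)
        show -(η k q * h (u q)) = η k q * -h (u q)
        ring)
      (C := -C) (by filter_upwards [hW] with q hq using by have := hC _ hq; linarith)
    refine ⟨?_, ?_⟩
    · have := hneg.1.neg
      refine this.congr (Eventually.of_forall fun q => ?_)
      show - -h (u q) = h (u q)
      ring
    · have := hneg.2
      rw [integral_neg] at this
      linarith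

end Pool.Agent.H93.CMC
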