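import Pool.Agent.H93.CMC.MI3
import Pool.Agent.H75.CMC.CoreI
import Pool.Agent.H81.CMC.SlabI

open MeasureTheory Set Filter Topology Matrix

noncomputable section

namespace Pool.Agent.H93.CMC

variable {n : ℕ} {M : Type*} [TopologicalSpace M] {X : RiemMfd n M} {u : M → ℝ} {h : ℝ → ℝ}

lemma h_contOn [CompactSpace M] (H : IData X u h) (hne : (Wr u).Nonempty) :
    ContinuousOn h (Ioo 0 1) := by
  intro t ht
  obtain ⟨q, hq⟩ := level_nonempty H hne ht
  have hqW : q ∈ Wr u := ⟨by rw [hq]; exact ht.1, by rw [hq]; exact ht.2⟩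
  have h1 : Tendsto (fun p => h (u p)) (𝓝 q) (𝓝 (h (u q))) := hu_contAt H hqW
  have h2 : Tendsto h (map u (𝓝 q)) (𝓝 (h (u q))) := h1
  have h3 := h2.mono_left (map_nhds_I H hqW).ge
  rw [hq] at h3
  exact h3.mono_left nhdsWithin_le_nhds

variable [MeasurableSpace M] [BorelSpace M] {μ : Measure M}

theorem two_CMCI [CompactSpace M] [T2Space M] (X : RiemMfd n M) (μ : Measure M)
    (hμ : IsVolume X μ) (u : M → ℝ) (hu : CMCFunction X u) (v : ℝ) (hv0 : 0 < v)
    (hv1 : v < μ.real univ) (hS : v = μ.real univ / 2 → SmallEnds X u) :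
    ∃ S₁ S₂ : Set M, S₁ ≠ S₂ ∧ ClosedCMCM X μ v S₁ ∧ ClosedCMCM X μ v S₂ := by
  obtain ⟨h, H⟩ := iData_of hu
  have hpos : 0 < μ.real univ := hv0.trans hv1
  have hfin : IsFiniteMeasure μ := by
    constructor
    rw [lt_top_iff_ne_top]
    intro htop
    rw [measureReal_def, htop] at hpos
    simp at hpos
  have hWc : μ (Wr u)ᶜ = 0 := by
    have hsub : (Wr u)ᶜ ⊆ {q | u q = 0} ∪ {q | u q = 1} := fun q hq => (not_Wr H).1 hq
    exact measure_mono_null hsub (measure_union_null (level_null_I H hμ 0) (level_null_I H hμ 1))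
  have hne : (Wr u).Nonempty := by
    by_contra hemp
    rw [not_nonempty_iff_eq_empty] at hemp
    rw [hemp, compl_empty] at hWc
    rw [measureReal_def, hWc] at hpos
    simp at hpos
  have hum : Measurable u := H.cont.measurable
  set ρ : Measure ℝ := μ.map u with hρ
  have hρa : ∀ B : Set ℝ, MeasurableSet B → ρ B = μ (u ⁻¹' B) := fun B hB =>
    Measure.map_apply hum hB
  have hρfin : IsFiniteMeasure ρ := by
    constructor
    rw [hρa _ MeasurableSet.univ]
    exact measure_lt_top μ _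
  have hρr : ∀ B : Set ℝ, MeasurableSet B → ρ.real B = μ.real (u ⁻¹' B) := fun B hB => by
    rw [measureReal_def, measureReal_def, hρa B hB]
  have hρsupp : ρ (Ioo 0 1)ᶜ = 0 := by
    rw [hρa _ measurableSet_Ioo.compl]
    exact hWc
  have hatom : ∀ c, ρ {c} = 0 := fun c => by
    rw [hρa _ (measurableSet_singleton c)]
    exact level_null_I H hμ c
  have hfull : ∀ a b, 0 ≤ a → a < b → b ≤ 1 → 0 < ρ (Ioo a b) := fun a b ha hab hb => by
    rw [hρa _ measurableSet_Ioo]
    exact slab_pos H hμ hne ha hab hb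
  have hv1' : v < ρ.real univ := by
    rw [hρr _ MeasurableSet.univ, preimage_univ]
    exact hv1
  have hρT : ρ.real univ = μ.real univ := by rw [hρr _ MeasurableSet.univ, preimage_univ]
  have hcO := h_contOn H hne
  by_cases hv : v ≠ μ.real univ / 2
  · -- two different levels
    have hz : ((∃ C, ∀ t ∈ Ioo (0:ℝ) 1, C ≤ (fun _ : ℝ => (0:ℝ)) t) ∨
        (∃ C, ∀ t ∈ Ioo (0:ℝ) 1, (fun _ : ℝ => (0:ℝ)) t ≤ C)) →
        Integrable (fun _ : ℝ => (0:ℝ)) ρ ∧ ∫ t, (fun _ : ℝ => (0:ℝ)) t ∂ρ = 0 := fun _ =>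
      ⟨integrable_zero _ _ _, by simp⟩
    obtain ⟨a, ha, hav, -⟩ := core_interval ρ hρsupp hatom hfull (fun _ => 0) continuousOn_const hz
      v hv0 hv1'
    obtain ⟨b, hb, hbv, -⟩ := core_interval ρ hρsupp hatom hfull (fun _ => 0) continuousOn_const hz
      (ρ.real univ - v) (by linarith) (by linarith)
    have hab : b ≠ a := by
      rintro rfl
      apply hv
      rw [hav, hρT] at hbv
      linarith
    have hbv' : ρ.real (Ioi b) = v := by
      have h1 : ρ.real (Iic b) = ρ.real (Iio b) := by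
        have : NullSingletonClass ρ := ⟨hatom⟩
        exact measureReal_congr Iio_ae_eq_Iic.symm
      have h2 := measureReal_add_measureReal_compl (μ := ρ) (measurableSet_Iic (a := b))
      rw [compl_Iic, h1, hbv] at h2
      linarith
    rw [hρr _ measurableSet_Iio] at hav
    rw [hρr _ measurableSet_Ioi] at hbv'
    obtain ⟨qa, hqa⟩ := level_nonempty H hne ha
    obtain ⟨qb, hqb⟩ := level_nonempty H hne hb
    refine ⟨{q | u q = a}, {q | u q = b}, ?_, ⟨⟨qa, hqa⟩, {q | u q < a},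
      isOpen_lt H.cont continuous_const, hav, (frontier_lt H ha).symm, CMC_lt H ha⟩,
      ⟨qb, hqb⟩, {q | b < u q}, isOpen_lt continuous_const H.cont, hbv',
      (frontier_gt H hb).symm, CMC_gt H hb⟩
    intro hSS
    have : qb ∈ {q | u q = a} := by rw [hSS]; exact hqb
    exact hab (hqb.symm.trans this)
  rw [not_not] at hv
  have hρW : ρ.restrict (Ioo 0 1) = ρ := Measure.restrict_eq_self_of_ae_mem (by
    have := measure_eq_zero_iff_ae_notMem.1 hρsupp
    filter_upwards [this] with t ht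
    simpa using ht)
  have hhm : AEStronglyMeasurable h ρ := by
    have := hcO.aestronglyMeasurable (μ := ρ) measurableSet_Ioo
    rwa [hρW] at this
  have hG : ((∃ C, ∀ t ∈ Ioo (0:ℝ) 1, C ≤ h t) ∨ (∃ C, ∀ t ∈ Ioo (0:ℝ) 1, h t ≤ C)) →
      Integrable h ρ ∧ ∫ t, h t ∂ρ = 0 := by
    intro hC
    obtain ⟨h1, h2⟩ := mean_zeroI H (hS hv) hμ hWc hC
    refine ⟨(integrable_map_measure hhm hum.aemeasurable).2 h1, ?_⟩
    rw [integral_map hum.aemeasurable hhm]
    exact h2
  obtain ⟨a, ha, hav, hcase⟩ := core_interval ρ hρsupp hatom hfull h hcO hG v hv0 hv1'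
  rw [hρr _ measurableSet_Iio] at hav
  obtain ⟨qa, hqa⟩ := level_nonempty H hne ha
  have hS1 : ClosedCMCM X μ v {q | u q = a} :=
    ⟨⟨qa, hqa⟩, {q | u q < a}, isOpen_lt H.cont continuous_const, hav,
      (frontier_lt H ha).symm, CMC_lt H ha⟩
  rcases hcase with ⟨a', ha', hne', hav'⟩ | ⟨s, b, hs0, hsb, hb1, hvol, hh⟩
  · rw [hρr _ measurableSet_Ioi] at hav'
    obtain ⟨qa', hqa'⟩ := level_nonempty H hne ha'
    refine ⟨{q | u q = a}, {q | u q = a'}, ?_, hS1, ⟨qa', hqa'⟩, {q | a' < u q},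
      isOpen_lt continuous_const H.cont, hav', (frontier_gt H ha').symm, CMC_gt H ha'⟩
    intro hS
    have : qa' ∈ {q | u q = a} := by rw [hS]; exact hqa'
    exact hne' (hqa'.symm.trans this)
  · rw [hρr _ measurableSet_Ioo] at hvol
    obtain ⟨qs, hqs⟩ := level_nonempty H hne ⟨hs0, hsb.trans hb1⟩
    obtain ⟨qb, hqb⟩ := level_nonempty H hne ⟨hs0.trans hsb, hb1⟩
    refine ⟨{q | u q = a}, {q | u q = s ∨ u q = b}, ?_, hS1, ⟨qs, Or.inl hqs⟩,
      {q | s < u q ∧ u q < b}, (isOpen_lt continuous_const H.cont).inter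
        (isOpen_lt H.cont continuous_const), hvol, (frontier_slab H hs0 hsb hb1).symm,
      CMC_slab H hs0 hsb hb1 hh⟩
    intro hS
    have e1 : qs ∈ {q | u q = a} := by rw [hS]; exact Or.inl hqs
    have e2 : qb ∈ {q | u q = a} := by rw [hS]; exact Or.inr hqb
    have e3 : s = b := by
      have f1 : u qs = a := e1
      have f2 : u qb = a := e2
      rw [← hqs, ← hqb, f1, f2]
    exact hsb.ne e3

end Pool.Agent.H93.CMC
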