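import Pool.Agent.H93.CMC.MDefs

/-!
# Closed Riemannian manifolds foliated by the level sets of a function, with small focal sets
-/

open MeasureTheory Set Filter Topology

noncomputable section

namespace Pool.Agent.H93.CMC

variable {n : ℕ}

/-- The subset `A` of `ℝ^(n+1)` has `n`-dimensional Hausdorff measure zero: for each `ε > 0` it is
covered by countably many balls whose radii satisfy `∑ r_j^n < ε`. -/
def HNull (A : Set (E n)) : Prop :=
  ∀ ε : ℝ, 0 < ε → ∃ (c : ℕ → E n) (r : ℕ → ℝ), (∀ j, 0 < r j) ∧
    A ⊆ ⋃ j, _root_.Metric.ball (c j) (r j) ∧ (Summable fun j => r j ^ n) ∧ ∑' j, r j ^ n < ε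

variable {M : Type*} [TopologicalSpace M]

/-- `M` is foliated by the level sets of `u : M → [0,1]` with end sets `{u = 0}`, `{u = 1}`: the
end sets have volume zero (for instance they are submanifolds of positive codimension), outside of
them `u` is smooth without critical points, and all level sets `{u = t}`, `0 < t < 1`, have constant
mean curvature `h(t)`. -/
def CMCFunction (X : RiemMfd n M) (u : M → ℝ) : Prop :=
  Continuous u ∧ (∀ q, 0 ≤ u q ∧ u q ≤ 1) ∧
    (∀ i, volume {x | u (X.param i x) = 0 ∨ u (X.param i x) = 1} = 0) ∧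
    ∃ h : ℝ → ℝ, ∀ (i : X.ι) (x : E n), 0 < u (X.param i x) → u (X.param i x) < 1 →
      ContDiffAt ℝ (⊤ : ℕ∞) (fun z => u (X.param i z)) x ∧
      fderiv ℝ (fun z => u (X.param i z)) x ≠ 0 ∧
      meanCurv (X.metric i) (fun z => u (X.param i z)) x = h (u (X.param i x))

/-- The end sets `{u = 0}`, `{u = 1}` have `n`-dimensional Hausdorff measure zero (for instance they
are finite sets or submanifolds of codimension at least two). -/
def SmallEnds (X : RiemMfd n M) (u : M → ℝ) : Prop :=
  ∀ i, HNull {x | u (X.param i x) = 0 ∨ u (X.param i x) = 1}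

end Pool.Agent.H93.CMC
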