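import Pool.Agent.H93.CMC.SphGeo
import Pool.Agent.H93.CMC.CoreS
import Pool.Agent.H81.CMC.Rad

open MeasureTheory Set Filter Topology

noncomputable section

namespace Pool.Agent.H93.CMC

variable {n : ℕ}

/-- radial region -/
def Reg (n : ℕ) (T : Set ℝ) : Set (E n) := {x | rad x ∈ T}

lemma Reg_open {T : Set ℝ} (hT : IsOpen T) : IsOpen (Reg n T) := hT.preimage rad_cont

lemma Reg_frontier_sub (T : Set ℝ) : frontier (Reg n T) ⊆ {x | rad x ∈ frontier T} :=
  rad_cont.frontier_preimage_subset T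

lemma Reg_compact {T : Set ℝ} {M : ℝ} (hM : ∀ r ∈ frontier T, r ≤ M) :
    IsCompact (frontier (Reg n T)) := by
  refine (isCompact_Icc (a := fun _ : Fin (n + 1) => -M) (b := fun _ => M)).of_isClosed_subset
    isClosed_frontier fun x hx => ?_
  have h1 : rad x ≤ M := hM _ (Reg_frontier_sub T hx)
  have h2 : ∀ i, |x i| ≤ M := by
    intro i
    refine le_trans ?_ h1
    refine Real.abs_le_sqrt ?_
    exact Finset.single_le_sum (f := fun i => x i ^ 2) (fun i _ => sq_nonneg _) (Finset.mem_univ i)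
  exact ⟨fun i => (abs_le.1 (h2 i)).1, fun i => (abs_le.1 (h2 i)).2⟩

lemma rad_single (r : ℝ) (hr : 0 ≤ r) : rad (Pi.single 0 r : E n) = r := by
  unfold rad nsq
  have : ∑ i, (Pi.single 0 r : E n) i ^ 2 = r ^ 2 := by
    rw [Finset.sum_eq_single 0]
    · simp
    · intro j _ hj; simp [Pi.single_eq_of_ne hj]
    · simp
  rw [this, Real.sqrt_sq hr]

/-- local structure of the set of radii near a boundary radius -/
def LocR (T : Set ℝ) (R : ℝ) (out : Prop) : Prop :=
  0 < R ∧ ∃ ε, 0 < ε ∧ ((out ∧ ∀ r, R - ε < r → r < R + ε → (r ∈ T ↔ r < R)) ∨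
    (¬ out ∧ ∀ r, R - ε < r → r < R + ε → (r ∈ T ↔ R < r)))

section

variable (G : SphereMetric n) {l : ℝ → ℝ}

/-- local defining function of a radial region -/
lemma local_piece (hl : ∀ x, G.g x = l (nsq x) • 1) {T : Set ℝ} (hT : IsOpen T) {R H : ℝ}
    (hR : 0 < R) {ε : ℝ} (hε : 0 < ε)
    (h : ((∀ r, R - ε < r → r < R + ε → (r ∈ T ↔ r < R)) ∧ hh n l R = H) ∨
      ((∀ r, R - ε < r → r < R + ε → (r ∈ T ↔ R < r)) ∧ - hh n l R = H)) :
    ∀ p : E n, rad p = R → p ∈ frontier (Reg n T) ∧ ∃ (U : Set (E n)) (u : E n → ℝ), IsOpen U ∧ p ∈ U ∧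
      ContDiff ℝ (⊤ : ℕ∞) u ∧ (∀ x ∈ U, fderiv ℝ u x ≠ 0) ∧ (∀ x ∈ U, x ∈ Reg n T ↔ u x < 0) ∧
      (∀ x ∈ U, x ∈ frontier (Reg n T) ↔ u x = 0) ∧ ∀ x ∈ U, u x = 0 → meanCurv G.toMetric u x = H := by
  intro p hp
  set U : Set (E n) := {x | max (R - ε) 0 < rad x ∧ rad x < R + ε} with hU
  have hUo : IsOpen U := (isOpen_lt continuous_const rad_cont).inter (isOpen_lt rad_cont continuous_const)
  have hpU : p ∈ U := by
    refine ⟨?_, ?_⟩
    · rw [hp]; exact max_lt (by linarith) hR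
    · rw [hp]; linarith
  have hpos : ∀ x ∈ U, 0 < rad x := fun x hx => lt_of_le_of_lt (le_max_right _ _) hx.1
  have hlo : ∀ x ∈ U, R - ε < rad x := fun x hx => lt_of_le_of_lt (le_max_left _ _) hx.1
  rcases h with ⟨h1, h2⟩ | ⟨h1, h2⟩
  · have hcd : ContDiff ℝ (⊤ : ℕ∞) (fun x : E n => nsq x - R ^ 2) := nsq_contDiff.sub contDiff_const
    have hd : ∀ x ∈ U, fderiv ℝ (fun x : E n => nsq x - R ^ 2) x ≠ 0 := fun x hx =>
      fderiv_nsq_ne _ (hpos x hx)
    have hloc : ∀ x ∈ U, x ∈ Reg n T ↔ nsq x - R ^ 2 < 0 := by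
      intro x hx
      have h3 := h1 (rad x) (hlo x hx) hx.2
      show rad x ∈ T ↔ _
      rw [h3, ← rad_sq, sub_neg, sq_lt_sq₀ (hpos x hx).le hR.le]
    have hfr : ∀ x ∈ U, x ∈ frontier (Reg n T) ↔ nsq x - R ^ 2 = 0 := fun x hx =>
      frontier_iff (Reg_open hT) hUo hcd.continuous hd hloc hx
    refine ⟨?_, U, fun x => nsq x - R ^ 2, hUo, hpU, hcd, hd, hloc, hfr, ?_⟩
    · rw [hfr p hpU, ← rad_sq, hp, sub_self]
    · intro x hx h0
      rw [rot_meanCurv G hl _ (hpos x hx)]
      have h4 : rad x = R := by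
        have : rad x ^ 2 = R ^ 2 := by rw [rad_sq]; linarith
        exact (pow_left_inj₀ (hpos x hx).le hR.le two_ne_zero).1 this
      rw [h4, h2]
  · have hcd : ContDiff ℝ (⊤ : ℕ∞) (fun x : E n => R ^ 2 - nsq x) := contDiff_const.sub nsq_contDiff
    have hd : ∀ x ∈ U, fderiv ℝ (fun x : E n => R ^ 2 - nsq x) x ≠ 0 := fun x hx =>
      fderiv_nsq_ne' _ (hpos x hx)
    have hloc : ∀ x ∈ U, x ∈ Reg n T ↔ R ^ 2 - nsq x < 0 := by
      intro x hx
      have h3 := h1 (rad x) (hlo x hx) hx.2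
      show rad x ∈ T ↔ _
      rw [h3, ← rad_sq, sub_neg, sq_lt_sq₀ hR.le (hpos x hx).le]
    have hfr : ∀ x ∈ U, x ∈ frontier (Reg n T) ↔ R ^ 2 - nsq x = 0 := fun x hx =>
      frontier_iff (Reg_open hT) hUo hcd.continuous hd hloc hx
    refine ⟨?_, U, fun x => R ^ 2 - nsq x, hUo, hpU, hcd, hd, hloc, hfr, ?_⟩
    · rw [hfr p hpU, ← rad_sq, hp, sub_self]
    · intro x hx h0
      rw [rot_meanCurv' G hl _ (hpos x hx)]
      have h4 : rad x = R := by
        have : rad x ^ 2 = R ^ 2 := by rw [rad_sq]; linarith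
        exact (pow_left_inj₀ (hpos x hx).le hR.le two_ne_zero).1 this
      rw [h4, h2]

/-- volume density of the round slices -/
def WS (n : ℕ) (l : ℝ → ℝ) (r : ℝ) : ℝ := om n * (r ^ n * √(l (r ^ 2) ^ (n + 1)))

lemma Reg_vol (hl : ∀ x, G.g x = l (nsq x) • 1) {T B : Set ℝ} (hT : MeasurableSet T)
    (hB : B = T ∩ Ioi 0) : volS G (Reg n T) = ∫ r in B, WS n l r := by
  have hBm : MeasurableSet B := by rw [hB]; exact hT.inter measurableSet_Ioi
  have h1 : volS G (Reg n T) = ∫ x in {x : E n | √(nsq x) ∈ B}, √(l (√(nsq x) ^ 2) ^ (n + 1)) := by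
    unfold volS
    have h2 : (Reg n T : Set (E n)) =ᵐ[volume] {x : E n | √(nsq x) ∈ B} := by
      have h3 : ∀ᵐ x : E n, x ≠ 0 := by
        simp [ae_iff]
      filter_upwards [h3] with x hx
      apply propext
      show rad x ∈ T ↔ rad x ∈ B
      rw [hB]
      constructor
      · intro h4
        refine ⟨h4, ?_⟩
        refine lt_of_le_of_ne (rad_nonneg x) fun h5 => hx ?_
        have h6 : nsq x = 0 := by rw [← rad_sq, ← h5]; ring
        funext i
        have h7 : x i ^ 2 ≤ nsq x :=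
          Finset.single_le_sum (f := fun i => x i ^ 2) (fun i _ => sq_nonneg _) (Finset.mem_univ i)
        rw [h6] at h7
        exact pow_eq_zero_iff two_ne_zero |>.1 (le_antisymm h7 (sq_nonneg _))
      · intro h4; exact h4.1
    rw [setIntegral_congr_set h2]
    refine integral_congr_ae (Eventually.of_forall fun x => ?_)
    simp only
    rw [rot_dens G hl, Real.sq_sqrt (nsq_nonneg x)]
  rw [h1, radial_integral (fun r => √(l (r ^ 2) ^ (n + 1))) B hBm (by rw [hB]; exact inter_subset_right),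
    ← integral_const_mul]
  rfl

lemma Reg_closedCMC (hl : ∀ x, G.g x = l (nsq x) • 1) {T B : Set ℝ} (hT : IsOpen T) {v H M : ℝ}
    (hB : B = T ∩ Ioi 0) (hv : ∫ r in B, WS n l r = v) (hM : ∀ r ∈ frontier T, r ≤ M)
    (hloc : ∀ R ∈ frontier T, 0 < R ∧ ∃ ε, 0 < ε ∧
      (((∀ r, R - ε < r → r < R + ε → (r ∈ T ↔ r < R)) ∧ hh n l R = H) ∨
      ((∀ r, R - ε < r → r < R + ε → (r ∈ T ↔ R < r)) ∧ - hh n l R = H))) :
    ClosedCMCS G v (frontier (Reg n T)) := by
  refine ⟨Reg n T, Reg_open hT, Reg_compact hM, ?_, rfl, H, fun p hp => ?_⟩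
  · rw [Reg_vol G hl hT.measurableSet hB, hv]
  · have hR := Reg_frontier_sub T hp
    obtain ⟨h0, ε, hε, h⟩ := hloc _ hR
    exact (local_piece G hl hT h0 hε h p rfl).2

theorem two_CMCS (hn : 1 ≤ n) (hG : RotSym G) (v : ℝ) (hv0 : 0 < v) (hv1 : v < volS G univ) :
    ∃ S₁ S₂ : Set (E n), S₁ ≠ S₂ ∧ ClosedCMCS G v S₁ ∧ ClosedCMCS G v S₂ := by
  obtain ⟨l, hl⟩ := hG
  have hom := om_pos n
  have hcont : Continuous (WS n l) := by
    unfold WS
    exact continuous_const.mul ((continuous_pow n).mul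
      (((lr_contDiff G hl).continuous.pow (n + 1)).sqrt))
  have hWpos : ∀ r, 0 < r → 0 < WS n l r := by
    intro r hr
    unfold WS
    have := lr_pos' G hl r
    positivity
  have hWint : IntegrableOn (WS n l) (Ioi 0) := (W_int G l hl).const_mul (om n)
  set A : ℝ → ℝ := fun r => om n * (r ^ n * pp n l r) with hA
  have hAd : ∀ r, 0 < r → HasDerivAt A (hh n l r * WS n l r) r := by
    intro r hr
    have h1 : HasDerivAt (pp n l) (deriv (pp n l) r) r :=
      (((pp_contDiff G hl n).differentiable (by simp)) r).hasDerivAt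
    have h2 := ((hasDerivAt_pow n r).mul h1).const_mul (om n)
    have h3 : om n * (n * r ^ (n - 1) * pp n l r + r ^ n * deriv (pp n l) r) =
        hh n l r * WS n l r := by
      unfold hh WS
      have h4 : 0 < √(l (r ^ 2) ^ (n + 1)) := Real.sqrt_pos.2 (pow_pos (lr_pos' G hl r) _)
      have h5 : r ^ n = r ^ (n - 1) * r := by
        rw [← pow_succ, Nat.sub_add_cancel hn]
      rw [h5]
      field_simp
      ring
    rw [← h3]
    exact h2
  have hA0 : Tendsto A (𝓝[>] 0) (𝓝 0) := by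
    have h1 : Continuous A := by
      rw [hA]
      exact continuous_const.mul ((continuous_pow n).mul (pp_contDiff G hl n).continuous)
    have h2 := (h1.tendsto 0).mono_left (nhdsWithin_le_nhds (s := Ioi (0:ℝ)))
    have h3 : A 0 = 0 := by
      simp [hA, zero_pow (by omega : n ≠ 0)]
    rwa [h3] at h2
  have hA1 : Tendsto A atTop (𝓝 0) := by
    have := (A_lim G l hl hn).const_mul (om n)
    rwa [mul_zero] at this
  have hvol : volS G univ = ∫ r in Ioi (0:ℝ), WS n l r := by
    have h1 : (univ : Set (E n)) = Reg n univ := by ext x; simp [Reg]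
    rw [h1]
    exact Reg_vol G hl MeasurableSet.univ (by rw [univ_inter])
  rw [hvol] at hv1
  obtain ⟨a, ha, hav, hcase⟩ := coreS (WS n l) (hh n l) A (fun r _ => hcont.continuousAt) hWpos hWint
    hAd hA0 hA1 v hv0 hv1
  have hS1 : ClosedCMCS G v (frontier (Reg n (Iio a))) := by
    refine Reg_closedCMC G hl (T := Iio a) (B := Ioo 0 a) isOpen_Iio (H := hh n l a) (M := a) ?_ hav ?_ ?_
    · ext r; simp [and_comm]
    · intro r hr; rw [frontier_Iio] at hr; exact le_of_eq hr
    · intro R hR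
      rw [frontier_Iio, mem_singleton_iff] at hR
      subst hR
      exact ⟨ha, 1, one_pos, Or.inl ⟨fun r _ _ => Iff.rfl, rfl⟩⟩
  have hmem1 : ∀ x ∈ frontier (Reg n (Iio a)), rad x = a := by
    intro x hx
    have := Reg_frontier_sub (Iio a) hx
    rw [frontier_Iio] at this
    exact this
  rcases hcase with ⟨a', ha', hne, hv'⟩ | ⟨s, b, hs, hsb, hv', hhb⟩
  · refine ⟨frontier (Reg n (Iio a)), frontier (Reg n (Ioi a')), ?_, hS1, ?_⟩
    · intro hS
      have h1 : (Pi.single 0 a' : E n) ∈ frontier (Reg n (Ioi a')) :=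
        (local_piece G hl (T := Ioi a') isOpen_Ioi ha' one_pos
          (H := - hh n l a') (Or.inr ⟨fun r _ _ => Iff.rfl, rfl⟩) _ (rad_single a' ha'.le)).1
      rw [← hS] at h1
      have := hmem1 _ h1
      rw [rad_single a' ha'.le] at this
      exact hne this
    · refine Reg_closedCMC G hl (T := Ioi a') (B := Ioi a') isOpen_Ioi (H := - hh n l a') (M := a') ?_ hv' ?_ ?_
      · ext r
        simp only [mem_inter_iff, mem_Ioi]
        constructor
        · intro h; exact ⟨h, ha'.trans h⟩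
        · intro h; exact h.1
      · intro r hr; rw [frontier_Ioi] at hr; exact le_of_eq hr
      · intro R hR
        rw [frontier_Ioi, mem_singleton_iff] at hR
        subst hR
        exact ⟨ha', 1, one_pos, Or.inr ⟨fun r _ _ => Iff.rfl, rfl⟩⟩
  · have hb : 0 < b := hs.trans hsb
    have hlocs : ∀ r, s - (b - s) < r → r < s + (b - s) → (r ∈ Ioo s b ↔ s < r) := by
      intro r h1 h2
      constructor
      · intro h; exact h.1
      · intro h; exact ⟨h, by linarith⟩
    have hlocb : ∀ r, b - (b - s) < r → r < b + (b - s) → (r ∈ Ioo s b ↔ r < b) := by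
      intro r h1 h2
      constructor
      · intro h; exact h.2
      · intro h; exact ⟨by linarith, h⟩
    have hbs : 0 < b - s := by linarith
    refine ⟨frontier (Reg n (Iio a)), frontier (Reg n (Ioo s b)), ?_, hS1, ?_⟩
    · intro hS
      have h1 : (Pi.single 0 s : E n) ∈ frontier (Reg n (Ioo s b)) :=
        (local_piece G hl (T := Ioo s b) isOpen_Ioo hs hbs
          (H := - hh n l s) (Or.inr ⟨hlocs, rfl⟩) _ (rad_single s hs.le)).1
      have h2 : (Pi.single 0 b : E n) ∈ frontier (Reg n (Ioo s b)) :=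
        (local_piece G hl (T := Ioo s b) isOpen_Ioo hb hbs
          (H := hh n l b) (Or.inl ⟨hlocb, rfl⟩) _ (rad_single b hb.le)).1
      rw [← hS] at h1 h2
      have h3 := hmem1 _ h1
      have h4 := hmem1 _ h2
      rw [rad_single s hs.le] at h3
      rw [rad_single b hb.le] at h4
      linarith
    · refine Reg_closedCMC G hl (T := Ioo s b) (B := Ioo s b) isOpen_Ioo (H := hh n l b) (M := b) ?_ hv' ?_ ?_
      · ext r
        simp only [mem_inter_iff, mem_Ioi, mem_Ioo]
        constructor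
        · intro h; exact ⟨h, hs.trans h.1⟩
        · intro h; exact h.1
      · intro r hr
        rw [frontier_Ioo hsb] at hr
        rcases hr with hr | hr
        · rw [hr]; exact hsb.le
        · rw [mem_singleton_iff.1 hr]
      · intro R hR
        rw [frontier_Ioo hsb] at hR
        rcases hR with hR | hR
        · subst hR
          exact ⟨hs, b - R, hbs, Or.inr ⟨hlocs, by rw [hhb]⟩⟩
        · rw [mem_singleton_iff] at hR
          subst hR
          exact ⟨hb, R - s, hbs, Or.inl ⟨hlocb, rfl⟩⟩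

end

end Pool.Agent.H93.CMC
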