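import Pool.Agent.H93.CMC.Geo

open Set Filter Topology

noncomputable section

namespace Pool.Agent.H93.CMC

variable {n : ℕ}

/-- `|x|` -/
def rad (x : E n) : ℝ := √(nsq x)

lemma nsq_nonneg (x : E n) : 0 ≤ nsq x := Finset.sum_nonneg fun i _ => sq_nonneg _

lemma rad_sq (x : E n) : rad x ^ 2 = nsq x := Real.sq_sqrt (nsq_nonneg x)

lemma rad_nonneg (x : E n) : 0 ≤ rad x := Real.sqrt_nonneg _

lemma nsq_cont : Continuous (nsq : E n → ℝ) := by
  unfold nsq
  fun_prop

lemma rad_cont : Continuous (rad : E n → ℝ) := nsq_cont.sqrt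

lemma nsq_contDiff : ContDiff ℝ (⊤ : ℕ∞) (nsq : E n → ℝ) := by
  unfold nsq
  exact ContDiff.sum fun i _ => (contDiff_apply ℝ ℝ i).pow 2

lemma nsq_hasFDerivAt (x : E n) : HasFDerivAt (nsq : E n → ℝ)
    (∑ i, (2 * x i) • (ContinuousLinearMap.proj (R := ℝ) (φ := fun _ : Fin (n + 1) => ℝ) i)) x := by
  have : (nsq : E n → ℝ) = fun x => ∑ i, x i ^ 2 := rfl
  rw [this]
  refine HasFDerivAt.fun_sum fun i _ => ?_
  have h := ((ContinuousLinearMap.proj (R := ℝ) (φ := fun _ : Fin (n + 1) => ℝ) i).hasFDerivAt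
    (x := x)).pow 2
  simpa using h

lemma pd_nsq (c : ℝ) (j : Fin (n + 1)) (x : E n) : pd j (fun z : E n => nsq z - c) x = 2 * x j := by
  unfold pd
  rw [((nsq_hasFDerivAt x).sub_const c).fderiv]
  simp [Pi.single_apply]

lemma pd_nsq' (c : ℝ) (j : Fin (n + 1)) (x : E n) : pd j (fun z : E n => c - nsq z) x = -(2 * x j) := by
  unfold pd
  rw [((nsq_hasFDerivAt x).const_sub c).fderiv]
  simp [Pi.single_apply]

lemma exists_ne {x : E n} (hx : 0 < rad x) : ∃ i, x i ≠ 0 := by
  by_contra hcon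
  push Not at hcon
  have : nsq x = 0 := by unfold nsq; simp [hcon]
  unfold rad at hx
  rw [this, Real.sqrt_zero] at hx
  exact lt_irrefl _ hx

lemma fderiv_nsq_ne (c : ℝ) {x : E n} (hx : 0 < rad x) : fderiv ℝ (fun z : E n => nsq z - c) x ≠ 0 := by
  intro h
  obtain ⟨i, hi⟩ := exists_ne hx
  have := pd_nsq c i x
  unfold pd at this
  rw [h] at this
  simp at this
  exact hi this

lemma fderiv_nsq_ne' (c : ℝ) {x : E n} (hx : 0 < rad x) : fderiv ℝ (fun z : E n => c - nsq z) x ≠ 0 := by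
  intro h
  obtain ⟨i, hi⟩ := exists_ne hx
  have := pd_nsq' c i x
  unfold pd at this
  rw [h] at this
  simp at this
  exact hi this

lemma rad_hasFDerivAt {x : E n} (hx : 0 < rad x) : HasFDerivAt (rad : E n → ℝ)
    ((1 / (2 * √(nsq x))) •
      ∑ i, (2 * x i) • (ContinuousLinearMap.proj (R := ℝ) (φ := fun _ : Fin (n + 1) => ℝ) i)) x := by
  refine (nsq_hasFDerivAt x).sqrt ?_
  intro h
  unfold rad at hx
  rw [h, Real.sqrt_zero] at hx
  exact lt_irrefl _ hx

/-- divergence of a radial field -/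
lemma div_radial {q : ℝ → ℝ} {q' : ℝ} {x : E n} (hx : 0 < rad x) (hq : HasDerivAt q q' (rad x)) :
    ∑ i, pd i (fun y => q (rad y) * y i) x = q' * rad x + (n + 1) * q (rad x) := by
  have h1 : ∀ i, pd i (fun y => q (rad y) * y i) x = q' * (x i ^ 2 / rad x) + q (rad x) := by
    intro i
    unfold pd
    have h2 := hq.comp_hasFDerivAt x (rad_hasFDerivAt hx)
    have h3 := h2.mul ((ContinuousLinearMap.proj (R := ℝ) (φ := fun _ : Fin (n + 1) => ℝ) i).hasFDerivAt
      (x := x))
    have h4 : HasFDerivAt (fun y : E n => q (rad y) * y i) _ x := h3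
    rw [h4.fderiv]
    simp only [Function.comp_apply, ContinuousLinearMap.proj_apply, _root_.add_apply,
      _root_.smul_apply, smul_eq_mul, Pi.single_eq_same, _root_.sum_apply]
    have h5 : ∑ j, 2 * x j * (Pi.single i (1:ℝ) : E n) j = 2 * x i := by
      simp [Pi.single_apply]
    rw [h5]
    have h6 : √(nsq x) = rad x := rfl
    rw [h6]
    have := hx.ne'
    field_simp
    ring
  simp only [h1]
  rw [Finset.sum_add_distrib, ← Finset.mul_sum, ← Finset.sum_div]
  have h7 : ∑ i, x i ^ 2 = rad x ^ 2 := by rw [rad_sq]; rfl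
  rw [h7]
  simp only [Finset.sum_const, Finset.card_univ, Fintype.card_fin, nsmul_eq_mul]
  have := hx.ne'
  push_cast
  field_simp

/-- frontier of a set with a local defining function -/
lemma frontier_iff {Ω U : Set (E n)} {u : E n → ℝ} (hΩ : IsOpen Ω) (hU : IsOpen U)
    (hu : Continuous u) (hd : ∀ x ∈ U, fderiv ℝ u x ≠ 0) (hloc : ∀ x ∈ U, x ∈ Ω ↔ u x < 0)
    {x : E n} (hx : x ∈ U) : x ∈ frontier Ω ↔ u x = 0 := by
  rw [hΩ.frontier_eq]
  constructor
  · rintro ⟨hc, hn⟩
    have h1 : 0 ≤ u x := by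
      by_contra hcon
      exact hn ((hloc x hx).2 (not_le.1 hcon))
    have h2 : u x ≤ 0 := by
      by_contra hcon
      have hV : IsOpen (U ∩ {y | 0 < u y}) := hU.inter (isOpen_lt continuous_const hu)
      obtain ⟨y, ⟨hy1, hy2⟩, hy3⟩ := mem_closure_iff.1 hc _ hV ⟨hx, not_le.1 hcon⟩
      have h3 := (hloc y hy1).1 hy3
      have h4 : 0 < u y := hy2
      linarith
    linarith
  · intro h0
    refine ⟨?_, fun hn => by have := (hloc x hx).1 hn; linarith⟩
    by_contra hcon
    apply hd x hx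
    have hmin : IsLocalMin u x := by
      have h1 : (closure Ω)ᶜ ∈ 𝓝 x := isClosed_closure.isOpen_compl.mem_nhds hcon
      filter_upwards [h1, hU.mem_nhds hx] with y hy1 hy2
      rw [h0]
      by_contra hlt
      exact hy1 (subset_closure ((hloc y hy2).2 (not_le.1 hlt)))
    exact hmin.fderiv_eq_zero

section rot

variable (G : SphereMetric n) {l : ℝ → ℝ}

lemma lr_pos (hl : ∀ x, G.g x = l (nsq x) • 1) (x : E n) : 0 < l (nsq x) := by
  have h := (G.posDef x).diag_pos (i := 0)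
  rw [hl] at h
  simpa using h

lemma rot_inv (hl : ∀ x, G.g x = l (nsq x) • 1) (x : E n) (i j : Fin (n + 1)) :
    (G.g x)⁻¹ i j = if i = j then (l (nsq x))⁻¹ else 0 := by
  have hpos := lr_pos G hl x
  have h1 : (G.g x)⁻¹ = (l (nsq x))⁻¹ • 1 := by
    rw [hl]
    apply Matrix.inv_eq_right_inv
    rw [Matrix.smul_mul, Matrix.mul_smul, Matrix.one_mul, smul_smul, mul_inv_cancel₀ hpos.ne',
      one_smul]
  rw [h1, Matrix.smul_apply, Matrix.one_apply]
  simp

lemma rot_dens (hl : ∀ x, G.g x = l (nsq x) • 1) (x : E n) :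
    dens G.toMetric x = √(l (nsq x) ^ (n + 1)) := by
  unfold dens
  rw [hl, Matrix.det_smul, Matrix.det_one, mul_one, Fintype.card_fin]

/-- the area density of the round slices -/
def pp (n : ℕ) (l : ℝ → ℝ) (r : ℝ) : ℝ := √(l (r ^ 2) ^ n)

/-- their mean curvature -/
def hh (n : ℕ) (l : ℝ → ℝ) (r : ℝ) : ℝ :=
  (√(l (r ^ 2) ^ (n + 1)))⁻¹ * (deriv (pp n l) r + n * pp n l r / r)

lemma lr_contDiff (hl : ∀ x, G.g x = l (nsq x) • 1) : ContDiff ℝ (⊤ : ℕ∞) fun r : ℝ => l (r ^ 2) := by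
  have h1 : (fun r : ℝ => l (r ^ 2)) = fun r : ℝ => G.g (fun i => if i = 0 then r else 0) 0 0 := by
    funext r
    rw [hl]
    have h2 : nsq (fun i : Fin (n + 1) => if i = 0 then r else 0) = r ^ 2 := by
      unfold nsq
      simp [ite_pow]
    rw [h2]
    simp
  rw [h1]
  refine (G.smooth 0 0).comp ?_
  refine contDiff_pi.2 fun i => ?_
  by_cases hi : i = 0
  · simp only [hi, if_true]; exact contDiff_id
  · simp only [hi, if_false]; exact contDiff_const

lemma lr_pos' (hl : ∀ x, G.g x = l (nsq x) • 1) (r : ℝ) : 0 < l (r ^ 2) := by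
  have h2 : nsq (fun i : Fin (n + 1) => if i = 0 then r else 0) = r ^ 2 := by
    unfold nsq
    simp [ite_pow]
  rw [← h2]
  exact lr_pos G hl _

lemma pp_contDiff (hl : ∀ x, G.g x = l (nsq x) • 1) (k : ℕ) : ContDiff ℝ (⊤ : ℕ∞) (pp k l) := by
  unfold pp
  exact ((lr_contDiff G hl).pow k).sqrt fun r => (pow_pos (lr_pos' G hl r) k).ne'

lemma rot_flux (hl : ∀ x, G.g x = l (nsq x) • 1) (i : Fin (n + 1)) (x : E n) (t s : ℝ)
    (ht : t = l (nsq x)) (hs : s = rad x) :
    √(t ^ (n + 1)) * (t⁻¹ * (2 * x i)) / √(4 * s ^ 2 * t⁻¹) = √(t ^ n) / s * x i := by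
  have ht0 : 0 < t := by rw [ht]; exact lr_pos G hl x
  have hs0 : 0 ≤ s := by rw [hs]; exact rad_nonneg x
  have h1 : √(4 * s ^ 2 * t⁻¹) = 2 * s / √t := by
    rw [Real.sqrt_mul (by positivity), Real.sqrt_mul (by norm_num), Real.sqrt_sq hs0, Real.sqrt_inv]
    have : √(4:ℝ) = 2 := by
      rw [show (4:ℝ) = 2 ^ 2 by norm_num, Real.sqrt_sq (by norm_num)]
    rw [this]; ring
  have h2 : √(t ^ (n + 1)) = √(t ^ n) * √t := by
    rw [pow_succ, Real.sqrt_mul (by positivity)]
  have h3 : √t * √t = t := Real.mul_self_sqrt ht0.le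
  have h4 : 0 < √t := Real.sqrt_pos.2 ht0
  rw [h1, h2]
  rcases eq_or_lt_of_le hs0 with h5 | h5
  · rw [← h5]; simp
  · have h6 : √(t ^ n) * √t * (t⁻¹ * (2 * x i)) / (2 * s / √t) =
        √(t ^ n) * (√t * √t) * t⁻¹ * x i / s := by
      field_simp
    rw [h6, h3]
    field_simp

lemma rot_meanCurv (hl : ∀ x, G.g x = l (nsq x) • 1) (c : ℝ) {x : E n} (hx : 0 < rad x) :
    meanCurv G.toMetric (fun z => nsq z - c) x = hh n l (rad x) := by
  unfold meanCurv hh
  have h1 : ∀ i y, grad G.toMetric (fun z => nsq z - c) i y = (l (nsq y))⁻¹ * (2 * y i) := by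
    intro i y
    unfold grad
    simp only [pd_nsq, rot_inv G hl]
    simp
  have h2 : ∀ y, gradNorm G.toMetric (fun z => nsq z - c) y = √(4 * rad y ^ 2 * (l (nsq y))⁻¹) := by
    intro y
    unfold gradNorm
    simp only [pd_nsq, h1]
    congr 1
    rw [rad_sq]
    unfold nsq
    rw [Finset.mul_sum, Finset.sum_mul]
    refine Finset.sum_congr rfl fun i _ => ?_
    ring
  have h3 : ∀ i, (fun y => dens G.toMetric y * grad G.toMetric (fun z => nsq z - c) i y /
      gradNorm G.toMetric (fun z => nsq z - c) y) = fun y => (pp n l (rad y) / rad y) * y i := by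
    intro i
    funext y
    rw [h1, h2, rot_dens G hl, rot_flux G hl i y _ _ rfl rfl]
    unfold pp
    rw [rad_sq]
  simp only [h3]
  have h4 : HasDerivAt (fun r => pp n l r / r)
      ((deriv (pp n l) (rad x) * rad x - pp n l (rad x) * 1) / rad x ^ 2) (rad x) :=
    (((pp_contDiff G hl n).differentiable (by simp)) (rad x)).hasDerivAt.div (hasDerivAt_id _) hx.ne'
  rw [div_radial hx h4, rot_dens G hl, rad_sq]
  congr 1
  have := hx.ne'
  rw [← rad_sq]
  field_simp
  ring

lemma rot_meanCurv' (hl : ∀ x, G.g x = l (nsq x) • 1) (c : ℝ) {x : E n} (hx : 0 < rad x) :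
    meanCurv G.toMetric (fun z => c - nsq z) x = - hh n l (rad x) := by
  rw [← rot_meanCurv G hl c hx]
  unfold meanCurv
  have h1 : ∀ i y, grad G.toMetric (fun z => c - nsq z) i y =
      - grad G.toMetric (fun z => nsq z - c) i y := by
    intro i y
    unfold grad
    simp only [pd_nsq, pd_nsq', rot_inv G hl]
    simp
  have h2 : ∀ y, gradNorm G.toMetric (fun z => c - nsq z) y =
      gradNorm G.toMetric (fun z => nsq z - c) y := by
    intro y
    unfold gradNorm
    simp only [pd_nsq, pd_nsq', h1]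
    congr 1
    refine Finset.sum_congr rfl fun i _ => ?_
    ring
  simp only [h1, h2]
  have h3 : ∀ i, (fun y => dens G.toMetric y * -grad G.toMetric (fun z => nsq z - c) i y /
      gradNorm G.toMetric (fun z => nsq z - c) y) = fun y => -(dens G.toMetric y *
      grad G.toMetric (fun z => nsq z - c) i y / gradNorm G.toMetric (fun z => nsq z - c) y) := by
    intro i; funext y; ring
  simp only [h3]
  have h4 : ∀ (i : Fin (n + 1)) (f : E n → ℝ), pd i (fun y => - f y) x = - pd i f x := by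
    intro i f
    unfold pd
    rw [show (fun y => - f y) = - f from rfl, fderiv_neg]
    simp
  simp only [h4, Finset.sum_neg_distrib]
  ring

end rot

end Pool.Agent.H93.CMC
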